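import Mathlib

/-!
# Finite subsets with small boundary of a group of positive rationals

`Γ` is a set of positive rationals closed under division with an element different from `1`.
-/

namespace PoolRat

open Finset

/-- the products of the `x ^ a x`, `a x < n`, `x ∈ X` -/
noncomputable def BB (X : Finset ℚ) (n : ℕ) : Finset ℚ :=
  open Classical in
  (Fintype.piFinset (fun _ : X => range n)).image (fun a => ∏ x : X, (x : ℚ) ^ a x)

theorem BB_card_le (X : Finset ℚ) (n : ℕ) : #(BB X n) ≤ n ^ #X := by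
  classical
  unfold BB
  refine card_image_le.trans ?_
  rw [Fintype.card_piFinset]
  simp

theorem BB_mono (X : Finset ℚ) {m n : ℕ} (h : m ≤ n) : BB X m ⊆ BB X n := by
  classical
  unfold BB
  refine image_subset_image (Fintype.piFinset_subset _ _ (fun _ => range_subset_range.2 h))

theorem BB_mul (X : Finset ℚ) (n : ℕ) (x : ℚ) (hx : x ∈ X) (b : ℚ) (hb : b ∈ BB X n) :
    b * x ∈ BB X (n + 1) := by
  classical
  unfold BB at *
  obtain ⟨a, ha, rfl⟩ := mem_image.1 hb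
  rw [Fintype.mem_piFinset] at ha
  refine mem_image.2 ⟨fun y => a y + if y = ⟨x, hx⟩ then 1 else 0, ?_, ?_⟩
  · rw [Fintype.mem_piFinset]
    intro y
    have h1 := mem_range.1 (ha y)
    rw [mem_range]
    split_ifs
    · omega
    · omega
  · simp only [pow_add, prod_mul_distrib]
    congr 1
    rw [prod_eq_single (⟨x, hx⟩ : X)]
    · simp
    · intro y _ hy
      simp [hy]
    · intro h
      exact absurd (mem_univ _) h

theorem BB_mem (Γ : Set ℚ) (h1 : (1 : ℚ) ∈ Γ) (hmul : ∀ a ∈ Γ, ∀ b ∈ Γ, a * b ∈ Γ) (X : Finset ℚ)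
    (hX : ∀ x ∈ X, x ∈ Γ) (n : ℕ) (b : ℚ) (hb : b ∈ BB X n) : b ∈ Γ := by
  classical
  unfold BB at hb
  obtain ⟨a, _, rfl⟩ := mem_image.1 hb
  have hpow : ∀ x ∈ Γ, ∀ m : ℕ, x ^ m ∈ Γ := by
    intro x hx m
    induction m with
    | zero => simpa using h1
    | succ m ih =>
      rw [pow_succ]
      exact hmul _ ih _ hx
  exact prod_induction (fun x : X => (x : ℚ) ^ a x) (· ∈ Γ) (fun a b ha hb => hmul a ha b hb) h1
    (fun x _ => hpow _ (hX x x.2) _)

theorem BB_large (X : Finset ℚ) (x : ℚ) (hx : x ∈ X) (hx0 : 0 < x) (hx1 : x ≠ 1) (n : ℕ)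
    : n ≤ #(BB X n) := by
  classical
  have h2 : (range n).image (fun j => x ^ j) ⊆ BB X n := by
    intro y hy
    obtain ⟨j, hj, rfl⟩ := mem_image.1 hy
    unfold BB
    have hj' := mem_range.1 hj
    refine mem_image.2 ⟨fun z => if z = ⟨x, hx⟩ then j else 0, ?_, ?_⟩
    · rw [Fintype.mem_piFinset]
      intro z
      rw [mem_range]
      split_ifs
      · exact hj'
      · omega
    · rw [prod_eq_single (⟨x, hx⟩ : X)]
      · simp
      · intro z _ hz
        simp [hz]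
      · intro h
        exact absurd (mem_univ _) h
  have h3 := card_le_card h2
  rw [card_image_of_injective _ (pow_right_injective₀ hx0 hx1), card_range] at h3
  exact h3

theorem BB_growth (X : Finset ℚ) (K : ℕ) (hK : 1 ≤ K) (hone : ∀ n, n ≤ #(BB X n)) (δ : ℝ) (hδ : 0 < δ) :
    ∃ n, K ≤ n ∧ (#(BB X (n + 1)) : ℝ) ≤ (1 + δ) * #(BB X n) := by
  by_contra hcon
  push Not at hcon
  have h1 : ∀ j : ℕ, (1 + δ) ^ j ≤ (#(BB X (K + j)) : ℝ) := by
    intro j
    induction j with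
    | zero =>
      have : (1 : ℝ) ≤ #(BB X K) := by exact_mod_cast hK.trans (hone K)
      simpa using this
    | succ j ih =>
      have h2 := hcon (K + j) (by omega)
      rw [pow_succ, mul_comm]
      have h3 : (0 : ℝ) ≤ 1 + δ := by linarith
      exact (mul_le_mul_of_nonneg_left ih h3).trans h2.le
  have h2 : ∀ j : ℕ, (1 + δ) ^ j ≤ ((K : ℝ) + j) ^ #X := by
    intro j
    refine (h1 j).trans ?_
    have := BB_card_le X (K + j)
    have h3 : ((#(BB X (K + j)) : ℕ) : ℝ) ≤ (((K + j) ^ #X : ℕ) : ℝ) := by exact_mod_cast this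
    push_cast at h3
    exact h3
  have h3 : Filter.Tendsto (fun j : ℕ => ((j : ℝ)) ^ #X / (1 + δ) ^ j) Filter.atTop (nhds 0) :=
    tendsto_pow_const_div_const_pow_of_one_lt _ (by linarith)
  have h4 : ∀ᶠ j : ℕ in Filter.atTop, ((j : ℝ)) ^ #X / (1 + δ) ^ j < 1 / (2 * 2 ^ #X) :=
    h3.eventually (gt_mem_nhds (by positivity))
  obtain ⟨j, hj1, hj2⟩ := (h4.and (Filter.eventually_ge_atTop K)).exists
  have h5 := h2 j
  have h6 : ((K : ℝ) + j) ^ #X ≤ 2 ^ #X * (j : ℝ) ^ #X := by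
    rw [← mul_pow]
    refine pow_le_pow_left₀ (by positivity) ?_ _
    have : (K : ℝ) ≤ j := by exact_mod_cast hj2
    linarith
  have h7 : (0 : ℝ) < (1 + δ) ^ j := by positivity
  rw [div_lt_div_iff₀ h7 (by positivity)] at hj1
  have h8 := h5.trans h6
  have h9 : (0 : ℝ) ≤ (j : ℝ) ^ #X := by positivity
  nlinarith

/-- finite subsets of `Γ` with small boundary with respect to division by the elements of `X` -/
theorem exists_folner (Γ : Set ℚ) (hpos : ∀ a ∈ Γ, 0 < a) (h1 : (1 : ℚ) ∈ Γ)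
    (hmul : ∀ a ∈ Γ, ∀ b ∈ Γ, a * b ∈ Γ) (hne : ∃ a ∈ Γ, a ≠ 1) (X : Finset ℚ)
    (hX : ∀ x ∈ X, x ∈ Γ) (δ : ℝ) (hδ : 0 < δ) (K : ℕ) :
    ∃ D : Finset ℚ, (∀ d ∈ D, d ∈ Γ) ∧ K ≤ #D ∧
      ∀ x ∈ X, (#(D.filter (fun d => d / x ∉ D)) : ℝ) ≤ δ * #D := by
  classical
  obtain ⟨a, ha, ha1⟩ := hne
  set X' : Finset ℚ := insert a X with hX'
  have hX'Γ : ∀ x ∈ X', x ∈ Γ := by
    intro x hx
    rcases mem_insert.1 hx with rfl | hx
    · exact ha
    · exact hX x hx
  have hlarge : ∀ n, n ≤ #(BB X' n) := fun n =>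
    BB_large X' a (mem_insert_self _ _) (hpos a ha) ha1 n
  obtain ⟨n, hn, hg⟩ := BB_growth X' (K + 1) (by omega) hlarge δ hδ
  refine ⟨BB X' (n + 1), fun d hd => BB_mem Γ h1 hmul X' hX'Γ _ d hd, ?_, fun x hx => ?_⟩
  · have := hlarge (n + 1)
    omega
  · have hx' : x ∈ X' := mem_insert_of_mem hx
    have hx0 : x ≠ 0 := (hpos x (hX x hx)).ne'
    have h2 : #(BB X' n) ≤ #((BB X' (n + 1)).filter (fun d => d / x ∈ BB X' (n + 1))) := by
      refine card_le_card_of_injOn (fun b => b * x) ?_ ?_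
      · intro b hb
        have hb' := mem_coe.1 hb
        refine mem_coe.2 (mem_filter.2 ⟨BB_mul X' n x hx' b hb', ?_⟩)
        rw [mul_div_assoc, div_self hx0, mul_one]
        exact BB_mono X' (Nat.le_succ n) hb'
      · intro b _ b' _ h
        exact mul_right_cancel₀ hx0 h
    have h3 := card_filter_add_card_filter_not (s := BB X' (n + 1)) (fun d => d / x ∈ BB X' (n + 1))
    have h4 : ((#((BB X' (n + 1)).filter (fun d => d / x ∈ BB X' (n + 1))) : ℕ) : ℝ) +
        #((BB X' (n + 1)).filter (fun d => ¬ d / x ∈ BB X' (n + 1))) = #(BB X' (n + 1)) := by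
      exact_mod_cast h3
    have h5 : ((#(BB X' n) : ℕ) : ℝ) ≤
        #((BB X' (n + 1)).filter (fun d => d / x ∈ BB X' (n + 1))) := by exact_mod_cast h2
    have h6 : ((#(BB X' n) : ℕ) : ℝ) ≤ #(BB X' (n + 1)) := by
      exact_mod_cast card_le_card (BB_mono X' (Nat.le_succ n))
    have h7 : δ * (#(BB X' n) : ℝ) ≤ δ * #(BB X' (n + 1)) := mul_le_mul_of_nonneg_left h6 hδ.le
    linarith

end PoolRat
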