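import Pool.Agent.Work.MP_1a023c_nt.Quarter
import Pool.Agent.Work.MP_1a023c_nt.Folner

/-!
# Lower Banach density of the represented rationals in an arbitrary group of positive rationals
-/

namespace PoolRat

open Finset Classical PoolCL

/-- the graph density hypothesis: the proportion `θ` of the pairs of every large set is represented -/
def Pairs (θ : ℝ) (e : ℤ) : Prop :=
  ∀ ε : ℝ, 0 < ε → ∃ n₀ : ℕ, ∀ H : Finset ℕ, (∀ h ∈ H, 0 < h) → n₀ ≤ #H →
    (θ - ε) * ((#H : ℝ) * ((#H : ℝ) - 1)) ≤ (#{p ∈ H.offDiag | Rep e ((p.1 : ℚ) / p.2)} : ℝ)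

/-- one step of the construction of a set with few represented ratios -/
theorem step_gam (Γ : Set ℚ) (hpos : ∀ a ∈ Γ, 0 < a) (h1 : (1 : ℚ) ∈ Γ)
    (hmul : ∀ a ∈ Γ, ∀ b ∈ Γ, a * b ∈ Γ) (hne : ∃ a ∈ Γ, a ≠ 1) (e : ℤ) (θ ε : ℝ) (hε : 0 < ε)
    (hεθ : ε < θ) (hθ : θ ≤ 1)
    (hcon : ∀ F : Finset ℚ, F.Nonempty → (∀ f ∈ F, f ∈ Γ) → ∃ g ∈ Γ,
      (#(F.filter (fun f => Rep e (g * f))) : ℝ) < (θ - ε) * #F)
    (X : Finset ℚ) (hX : ∀ x ∈ X, x ∈ Γ) :
    ∃ y ∈ Γ, y ∉ X ∧ (#(X.filter (fun x => Rep e (y / x))) : ℝ) ≤ (θ - ε / 2) * #X := by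
  obtain ⟨K, hK⟩ := exists_nat_ge ((#X : ℝ) / (ε / 4))
  obtain ⟨D, hD, hKD, hbox⟩ := exists_folner Γ hpos h1 hmul hne X hX (ε / 4) (by positivity) (K + #X + 1)
  obtain ⟨g, hg, hgD⟩ := hcon D (card_pos.1 (by omega)) hD
  have hg0 : 0 < g := hpos g hg
  set T : ℝ := ((#D : ℕ) : ℝ) with hT
  by_contra hno
  push Not at hno
  set Al : Finset ℚ := D.filter (fun d => g * d ∉ X) with hAl
  have hcard : T - #X ≤ #Al := by
    have h1 := card_filter_add_card_filter_not (s := D) (fun d => g * d ∈ X)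
    have h2 : #(D.filter (fun d => g * d ∈ X)) ≤ #X := by
      refine card_le_card_of_injOn (fun d => g * d) ?_ ?_
      · intro d hd
        exact (mem_filter.1 (mem_coe.1 hd)).2
      · intro d _ d' _ h
        exact mul_left_cancel₀ hg0.ne' h
    have h3 : #D ≤ #X + #Al := by
      rw [← h1]
      exact Nat.add_le_add_right h2 _
    have h4 : T ≤ #X + #Al := by
      rw [hT]
      exact_mod_cast h3
    linarith
  have hlow : ∀ d ∈ Al, (θ - ε / 2) * (#X : ℝ) ≤ #(X.filter (fun x => Rep e (g * d / x))) := by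
    intro d hd
    exact (hno (g * d) (hmul g hg d (hD d (mem_filter.1 hd).1)) (mem_filter.1 hd).2).le
  -- double counting
  have hsum : ∑ d ∈ Al, (#(X.filter (fun x => Rep e (g * d / x))) : ℝ) ≤
      ∑ x ∈ X, (θ - 3 * ε / 4) * T := by
    have h1 : ∑ d ∈ Al, #(X.filter (fun x => Rep e (g * d / x))) =
        ∑ x ∈ X, #(Al.filter (fun d => Rep e (g * d / x))) := by
      simp only [card_filter]
      exact sum_comm
    have h2 : ∑ d ∈ Al, (#(X.filter (fun x => Rep e (g * d / x))) : ℝ) =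
        ∑ x ∈ X, (#(Al.filter (fun d => Rep e (g * d / x))) : ℝ) := by exact_mod_cast h1
    rw [h2]
    refine sum_le_sum (fun x hx => ?_)
    have hx0 : x ≠ 0 := (hpos x (hX x hx)).ne'
    have h3 : #(Al.filter (fun d => Rep e (g * d / x))) ≤
        #(D.filter (fun d => Rep e (g * d))) + #(D.filter (fun d => d / x ∉ D)) := by
      have h4 : #(Al.filter (fun d => Rep e (g * d / x))) ≤
          #((D.filter (fun d => d / x ∈ D ∧ Rep e (g * d / x))) ∪
          (D.filter (fun d => d / x ∉ D))) := by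
        refine card_le_card (fun d hd => ?_)
        obtain ⟨h5, h6⟩ := mem_filter.1 hd
        rw [mem_union, mem_filter, mem_filter]
        by_cases h7 : d / x ∈ D
        · exact Or.inl ⟨(mem_filter.1 h5).1, h7, h6⟩
        · exact Or.inr ⟨(mem_filter.1 h5).1, h7⟩
      refine h4.trans ((card_union_le _ _).trans (Nat.add_le_add_right ?_ _))
      refine card_le_card_of_injOn (fun d => d / x) ?_ ?_
      · intro d hd
        obtain ⟨h9, h10, h11⟩ := mem_filter.1 (mem_coe.1 hd)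
        refine mem_coe.2 (mem_filter.2 ⟨h10, ?_⟩)
        rw [← mul_div_assoc]
        exact h11
      · intro d _ d' _ h
        exact (div_left_inj' hx0).1 h
    have h4 : (#(Al.filter (fun d => Rep e (g * d / x))) : ℝ) ≤
        #(D.filter (fun d => Rep e (g * d))) + #(D.filter (fun d => d / x ∉ D)) := by
      exact_mod_cast h3
    have h5 := hbox x hx
    linarith
  have hlow2 := sum_le_sum hlow
  rw [sum_const, nsmul_eq_mul] at hlow2
  rw [sum_const, nsmul_eq_mul] at hsum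
  have h6 := hlow2.trans hsum
  rcases Nat.eq_zero_or_pos (#X) with h0 | h0
  · rw [card_eq_zero] at h0
    subst h0
    have := hno 1 h1 (by simp)
    simp at this
  · have hXp : (0 : ℝ) < #X := by exact_mod_cast h0
    have h7 : (#Al : ℝ) * (θ - ε / 2) ≤ (θ - 3 * ε / 4) * T := by
      have : (#X : ℝ) * ((#Al : ℝ) * (θ - ε / 2)) ≤ #X * ((θ - 3 * ε / 4) * T) := by
        calc (#X : ℝ) * ((#Al : ℝ) * (θ - ε / 2)) = #Al * ((θ - ε / 2) * #X) := by ring
          _ ≤ _ := h6
      exact le_of_mul_le_mul_left this hXp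
    have h8 : (T - #X) * (θ - ε / 2) ≤ (θ - 3 * ε / 4) * T :=
      (mul_le_mul_of_nonneg_right hcard (by linarith)).trans h7
    have h9 : ((K + #X + 1 : ℕ) : ℝ) ≤ T := by
      rw [hT]
      exact_mod_cast hKD
    push_cast at h9
    have h10 : (#X : ℝ) ≤ ε / 4 * K := by
      rw [div_le_iff₀ (by positivity)] at hK
      linarith
    have h11 : (#X : ℝ) * (θ - ε / 2) ≤ #X * 1 := mul_le_mul_of_nonneg_left (by linarith) hXp.le
    nlinarith

theorem seq_gam (Γ : Set ℚ) (hpos : ∀ a ∈ Γ, 0 < a) (h1 : (1 : ℚ) ∈ Γ)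
    (hmul : ∀ a ∈ Γ, ∀ b ∈ Γ, a * b ∈ Γ) (hne : ∃ a ∈ Γ, a ≠ 1) (e : ℤ) (θ ε : ℝ) (hε : 0 < ε)
    (hεθ : ε < θ) (hθ : θ ≤ 1)
    (hcon : ∀ F : Finset ℚ, F.Nonempty → (∀ f ∈ F, f ∈ Γ) → ∃ g ∈ Γ,
      (#(F.filter (fun f => Rep e (g * f))) : ℝ) < (θ - ε) * #F) (n : ℕ) :
    ∃ f : ℕ → ℚ, (∀ i < n, f i ∈ Γ) ∧ Set.InjOn f (Set.Iio n) ∧
      ∀ k < n, (#((range k).filter (fun j => Rep e (f k / f j))) : ℝ) ≤ (θ - ε / 2) * k := by
  induction n with
  | zero => exact ⟨fun _ => 1, by simp, by simp, by simp⟩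
  | succ n ih =>
    obtain ⟨f, h1', h2, h3⟩ := ih
    obtain ⟨y, hy0, hyX, hy⟩ := step_gam Γ hpos h1 hmul hne e θ ε hε hεθ hθ hcon ((range n).image f) (by
      intro x hx
      obtain ⟨i, hi, rfl⟩ := mem_image.1 hx
      exact h1' i (mem_range.1 hi))
    have hup : ∀ i, i < n → Function.update f n y i = f i := fun i hi =>
      Function.update_of_ne hi.ne _ _
    refine ⟨Function.update f n y, ?_, ?_, ?_⟩
    · intro i hi
      rcases Nat.lt_succ_iff_lt_or_eq.1 hi with h | rfl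
      · rw [hup i h]
        exact h1' i h
      · simpa using hy0
    · intro i hi j hj hij
      rcases Nat.lt_succ_iff_lt_or_eq.1 (Set.mem_Iio.1 hi) with h | rfl
      · rcases Nat.lt_succ_iff_lt_or_eq.1 (Set.mem_Iio.1 hj) with h' | rfl
        · rw [hup i h, hup j h'] at hij
          exact h2 h h' hij
        · rw [hup i h, Function.update_self] at hij
          exact absurd (mem_image.2 ⟨i, mem_range.2 h, hij⟩) hyX
      · rcases Nat.lt_succ_iff_lt_or_eq.1 (Set.mem_Iio.1 hj) with h' | rfl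
        · rw [hup j h', Function.update_self] at hij
          exact absurd (mem_image.2 ⟨j, mem_range.2 h', hij.symm⟩) hyX
        · rfl
    · intro k hk
      rcases Nat.lt_succ_iff_lt_or_eq.1 hk with h | rfl
      · have : (range k).filter (fun j => Rep e (Function.update f n y k / Function.update f n y j)) =
            (range k).filter (fun j => Rep e (f k / f j)) := by
          refine filter_congr (fun j hj => ?_)
          rw [hup k h, hup j ((mem_range.1 hj).trans h)]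
        rw [this]
        exact h3 k h
      · have h4 : #((range k).filter (fun j => Rep e (Function.update f k y k /
            Function.update f k y j))) ≤ #(((range k).image f).filter (fun x => Rep e (y / x))) := by
          refine card_le_card_of_injOn f ?_ ?_
          · intro j hj
            obtain ⟨h5, h6⟩ := mem_filter.1 (mem_coe.1 hj)
            rw [hup j (mem_range.1 h5), Function.update_self] at h6
            exact mem_coe.2 (mem_filter.2 ⟨mem_image_of_mem _ h5, h6⟩)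
          · intro i hi j hj hij
            exact h2 (mem_range.1 (mem_filter.1 (mem_coe.1 hi)).1)
              (mem_range.1 (mem_filter.1 (mem_coe.1 hj)).1) hij
        have h5 : #((range k).image f) ≤ k := by
          simpa using card_image_le (s := range k) (f := f)
        have h6 : ((#((range k).image f) : ℕ) : ℝ) ≤ k := by exact_mod_cast h5
        have h7 : (#((range k).filter (fun j => Rep e (Function.update f k y k /
            Function.update f k y j))) : ℝ) ≤ #(((range k).image f).filter (fun x => Rep e (y / x))) := by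
          exact_mod_cast h4
        refine h7.trans (hy.trans ?_)
        exact mul_le_mul_of_nonneg_left h6 (by linarith)

theorem gam (θ : ℝ) (hθ : θ ≤ 1) (e : ℤ) (HP : Pairs θ e) (Γ : Set ℚ) (hpos : ∀ a ∈ Γ, 0 < a)
    (hdiv : ∀ a ∈ Γ, ∀ b ∈ Γ, a / b ∈ Γ) (hne : ∃ a ∈ Γ, a ≠ 1) (ε : ℝ) (hε : 0 < ε) :
    ∃ F : Finset ℚ, F.Nonempty ∧ (∀ f ∈ F, f ∈ Γ) ∧ ∀ g ∈ Γ,
      (θ - ε) * #F ≤ (#(F.filter (fun f => Rep e (g * f))) : ℝ) := by
  have h1 : (1 : ℚ) ∈ Γ := by
    obtain ⟨a, ha, _⟩ := hne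
    have := hdiv a ha a ha
    rwa [div_self (hpos a ha).ne'] at this
  have hmul : ∀ a ∈ Γ, ∀ b ∈ Γ, a * b ∈ Γ := by
    intro a ha b hb
    have h2 := hdiv a ha _ (hdiv 1 h1 b hb)
    rwa [one_div, div_inv_eq_mul] at h2
  by_cases hεθ : ε < θ
  swap
  · refine ⟨{1}, singleton_nonempty _, by simpa using h1, fun g _ => ?_⟩
    refine le_trans ?_ (Nat.cast_nonneg _)
    exact mul_nonpos_of_nonpos_of_nonneg (by linarith) (Nat.cast_nonneg _)
  by_contra hcon
  push Not at hcon
  obtain ⟨n₀, hn₀⟩ := HP (ε / 4) (by positivity)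
  set n : ℕ := n₀ + 2 with hn
  obtain ⟨f, hf1', hf2, hf3⟩ := seq_gam Γ hpos h1 hmul hne e θ ε hε hεθ hθ hcon n
  have hf1 : ∀ i < n, 0 < f i := fun i hi => hpos _ (hf1' i hi)
  set M : ℕ := ∏ i ∈ range n, (f i).den with hM
  have hM0 : 0 < M := prod_pos (fun i _ => (f i).den_pos)
  set h : ℕ → ℕ := fun i => (f i).num.toNat * (M / (f i).den) with hh
  have hhf : ∀ i < n, ((h i : ℕ) : ℚ) = f i * M := by
    intro i hi
    have h1 : (f i).den ∣ M := dvd_prod_of_mem (fun i => (f i).den) (mem_range.2 hi)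
    have h2 : (((f i).num.toNat : ℕ) : ℚ) = (f i).num := by
      have : (((f i).num.toNat : ℕ) : ℤ) = (f i).num :=
        Int.toNat_of_nonneg (Rat.num_pos.2 (hf1 i hi)).le
      exact_mod_cast congrArg (fun t : ℤ => (t : ℚ)) this
    have h3 : ((f i).den : ℚ) ≠ 0 := by exact_mod_cast (f i).den_nz
    simp only [hh]
    push_cast
    rw [h2, Nat.cast_div h1 h3]
    conv_rhs => rw [← Rat.num_div_den (f i)]
    ring
  have hhp : ∀ i < n, 0 < h i := by
    intro i hi
    have h1 : (0 : ℚ) < (h i : ℕ) := by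
      rw [hhf i hi]
      exact mul_pos (hf1 i hi) (by exact_mod_cast hM0)
    exact_mod_cast h1
  have hhi : Set.InjOn h (Set.Iio n) := by
    intro i hi j hj hij
    have h1 : ((h i : ℕ) : ℚ) = (h j : ℕ) := by rw [hij]
    rw [hhf i hi, hhf j hj] at h1
    have h2 : (M : ℚ) ≠ 0 := by exact_mod_cast hM0.ne'
    exact hf2 hi hj (mul_right_cancel₀ h2 h1)
  set H : Finset ℕ := (range n).image h with hH
  have hHc : #H = n := by
    rw [hH, card_image_of_injOn (fun i hi j hj hij => hhi (mem_range.1 (mem_coe.1 hi))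
      (mem_range.1 (mem_coe.1 hj)) hij), card_range]
  have h1 := hn₀ H (by
    intro x hx
    obtain ⟨i, hi, rfl⟩ := mem_image.1 hx
    exact hhp i (mem_range.1 hi)) (by omega)
  rw [hHc] at h1
  set P : Finset (ℕ × ℕ) := (range n).biUnion (fun k => ((range k).filter
    (fun j => Rep e (f k / f j))).image (fun j => (j, k))) with hP
  have h2 : #{p ∈ H.offDiag | Rep e ((p.1 : ℚ) / p.2)} ≤ #P + #P := by
    have h2' : #{p ∈ H.offDiag | Rep e ((p.1 : ℚ) / p.2)} ≤
        #(P.image (fun t : ℕ × ℕ => (h t.1, h t.2)) ∪ P.image (fun t : ℕ × ℕ => (h t.2, h t.1))) := by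
      refine card_le_card ?_
      rintro ⟨a, b⟩ hab
      obtain ⟨h3, h7⟩ := mem_filter.1 hab
      obtain ⟨ha, hb, hne⟩ := mem_offDiag.1 h3
      obtain ⟨i, hi, rfl⟩ := mem_image.1 ha
      obtain ⟨j, hj, rfl⟩ := mem_image.1 hb
      rw [mem_range] at hi hj
      have h8 : (h i : ℚ) / h j = f i / f j := by
        rw [hhf i hi, hhf j hj]
        have : (M : ℚ) ≠ 0 := by exact_mod_cast hM0.ne'
        rw [mul_div_mul_right _ _ this]
      simp only at h7
      rw [h8] at h7
      have hij : i ≠ j := fun h => hne (by rw [h])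
      rw [mem_union, mem_image, mem_image]
      rcases lt_or_gt_of_ne hij with hlt | hlt
      · refine Or.inl ⟨(i, j), mem_biUnion.2 ⟨j, mem_range.2 hj, mem_image.2 ⟨i,
          mem_filter.2 ⟨mem_range.2 hlt, ?_⟩, rfl⟩⟩, rfl⟩
        have := Rep_inv h7
        rwa [inv_div] at this
      · exact Or.inr ⟨(j, i), mem_biUnion.2 ⟨i, mem_range.2 hi, mem_image.2 ⟨j,
          mem_filter.2 ⟨mem_range.2 hlt, h7⟩, rfl⟩⟩, rfl⟩
    refine h2'.trans ((card_union_le _ _).trans (Nat.add_le_add card_image_le card_image_le))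
  have h3 : (#P : ℝ) ≤ (θ - ε / 2) * (n.choose 2 : ℝ) := by
    have h4 : #P ≤ ∑ k ∈ range n, #((range k).filter (fun j => Rep e (f k / f j))) :=
      card_biUnion_le.trans (sum_le_sum (fun k _ => card_image_le))
    have h5 : (#P : ℝ) ≤ ∑ k ∈ range n, (#((range k).filter (fun j => Rep e (f k / f j))) : ℝ) := by
      exact_mod_cast h4
    refine h5.trans ((sum_le_sum (fun k hk => hf3 k (mem_range.1 hk))).trans (le_of_eq ?_))
    rw [← mul_sum]
    congr 1
    have h6 : ∑ k ∈ range n, k = n.choose 2 := by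
      rw [sum_range_id, Nat.choose_two_right]
    rw [← h6, Nat.cast_sum]
  have h4 : (#{p ∈ H.offDiag | Rep e ((p.1 : ℚ) / p.2)} : ℝ) ≤ #P + #P := by exact_mod_cast h2
  have h5 : (n.choose 2 : ℝ) = (n : ℝ) * ((n : ℝ) - 1) / 2 := by
    rw [Nat.cast_choose_two]
  rw [h5] at h3
  have hn2 : (2 : ℝ) ≤ n := by
    have : 2 ≤ n := by omega
    exact_mod_cast this
  have h6 : (0 : ℝ) < (n : ℝ) * ((n : ℝ) - 1) := mul_pos (by linarith) (by linarith)
  have h7 : (θ - ε / 4) * ((n : ℝ) * ((n : ℝ) - 1)) ≤ (θ - ε / 2) * ((n : ℝ) * ((n : ℝ) - 1)) := by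
    linarith
  have h8 := le_of_mul_le_mul_right h7 h6
  linarith

end PoolRat
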