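import Pool.Agent.Work.MP_70e905_nt.Q4.Clus
import Pool.Agent.Work.MP_70e905_nt.Q4.StonePairs
import Pool.Agent.Work.MP_70e905_nt.Q4.SubsetAvg
import Pool.Agent.Work.MP_1a023c_nt.Gam

/-!
# Consequences of the cluster theorem with `K + 1` clusters for ratios of shifted primes
-/

namespace PoolRat

open Finset Classical PoolCL PoolQ4

/-- among `K + 1` clusters of `L` positive integers two elements of different clusters have a
represented ratio -/
def CluE (K L : ℕ) (e : ℤ) : Prop :=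
  ∀ h : Fin (K + 1) × Fin L → ℕ, Function.Injective h → (∀ s, 0 < h s) →
    ∃ s t, s.1 ≠ t.1 ∧ Rep e ((h s : ℚ) / h t)

theorem cluE {K : ℕ} (HC : ClusterPlus K) :
    ∃ L : ℕ, 0 < L ∧ ∀ e : ℤ, e = 1 ∨ e = -1 → CluE K L e := by
  obtain ⟨L, D₁, hL, HC⟩ := HC
  refine ⟨L, hL, fun e he h hinj hpos => ?_⟩
  by_contra hcon
  push Not at hcon
  have hX : ∀ s t : Fin (K + 1) × Fin L, ∃ X : ℕ, s.1 ≠ t.1 → ∀ p q : ℕ,
      p.Prime → q.Prime → (h s : ℚ) / h t = ((p : ℚ) + e) / ((q : ℚ) + e) → p ≤ X := by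
    intro s t
    by_cases hst : s.1 ≠ t.1
    · have h1 := hcon s t hst
      unfold Rep at h1
      rw [Set.not_infinite] at h1
      obtain ⟨X, hX⟩ := (h1.image Prod.fst).bddAbove
      exact ⟨X, fun _ p q hp hq hpq => hX ⟨(p, q), ⟨hp, hq, hpq⟩, rfl⟩⟩
    · exact ⟨0, fun h => absurd h hst⟩
  choose X hX using hX
  set T : ℕ := ∑ s, ∑ t, X s t with hT
  have hXT : ∀ s t, X s t ≤ T := fun s t =>
    (single_le_sum (f := fun t => X s t) (fun _ _ => Nat.zero_le _) (mem_univ t)).trans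
      (single_le_sum (f := fun s => ∑ t, X s t) (fun _ _ => Nat.zero_le _) (mem_univ s))
  set W : ℕ := primorial D₁ * ∏ s, h s with hW
  have hWpos : 0 < W := Nat.mul_pos (primorial_pos' D₁) (prod_pos fun s _ => hpos s)
  set A₀ : ℕ := ∑ s, h s with hA₀
  have hA : ∀ s, h s ≤ A₀ := fun s => single_le_sum (fun _ _ => Nat.zero_le _) (mem_univ s)
  obtain ⟨X₀, hX₀⟩ := HC W A₀ (A₀ + 1) hWpos (Dvd.intro _ rfl)
  obtain ⟨z, hz1, hz2, -, i, j, hij, hPi, hPj⟩ := hX₀ (X₀ + T + 1) (W - 1) h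
    (fun i => bb e (h i)) (by omega)
    (fun i => ⟨hpos i, hA i⟩)
    (fun i p _ hd => (hd.trans (dvd_prod_of_mem h (mem_univ i))).trans (Dvd.intro_left _ rfl))
    (fun i => by
      have h4 := bb_le he (h i)
      have h5 := hA i
      have h6 : (A₀ + 1) * 1 ≤ (A₀ + 1) * (X₀ + T + 1) := Nat.mul_le_mul_left _ (by omega)
      omega)
    (fun i => bb_cop he (hpos i) hWpos)
    (fun i j hij hEq => by
      have h3 := bb_cast he (hpos i)
      have h4 := bb_cast he (hpos j)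
      have h5 : ((h i * bb e (h j) : ℕ) : ℤ) = ((h j * bb e (h i) : ℕ) : ℤ) := by
        exact_mod_cast hEq
      rw [Nat.cast_mul, Nat.cast_mul, h3, h4] at h5
      have h6 : (h i : ℤ) = h j := by
        rcases he with rfl | rfl <;> linarith
      exact hij (hinj (by exact_mod_cast h6)))
  have hprc : ∀ i, ((h i * z + bb e (h i) : ℕ) : ℚ) + e = h i * (z + 1) := by
    intro i
    have h1 : ((h i * z + bb e (h i) : ℕ) : ℤ) = h i * z + ((h i : ℤ) - e) := by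
      push_cast
      rw [bb_cast he (hpos i)]
    have h2 : ((h i * z + bb e (h i) : ℕ) : ℚ) = h i * z + ((h i : ℚ) - e) := by
      exact_mod_cast congrArg (fun t : ℤ => (t : ℚ)) h1
    rw [h2]
    ring
  have h7 := hX i j hij _ _ hPi hPj (by
    rw [hprc, hprc]
    have : ((z : ℚ) + 1) ≠ 0 := by positivity
    rw [mul_div_mul_right _ _ this])
  have h8 : 1 * z ≤ h i * z := Nat.mul_le_mul_right _ (hpos i)
  have h9 := hXT i j
  omega

theorem pairs_of_cluE (K L : ℕ) (hK : 1 ≤ K) (e : ℤ) (HC : CluE K L e) : Pairs (1 / (K : ℝ)) e := by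
  intro ε hε
  obtain ⟨m₀, hm₀, hst⟩ := stonePairs K L hK (half_pos hε)
  refine ⟨⌈2 * (m₀ : ℝ) ^ 2 / ε⌉₊ + 2, fun S hS hcard => ?_⟩
  have hN2 : (2 : ℝ) ≤ (#S : ℝ) := by
    have : 2 ≤ #S := by omega
    exact_mod_cast this
  have hNN : 0 ≤ (#S : ℝ) * ((#S : ℝ) - 1) := mul_nonneg (by linarith) (by linarith)
  rcases le_or_gt (1 / (K : ℝ) - ε) 0 with hneg | hposc
  · exact (mul_nonpos_of_nonpos_of_nonneg hneg hNN).trans (Nat.cast_nonneg _)
  have hc0 : 0 ≤ 1 / (K : ℝ) - ε / 2 := by linarith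
  have hK1 : 1 / (K : ℝ) ≤ 1 := by
    rw [div_le_one (by exact_mod_cast hK)]
    exact_mod_cast hK
  have key := subsetAvg S m₀ hm₀ (fun a b => Rep e ((a : ℚ) / b)) (fun _ _ => False)
    (1 / (K : ℝ) - ε / 2) hc0 ?_
  · have h0 : (#{p ∈ S.offDiag | False} : ℝ) = 0 := by simp
    simp only [h0, zero_add, mul_one] at key
    have h1 : 2 * (m₀ : ℝ) ^ 2 / ε ≤ (#S : ℝ) := by
      refine (Nat.le_ceil _).trans ?_
      have : ⌈2 * (m₀ : ℝ) ^ 2 / ε⌉₊ ≤ #S := by omega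
      exact_mod_cast this
    rw [div_le_iff₀ hε] at h1
    have h2 : (#S : ℝ) ≤ (#S : ℝ) * ((#S : ℝ) - 1) := by nlinarith
    have h3 : (m₀ : ℝ) ^ 2 ≤ ε / 2 * ((#S : ℝ) * ((#S : ℝ) - 1)) := by nlinarith
    have h4 : (1 / (K : ℝ) - ε / 2) * (m₀ : ℝ) ^ 2 ≤ 1 * (m₀ : ℝ) ^ 2 :=
      mul_le_mul_of_nonneg_right (by linarith) (by positivity)
    refine le_trans ?_ key
    nlinarith
  · intro A hAS hA _
    exact hst A (fun a b => Rep e ((a : ℚ) / b)) (fun a b h => by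
      have := Rep_inv h
      rwa [inv_div] at this) hA fun h hinj hmem =>
      HC h hinj fun s => hS _ (hAS (hmem s))

end PoolRat
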