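import Pool.Agent.Work.MP_70e905_nt.Flat.FlatV
import Pool.Agent.Work.MP_70e905_nt.Sim.Simul
import Pool.Agent.Work.MP_70e905_nt.Sim.Hits
import Pool.Agent.Work.MP_1a023c_nt.CluE

/-!
# Common powers, with simultaneous hits

For `k` positive rationals `r i` and signs `e i` a proportion `1 / KK k = 3 / (2 * 4 ^ k + 1)` of the exponents
`j` is such that all `r i ^ j` are represented.
-/

namespace PoolRat

open Finset Classical PoolCL PoolQ4 PoolFlat PoolSim

theorem Rep_one'' (e : ℤ) (he : e = 1 ∨ e = -1) : Rep e 1 := by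
  unfold Rep
  refine (Nat.infinite_setOfPred_prime.image (f := fun p : ℕ => (p, p)) ?_).mono ?_
  · intro p _ q _ h
    exact congrArg Prod.fst h
  · rintro _ ⟨p, hp, rfl⟩
    refine ⟨hp, hp, ?_⟩
    have h1 : (2 : ℚ) ≤ p := by exact_mod_cast (Nat.Prime.two_le hp)
    have h2 : ((p : ℚ) + e) ≠ 0 := by
      rcases he with rfl | rfl
      · push_cast; linarith
      · push_cast; linarith
    exact (div_self h2).symm

/-- among `N` clusters of `L` positive integers more than `N / 4` have pairwise represented ratios -/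
def HitE (N L : ℕ) (e : ℤ) : Prop :=
  ∀ h : Fin N × Fin L → ℕ, Function.Injective h → (∀ s, 0 < h s) →
    ∃ T : Finset (Fin N), N < 4 * #T ∧
      ∀ c ∈ T, ∀ c' ∈ T, c ≠ c' → ∃ l l', Rep e ((h (c, l) : ℚ) / h (c', l'))

theorem hitE (N : ℕ) (hN : 1 ≤ N) (p : ℝ) (hp : 1 / 4 < p) (HC : ClusterP N p) :
    ∃ L : ℕ, 0 < L ∧ ∀ e : ℤ, e = 1 ∨ e = -1 → HitE N L e := by
  obtain ⟨L, D₁, hL, HC⟩ := hits N hN p hp HC
  refine ⟨L, hL, fun e he h hinj hpos => ?_⟩
  have hX : ∀ s t : Fin N × Fin L, ∃ X : ℕ, ¬ Rep e ((h s : ℚ) / h t) → ∀ p q : ℕ,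
      p.Prime → q.Prime → (h s : ℚ) / h t = ((p : ℚ) + e) / ((q : ℚ) + e) → p ≤ X := by
    intro s t
    by_cases hst : ¬ Rep e ((h s : ℚ) / h t)
    · have h1 := hst
      unfold Rep at h1
      rw [Set.not_infinite] at h1
      obtain ⟨X, hX⟩ := (h1.image Prod.fst).bddAbove
      exact ⟨X, fun _ p q hp hq hpq => hX ⟨(p, q), ⟨hp, hq, hpq⟩, rfl⟩⟩
    · exact ⟨0, fun h => absurd h hst⟩
  choose X hX using hX
  set T₀ : ℕ := ∑ s, ∑ t, X s t with hT₀
  have hXT : ∀ s t, X s t ≤ T₀ := fun s t =>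
    (single_le_sum (f := fun t => X s t) (fun _ _ => Nat.zero_le _) (mem_univ t)).trans
      (single_le_sum (f := fun s => ∑ t, X s t) (fun _ _ => Nat.zero_le _) (mem_univ s))
  set W : ℕ := primorial D₁ * ∏ s, h s with hW
  have hWpos : 0 < W := Nat.mul_pos (primorial_pos' D₁) (prod_pos fun s _ => hpos s)
  set A₀ : ℕ := ∑ s, h s with hA₀
  have hA : ∀ s, h s ≤ A₀ := fun s => single_le_sum (fun _ _ => Nat.zero_le _) (mem_univ s)
  obtain ⟨X₀, hX₀⟩ := HC W A₀ (A₀ + 1) hWpos (Dvd.intro _ rfl)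
  obtain ⟨z, hz1, hz2, -, T, hT1, hT2⟩ := hX₀ (X₀ + T₀ + 1) (W - 1) h
    (fun i => bb e (h i)) (by omega)
    (fun i => ⟨hpos i, hA i⟩)
    (fun i p _ hd => (hd.trans (dvd_prod_of_mem h (mem_univ i))).trans (Dvd.intro_left _ rfl))
    (fun i => by
      have h4 := bb_le he (h i)
      have h5 := hA i
      have h6 : (A₀ + 1) * 1 ≤ (A₀ + 1) * (X₀ + T₀ + 1) := Nat.mul_le_mul_left _ (by omega)
      omega)
    (fun i => bb_cop he (hpos i) hWpos)
    (fun i j hij hEq => by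
      have h3 := bb_cast he (hpos i)
      have h4 := bb_cast he (hpos j)
      have h5 : ((h i * bb e (h j) : ℕ) : ℤ) = ((h j * bb e (h i) : ℕ) : ℤ) := by
        exact_mod_cast hEq
      rw [Nat.cast_mul, Nat.cast_mul, h3, h4] at h5
      have h6 : (h i : ℤ) = h j := by
        rcases he with rfl | rfl <;> linarith
      exact hij (hinj (by exact_mod_cast h6)))
  have hprc : ∀ i, ((h i * z + bb e (h i) : ℕ) : ℚ) + e = h i * (z + 1) := by
    intro i
    have h1 : ((h i * z + bb e (h i) : ℕ) : ℤ) = h i * z + ((h i : ℤ) - e) := by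
      push_cast
      rw [bb_cast he (hpos i)]
    have h2 : ((h i * z + bb e (h i) : ℕ) : ℚ) = h i * z + ((h i : ℚ) - e) := by
      exact_mod_cast congrArg (fun t : ℤ => (t : ℚ)) h1
    rw [h2]
    ring
  refine ⟨T, hT1, fun c hc c' hc' _ => ?_⟩
  obtain ⟨l, hl⟩ := hT2 c hc
  obtain ⟨l', hl'⟩ := hT2 c' hc'
  refine ⟨l, l', ?_⟩
  by_contra hcon
  have h7 := hX (c, l) (c', l') hcon _ _ hl hl' (by
    rw [hprc, hprc]
    have : ((z : ℚ) + 1) ≠ 0 := by positivity
    rw [mul_div_mul_right _ _ this])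
  have h8 : 1 * z ≤ h (c, l) * z := Nat.mul_le_mul_right _ (hpos _)
  have h9 := hXT (c, l) (c', l')
  omega

/-- the powers of one rational -/
theorem hitS_pow {N L : ℕ} (hN : 1 ≤ N) (hL : 1 ≤ L) {e : ℤ} (he : e = 1 ∨ e = -1) (HC : HitE N L e)
    (r : ℚ) (hr : 0 < r) (A : Set ℕ) : HitS A N L (fun a b => Rep e (r ^ Nat.dist a b)) := by
  intro h hinj _
  by_cases hr1 : r = 1
  · refine ⟨univ, ?_, fun c _ c' _ _ => ⟨⟨0, hL⟩, ⟨0, hL⟩, ?_⟩⟩
    · rw [card_univ, Fintype.card_fin]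
      omega
    · simp only [hr1, one_pow]
      exact Rep_one'' e he
  set J : ℕ := ∑ s, h s with hJ
  have hg : ∀ s, h s ≤ J := fun s => single_le_sum (fun _ _ => Nat.zero_le _) (mem_univ s)
  set α : ℕ := r.num.natAbs with hα
  set β : ℕ := r.den with hβ
  have hαpos : 0 < α := Int.natAbs_pos.2 (Rat.num_pos.2 hr).ne'
  have hβpos : 0 < β := r.den_pos
  have hrr : r = (α : ℚ) / β := by
    have h1 : ((α : ℕ) : ℚ) = (r.num : ℚ) := by
      rw [hα, ← Int.cast_natCast, Int.natAbs_of_nonneg (Rat.num_pos.2 hr).le]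
    rw [h1, hβ]
    exact (Rat.num_div_den r).symm
  set f : Fin N × Fin L → ℕ := fun s => α ^ h s * β ^ (J - h s) with hf
  have hfpos : ∀ s, 0 < f s := fun s => Nat.mul_pos (pow_pos hαpos _) (pow_pos hβpos _)
  have hrat : ∀ s t, h t ≤ h s → (f s : ℚ) / f t = r ^ (h s - h t) := by
    intro s t hst
    obtain ⟨d, hd⟩ : ∃ d, h s = h t + d := ⟨h s - h t, by omega⟩
    have hsJ := hg s
    have e1 : J - h t = (J - h s) + d := by omega
    have e2 : h s - h t = d := by omega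
    have hα' : (α : ℚ) ≠ 0 := by exact_mod_cast hαpos.ne'
    have hβ' : (β : ℚ) ≠ 0 := by exact_mod_cast hβpos.ne'
    rw [e2, hrr, hf]
    simp only
    push_cast
    rw [e1, hd, pow_add, pow_add, div_pow]
    field_simp
  have hfinj : Function.Injective f := by
    intro s t hst
    by_contra hne
    have hgne : h s ≠ h t := fun h => hne (hinj h)
    have key : ∀ s t, h t < h s → f s = f t → False := by
      intro s t hlt heq
      have h1 := hrat s t hlt.le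
      rw [heq, div_self (by exact_mod_cast (hfpos t).ne')] at h1
      have h2 : r ^ (h s - h t) = 1 := h1.symm
      have h3 : h s - h t ≠ 0 := by omega
      exact hr1 ((pow_eq_one_iff_of_nonneg hr.le h3).1 h2)
    rcases lt_or_gt_of_ne hgne with h | h
    · exact key t s h hst.symm
    · exact key s t h hst
  obtain ⟨T, hT1, hT2⟩ := HC f hfinj hfpos
  refine ⟨T, hT1, fun c hc c' hc' hcc => ?_⟩
  obtain ⟨l, l', hgood⟩ := hT2 c hc c' hc' hcc
  refine ⟨l, l', ?_⟩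
  simp only
  rcases le_total (h (c', l')) (h (c, l)) with h' | h'
  · rw [Nat.dist_eq_sub_of_le_right h', ← hrat _ _ h']
    exact hgood
  · rw [Nat.dist_eq_sub_of_le h', ← hrat _ _ h']
    have := Rep_inv hgood
    rwa [inv_div] at this

theorem common_sim (HC : ∀ N : ℕ, 1 ≤ N → ∃ p : ℝ, 1 / 4 < p ∧ ClusterP N p) (k : ℕ)
    (ε : ℝ) (hε : 0 < ε) :
    ∃ J₀ : ℕ, ∀ (r : Fin k → ℚ) (e : Fin k → ℤ), (∀ i, 0 < r i) → (∀ i, e i = 1 ∨ e i = -1) →
      ∀ J : ℕ, J₀ ≤ J →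
        (1 / (KK k : ℝ) - ε) * J ≤ (#{j ∈ Icc 1 J | ∀ i, Rep (e i) (r i ^ j)} : ℝ) := by
  have hN : ∀ N : ℕ, ∃ L : ℕ, 1 ≤ N → 0 < L ∧ ∀ e : ℤ, e = 1 ∨ e = -1 → HitE N L e := by
    intro N
    by_cases h : 1 ≤ N
    · obtain ⟨p, hp, hC⟩ := HC N h
      obtain ⟨L, h1, h2⟩ := hitE N h p hp hC
      exact ⟨L, fun _ => ⟨h1, h2⟩⟩
    · exact ⟨0, fun h' => absurd h' h⟩
  choose Lf hLf using hN
  obtain ⟨L', hsim⟩ := simul k Lf
  obtain ⟨J₀, hJ₀⟩ := flat_v (KK k) L' 1 (KK_pos k) le_rfl ε hε 0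
  refine ⟨J₀, fun r e hr he J hJ => ?_⟩
  set P : ℕ → Prop := fun j => ∀ i, Rep (e i) (r i ^ j) with hP
  have hclu : CluF (KK k) L' 0 1 1 J P := by
    intro v g hinj _ _ _
    exact hsim Set.univ (fun i a b => Rep (e i) (r i ^ Nat.dist a b))
      (fun i N hN1 _ => hitS_pow hN1 (hLf N hN1).1 (he i) ((hLf N hN1).2 (e i) (he i)) (r i) (hr i) _)
      g hinj (fun _ => Set.mem_univ _)
  have h1 := hJ₀ J 1 0 hJ P hclu
  have hwv : ∀ n v m, wv 0 n v m = 1 := by
    intro n v m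
    have h0 : primorial 0 = 1 := by
      unfold primorial
      rw [prod_eq_one]
      intro p hp
      rw [mem_filter, mem_range] at hp
      have h1 : p = 0 := by omega
      rw [h1] at hp
      exact absurd hp.2 (by norm_num)
    unfold wv
    rw [h0]
    simp
  simp only [hwv, Nat.cast_one, sum_const, nsmul_eq_mul, mul_one, Nat.card_Icc,
    Nat.add_sub_cancel] at h1
  exact h1

end PoolRat
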