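import Mathlib

/-!
# Trees in a group of positive rationals with ratios in thick sets
-/

namespace PoolRat

open Finset

theorem thick_gam (Γ : Set ℚ) (hpos : ∀ a ∈ Γ, 0 < a) (hmul : ∀ a ∈ Γ, ∀ b ∈ Γ, a * b ∈ Γ)
    (hdiv : ∀ a ∈ Γ, ∀ b ∈ Γ, a / b ∈ Γ) (hne : ∃ a ∈ Γ, a ≠ 1)
    (T : ℚ → Prop) (hsymm : ∀ r, T r → T r⁻¹)
    (hT : ∀ F : Finset ℚ, F.Nonempty → (∀ f ∈ F, f ∈ Γ) → ∃ g ∈ Γ, ∀ f ∈ F, T (g * f))
    (F : Finset ℚ) (hF : ∀ f ∈ F, f ∈ Γ) (hFi : ∀ f ∈ F, f⁻¹ ∈ F) :
    ∀ K : ℕ, ∃ y : Fin K → ℚ, (∀ i, y i ∈ Γ) ∧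
      ∀ i j, i ≠ j → ∀ f ∈ F, T (y i / y j * f) ∧ y i / y j * f ≠ 1 := by
  classical
  intro K
  obtain ⟨a, ha, ha1⟩ := hne
  have ha0 : 0 < a := hpos a ha
  have h1Γ : (1 : ℚ) ∈ Γ := by
    have := hdiv a ha a ha
    rwa [div_self ha0.ne'] at this
  have hpow : ∀ m : ℕ, a ^ m ∈ Γ := by
    intro m
    induction m with
    | zero => simpa using h1Γ
    | succ m ih =>
      rw [pow_succ]
      exact hmul _ ih _ ha
  induction K with
  | zero => exact ⟨fun i => i.elim0, fun i => i.elim0, fun i => i.elim0⟩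
  | succ K ih =>
    obtain ⟨y, hy1, hy2⟩ := ih
    set G : Finset ℚ := (F ×ˢ (univ : Finset (Fin K))).image (fun t => t.1 / y t.2) with hG
    have hGΓ : ∀ x ∈ G, x ∈ Γ := by
      intro x hx
      obtain ⟨t, ht, rfl⟩ := mem_image.1 hx
      exact hdiv _ (hF _ (mem_product.1 ht).1) _ (hy1 _)
    set A : Finset ℚ := G.image (fun x => x⁻¹) with hA
    set G' : Finset ℚ := insert 1 ((G ×ˢ range (#A + 1)).image (fun t => t.1 * a ^ t.2)) with hG'
    obtain ⟨g, hg, hgT⟩ := hT G' ⟨1, mem_insert_self _ _⟩ (by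
      intro x hx
      rcases mem_insert.1 hx with rfl | hx
      · exact h1Γ
      · obtain ⟨t, ht, rfl⟩ := mem_image.1 hx
        exact hmul _ (hGΓ _ (mem_product.1 ht).1) _ (hpow _))
    have hg0 : 0 < g := hpos g hg
    obtain ⟨s, hs, hsA⟩ : ∃ s ∈ range (#A + 1), g * a ^ s ∉ A := by
      by_contra hcon
      push Not at hcon
      have h1 : #((range (#A + 1)).image (fun s : ℕ => g * a ^ s)) ≤ #A :=
        card_le_card (fun x hx => by
          obtain ⟨s, hs, rfl⟩ := mem_image.1 hx
          exact hcon s hs)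
      rw [card_image_of_injective, card_range] at h1
      · omega
      · intro u v huv
        have h3 := mul_left_cancel₀ hg0.ne' huv
        exact pow_right_injective₀ ha0 ha1 h3
    set w : ℚ := g * a ^ s with hw
    have hwΓ : w ∈ Γ := hmul _ hg _ (hpow _)
    have key : ∀ i : Fin K, ∀ f ∈ F, T (w / y i * f) ∧ w / y i * f ≠ 1 := by
      intro i f hf
      have h1 : f / y i ∈ G := mem_image.2 ⟨(f, i), mem_product.2 ⟨hf, mem_univ _⟩, rfl⟩
      have e1 : w / y i * f = w * (f / y i) := by ring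
      constructor
      · have h3 := hgT (f / y i * a ^ s) (mem_insert_of_mem (mem_image.2 ⟨(f / y i, s),
          mem_product.2 ⟨h1, hs⟩, rfl⟩))
        have e2 : g * (f / y i * a ^ s) = w / y i * f := by
          rw [e1, hw]
          ring
        rwa [e2] at h3
      · intro h2
        rw [e1] at h2
        have h3 : w = (f / y i)⁻¹ := eq_inv_of_mul_eq_one_left h2
        exact hsA (mem_image.2 ⟨_, h1, h3.symm⟩)
    refine ⟨Fin.snoc (α := fun _ => ℚ) y w, ?_, ?_⟩
    · intro i
      induction i using Fin.lastCases with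
      | last => simpa using hwΓ
      | cast i => simpa using hy1 i
    · intro i j hij f hf
      induction j using Fin.lastCases with
      | last =>
        induction i using Fin.lastCases with
        | last => exact absurd rfl hij
        | cast i =>
          simp only [Fin.snoc_last, Fin.snoc_castSucc]
          obtain ⟨h1, h2⟩ := key i f⁻¹ (hFi f hf)
          have e1 : (w / y i * f⁻¹)⁻¹ = y i / w * f := by
            rw [mul_inv, inv_div, inv_inv]
          constructor
          · have := hsymm _ h1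
            rwa [e1] at this
          · intro h3
            rw [← e1] at h3
            exact h2 (inv_eq_one.1 h3)
      | cast j =>
        induction i using Fin.lastCases with
        | last =>
          simp only [Fin.snoc_last, Fin.snoc_castSucc]
          exact key j f hf
        | cast i =>
          simp only [Fin.snoc_castSucc]
          exact hy2 i j (fun h => hij (by rw [h])) f hf

/-- leaves of a tree: the ratio of two leaves which branch at level `j` is in `T j` -/
theorem tree_gam (Γ : Set ℚ) (hpos : ∀ a ∈ Γ, 0 < a) (hmul : ∀ a ∈ Γ, ∀ b ∈ Γ, a * b ∈ Γ)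
    (hdiv : ∀ a ∈ Γ, ∀ b ∈ Γ, a / b ∈ Γ) (hne : ∃ a ∈ Γ, a ≠ 1)
    (T : ℕ → ℚ → Prop) (hsymm : ∀ j r, T j r → T j r⁻¹) (K L : ℕ) (n : ℕ)
    (hT : ∀ j < n, ∀ F : Finset ℚ, F.Nonempty → (∀ f ∈ F, f ∈ Γ) → ∃ g ∈ Γ, ∀ f ∈ F, T j (g * f)) :
    ∃ h : (Fin n → Fin K) → Fin L → ℚ, (∀ t l, h t l ∈ Γ) ∧ (∀ t, Function.Injective (h t)) ∧
      ∀ (t t' : Fin n → Fin K) (j : Fin n), t j ≠ t' j → (∀ i, j < i → t i = t' i) →
        ∀ l l', T j (h t l / h t' l') ∧ h t l ≠ h t' l' := by
  classical
  induction n with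
  | zero =>
    obtain ⟨a, ha, ha1⟩ := hne
    have ha0 : 0 < a := hpos a ha
    have h1Γ : (1 : ℚ) ∈ Γ := by
      have := hdiv a ha a ha
      rwa [div_self ha0.ne'] at this
    have hpow : ∀ m : ℕ, a ^ m ∈ Γ := by
      intro m
      induction m with
      | zero => simpa using h1Γ
      | succ m ih =>
        rw [pow_succ]
        exact hmul _ ih _ ha
    refine ⟨fun _ l => a ^ (l : ℕ), fun _ l => hpow _, fun _ l l' hl => ?_, fun _ _ j => j.elim0⟩
    exact Fin.ext (pow_right_injective₀ ha0 ha1 hl)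
  | succ n ih =>
    obtain ⟨h, h1, h2, h3⟩ := ih (fun j hj => hT j (hj.trans (Nat.lt_succ_self n)))
    have h1p : ∀ t l, 0 < h t l := fun t l => hpos _ (h1 t l)
    set F : Finset ℚ := (univ : Finset (((Fin n → Fin K) × Fin L) × ((Fin n → Fin K) × Fin L))).image
      (fun s => h s.1.1 s.1.2 / h s.2.1 s.2.2) with hF
    obtain ⟨y, hy1, hy2⟩ := thick_gam Γ hpos hmul hdiv hne (T n) (hsymm n) (hT n (Nat.lt_succ_self n)) F (by
      intro f hf
      obtain ⟨s, _, rfl⟩ := mem_image.1 hf
      exact hdiv _ (h1 _ _) _ (h1 _ _)) (by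
      intro f hf
      obtain ⟨s, _, rfl⟩ := mem_image.1 hf
      exact mem_image.2 ⟨(s.2, s.1), mem_univ _, by rw [inv_div]⟩) K
    have hy1p : ∀ i, 0 < y i := fun i => hpos _ (hy1 i)
    refine ⟨fun t l => y (t (Fin.last n)) * h (Fin.init t) l, ?_, ?_, ?_⟩
    · intro t l
      exact hmul _ (hy1 _) _ (h1 _ _)
    · intro t l l' hl
      exact h2 _ (mul_left_cancel₀ (hy1p _).ne' hl)
    · intro t t' j hj hji l l'
      induction j using Fin.lastCases with
      | last =>
        have hf : h (Fin.init t) l / h (Fin.init t') l' ∈ F :=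
          mem_image.2 ⟨((Fin.init t, l), (Fin.init t', l')), mem_univ _, rfl⟩
        obtain ⟨h4, h5⟩ := hy2 _ _ hj _ hf
        have e1 : y (t (Fin.last n)) * h (Fin.init t) l / (y (t' (Fin.last n)) * h (Fin.init t') l') =
            y (t (Fin.last n)) / y (t' (Fin.last n)) * (h (Fin.init t) l / h (Fin.init t') l') :=
          mul_div_mul_comm _ _ _ _
        refine ⟨?_, fun h6 => h5 ?_⟩
        · simp only [Fin.val_last]
          rw [e1]
          exact h4
        · simp only at h6
          rw [← e1, h6]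
          exact div_self (mul_pos (hy1p _) (h1p _ _)).ne'
      | cast j =>
        have hl : t (Fin.last n) = t' (Fin.last n) := hji _ (Fin.castSucc_lt_last j)
        have h4 := h3 (Fin.init t) (Fin.init t') j hj (fun i hi => by
          have := hji i.castSucc (Fin.castSucc_lt_castSucc_iff.2 hi)
          exact this) l l'
        have hy0 := (hy1p (t' (Fin.last n))).ne'
        refine ⟨?_, fun h6 => h4.2 ?_⟩
        · simp only [Fin.val_castSucc]
          rw [hl, mul_div_mul_left _ _ hy0]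
          exact h4.1
        · simp only [hl] at h6
          exact mul_left_cancel₀ hy0 h6

end PoolRat
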