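import Pool.Agent.Work.MP_1a023c_nt.CluE

/-!
# Pairs of an arbitrary set of positive integers, with the cluster theorem with `K + 1` clusters
-/

namespace PoolRat

open Finset Classical PoolCL PoolQ4

/-- `a n - e` is prime -/
def Pr (e : ℤ) (a n : ℕ) : Prop := ∃ p : ℕ, p.Prime ∧ (p : ℤ) = (a : ℤ) * n - e

/-- among `K + 1` clusters of `L` positive integers there are `a, b` in different clusters with `a n - e` and
`b n - e` prime for infinitely many `n` -/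
def CluT (K L : ℕ) (e : ℤ) : Prop :=
  ∀ h : Fin (K + 1) × Fin L → ℕ, Function.Injective h → (∀ s, 0 < h s) →
    ∃ s t, s.1 ≠ t.1 ∧ {n : ℕ | Pr e (h s) n ∧ Pr e (h t) n}.Infinite

theorem cluT {K : ℕ} (HC : ClusterPlus K) :
    ∃ L : ℕ, 0 < L ∧ ∀ e : ℤ, e = 1 ∨ e = -1 → CluT K L e := by
  obtain ⟨L, D₁, hL, HC⟩ := HC
  refine ⟨L, hL, fun e he h hinj hpos => ?_⟩
  by_contra hcon
  push Not at hcon
  have hX : ∀ s t : Fin (K + 1) × Fin L, ∃ X : ℕ, s.1 ≠ t.1 → ∀ n : ℕ,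
      Pr e (h s) n → Pr e (h t) n → n ≤ X := by
    intro s t
    by_cases hst : s.1 ≠ t.1
    · have h1 := hcon s t hst
      obtain ⟨X, hX⟩ := h1.bddAbove
      exact ⟨X, fun _ n hn hn' => hX ⟨hn, hn'⟩⟩
    · exact ⟨0, fun h => absurd h hst⟩
  choose X hX using hX
  set T : ℕ := ∑ s, ∑ t, X s t with hT
  have hXT : ∀ s t, X s t ≤ T := fun s t =>
    (single_le_sum (f := fun t => X s t) (fun _ _ => Nat.zero_le _) (mem_univ t)).trans
      (single_le_sum (f := fun s => ∑ t, X s t) (fun _ _ => Nat.zero_le _) (mem_univ s))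
  set W : ℕ := primorial D₁ * ∏ s, h s with hW
  have hWpos : 0 < W := Nat.mul_pos (primorial_pos' D₁) (prod_pos fun s _ => hpos s)
  set A₀ : ℕ := ∑ s, h s with hA₀
  have hA : ∀ s, h s ≤ A₀ := fun s => single_le_sum (fun _ _ => Nat.zero_le _) (mem_univ s)
  obtain ⟨X₀, hX₀⟩ := HC W A₀ (A₀ + 1) hWpos (Dvd.intro _ rfl)
  obtain ⟨z, hz1, hz2, -, i, j, hij, hPi, hPj⟩ := hX₀ (X₀ + T + 1) (W - 1) h
    (fun i => bb e (h i)) (by omega)
    (fun i => ⟨hpos i, hA i⟩)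
    (fun i p _ hd => (hd.trans (dvd_prod_of_mem h (mem_univ i))).trans (Dvd.intro_left _ rfl))
    (fun i => by
      have h4 := bb_le he (h i)
      have h5 := hA i
      have h6 : (A₀ + 1) * 1 ≤ (A₀ + 1) * (X₀ + T + 1) := Nat.mul_le_mul_left _ (by omega)
      omega)
    (fun i => bb_cop he (hpos i) hWpos)
    (fun i j hij hEq => by
      have h3 := bb_cast he (hpos i)
      have h4 := bb_cast he (hpos j)
      have h5 : ((h i * bb e (h j) : ℕ) : ℤ) = ((h j * bb e (h i) : ℕ) : ℤ) := by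
        exact_mod_cast hEq
      rw [Nat.cast_mul, Nat.cast_mul, h3, h4] at h5
      have h6 : (h i : ℤ) = h j := by
        rcases he with rfl | rfl <;> linarith
      exact hij (hinj (by exact_mod_cast h6)))
  have hprc : ∀ i, ((h i * z + bb e (h i) : ℕ) : ℤ) = h i * ((z + 1 : ℕ) : ℤ) - e := by
    intro i
    push_cast
    rw [bb_cast he (hpos i)]
    ring
  have h7 := hX i j hij (z + 1) ⟨_, hPi, hprc i⟩ ⟨_, hPj, hprc j⟩
  have h9 := hXT i j
  omega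

theorem pairs_of_cluT (K L : ℕ) (hK : 1 ≤ K) (HC : ∀ e : ℤ, e = 1 ∨ e = -1 → CluT K L e)
    (ε : ℝ) (hε : 0 < ε) : ∃ n₀ : ℕ, ∀ e : ℤ, e = 1 ∨ e = -1 →
    ∀ S : Finset ℕ, (∀ a ∈ S, 0 < a) → n₀ ≤ #S →
      (1 / (K : ℝ) - ε) * ((#S : ℝ) * ((#S : ℝ) - 1)) ≤
        (#{p ∈ S.offDiag | {n : ℕ | Pr e p.1 n ∧ Pr e p.2 n}.Infinite} : ℝ) := by
  obtain ⟨m₀, hm₀, hst⟩ := stonePairs K L hK (half_pos hε)
  refine ⟨⌈2 * (m₀ : ℝ) ^ 2 / ε⌉₊ + 2, fun e he S hS hcard => ?_⟩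
  have hN2 : (2 : ℝ) ≤ (#S : ℝ) := by
    have : 2 ≤ #S := by omega
    exact_mod_cast this
  have hNN : 0 ≤ (#S : ℝ) * ((#S : ℝ) - 1) := mul_nonneg (by linarith) (by linarith)
  rcases le_or_gt (1 / (K : ℝ) - ε) 0 with hneg | hposc
  · exact (mul_nonpos_of_nonpos_of_nonneg hneg hNN).trans (Nat.cast_nonneg _)
  have hc0 : 0 ≤ 1 / (K : ℝ) - ε / 2 := by linarith
  have hK1 : 1 / (K : ℝ) ≤ 1 := by
    rw [div_le_one (by exact_mod_cast hK)]
    exact_mod_cast hK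
  have key := subsetAvg S m₀ hm₀ (fun a b => {n : ℕ | Pr e a n ∧ Pr e b n}.Infinite)
    (fun _ _ => False) (1 / (K : ℝ) - ε / 2) hc0 ?_
  · have h0 : (#{p ∈ S.offDiag | False} : ℝ) = 0 := by simp
    simp only [h0, zero_add, mul_one] at key
    have h1 : 2 * (m₀ : ℝ) ^ 2 / ε ≤ (#S : ℝ) := by
      refine (Nat.le_ceil _).trans ?_
      have : ⌈2 * (m₀ : ℝ) ^ 2 / ε⌉₊ ≤ #S := by omega
      exact_mod_cast this
    rw [div_le_iff₀ hε] at h1
    have h2 : (#S : ℝ) ≤ (#S : ℝ) * ((#S : ℝ) - 1) := by nlinarith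
    have h3 : (m₀ : ℝ) ^ 2 ≤ ε / 2 * ((#S : ℝ) * ((#S : ℝ) - 1)) := by nlinarith
    have h4 : (1 / (K : ℝ) - ε / 2) * (m₀ : ℝ) ^ 2 ≤ 1 * (m₀ : ℝ) ^ 2 :=
      mul_le_mul_of_nonneg_right (by linarith) (by positivity)
    refine le_trans ?_ key
    nlinarith
  · intro A hAS hA _
    exact hst A (fun a b => {n : ℕ | Pr e a n ∧ Pr e b n}.Infinite) (fun a b h => by
      refine h.mono ?_
      rintro n ⟨h1, h2⟩
      exact ⟨h2, h1⟩) hA fun h hinj hmem =>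
      HC e he h hinj fun s => hS _ (hAS (hmem s))

theorem subpairs (K L : ℕ) (hK : 1 ≤ K) (HC : ∀ e : ℤ, e = 1 ∨ e = -1 → CluT K L e)
    (ε : ℝ) (hε : 0 < ε) : ∃ n₀ : ℕ, ∀ e : ℤ, e = 1 ∨ e = -1 →
    ∀ A : Finset ℕ, (∀ a ∈ A, 0 < a) → n₀ ≤ #A →
      (1 / (K : ℝ) - ε) * ((#A).choose 2 : ℝ) ≤
        (#{S ∈ A.powersetCard 2 | {n : ℕ |
          ∀ a : ℕ, a ∈ S → ∃ p : ℕ, p.Prime ∧ (p : ℤ) = (a : ℤ) * n - e}.Infinite} : ℝ) := by
  obtain ⟨n₀, h⟩ := pairs_of_cluT K L hK HC ε hε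
  refine ⟨n₀, fun e he A hA hn => ?_⟩
  have h1 := h e he A hA hn
  have h2 : #{p ∈ A.offDiag | {n : ℕ | Pr e p.1 n ∧ Pr e p.2 n}.Infinite} ≤
      2 * #{S ∈ A.powersetCard 2 | {n : ℕ |
          ∀ a : ℕ, a ∈ S → ∃ p : ℕ, p.Prime ∧ (p : ℤ) = (a : ℤ) * n - e}.Infinite} := by
    refine card_le_mul_card_image_of_maps_to (f := fun p : ℕ × ℕ => ({p.1, p.2} : Finset ℕ)) ?_ _ ?_
    · intro p hp
      obtain ⟨hp1, hp2⟩ := mem_filter.1 hp
      rw [mem_offDiag] at hp1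
      refine mem_filter.2 ⟨mem_powersetCard.2 ⟨?_, card_pair hp1.2.2⟩, hp2.mono ?_⟩
      · intro y hy
        simp only [mem_insert, mem_singleton] at hy
        rcases hy with rfl | rfl
        · exact hp1.1
        · exact hp1.2.1
      · rintro n ⟨hn1, hn2⟩ y hy
        simp only [mem_insert, mem_singleton] at hy
        rcases hy with rfl | rfl
        · exact hn1
        · exact hn2
    · intro S _
      rcases (({p ∈ A.offDiag | {n : ℕ | Pr e p.1 n ∧ Pr e p.2 n}.Infinite} :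
        Finset (ℕ × ℕ)).filter (fun p => ({p.1, p.2} : Finset ℕ) = S)).eq_empty_or_nonempty
        with h0 | ⟨p₀, hp₀⟩
      · rw [h0]
        simp
      · obtain ⟨-, hp2⟩ := mem_filter.1 hp₀
        refine (card_le_card (t := {p₀, (p₀.2, p₀.1)}) ?_).trans card_le_two
        intro p hp
        obtain ⟨-, hp3⟩ := mem_filter.1 hp
        have h3 : ({p.1, p.2} : Finset ℕ) = {p₀.1, p₀.2} := hp3.trans hp2.symm
        have h3a : p.1 ∈ ({p₀.1, p₀.2} : Finset ℕ) := by rw [← h3]; simp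
        have h3b : p.2 ∈ ({p₀.1, p₀.2} : Finset ℕ) := by rw [← h3]; simp
        have h3c : p₀.1 ∈ ({p.1, p.2} : Finset ℕ) := by rw [h3]; simp
        have h3d : p₀.2 ∈ ({p.1, p.2} : Finset ℕ) := by rw [h3]; simp
        simp only [mem_insert, mem_singleton] at h3a h3b h3c h3d ⊢
        rcases h3a with h4 | h4 <;> rcases h3b with h5 | h5
        · left
          refine Prod.ext h4 ?_
          rcases h3d with h6 | h6
          · rw [h5, ← h4, ← h6]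
          · exact h6.symm
        · left
          exact Prod.ext h4 h5
        · right
          exact Prod.ext h4 h5
        · left
          refine Prod.ext ?_ h5
          rcases h3c with h6 | h6
          · exact h6.symm
          · rw [h4, ← h5, ← h6]
  have h3 : (#{p ∈ A.offDiag | {n : ℕ | Pr e p.1 n ∧ Pr e p.2 n}.Infinite} : ℝ) ≤
      2 * (#{S ∈ A.powersetCard 2 | {n : ℕ |
          ∀ a : ℕ, a ∈ S → ∃ p : ℕ, p.Prime ∧ (p : ℤ) = (a : ℤ) * n - e}.Infinite} : ℝ) := by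
    exact_mod_cast h2
  rw [Nat.cast_choose_two]
  linarith

end PoolRat
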