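import Pool.Agent.Work.MP_70e905_nt.CL.BlowR
import Pool.Agent.Work.MP_70e905_nt.CL.Patt

/-!
# Ratios of shifted primes : `r`-element subsets of arbitrary sets of positive integers

The forms `a * (z + 1) - e`, `e = ±1`, are always an admissible system (`z ≡ -1` modulo `W`).
-/

namespace PoolRat

open Finset Classical PoolCL

theorem primorial_pos' (D : ℕ) : 0 < primorial D := by
  unfold primorial
  exact Finset.prod_pos fun p hp => (mem_filter.1 hp).2.pos

/-- the constant term of the form `a * (z + 1) - e` -/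
def bb (e : ℤ) (a : ℕ) : ℕ := ((a : ℤ) - e).toNat

theorem bb_cast {e : ℤ} (he : e = 1 ∨ e = -1) {a : ℕ} (ha : 0 < a) : ((bb e a : ℕ) : ℤ) = a - e := by
  unfold bb
  have h : (1 : ℤ) ≤ a := by exact_mod_cast ha
  rw [Int.toNat_of_nonneg]
  rcases he with rfl | rfl <;> omega

theorem bb_le {e : ℤ} (he : e = 1 ∨ e = -1) (a : ℕ) : bb e a ≤ a + 1 := by
  unfold bb
  rcases he with rfl | rfl <;> omega

theorem bb_cop {e : ℤ} (he : e = 1 ∨ e = -1) {a W : ℕ} (ha : 0 < a) (hW : 0 < W) :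
    (a * (W - 1) + bb e a).Coprime W := by
  have h3 := bb_cast he ha
  have h4 : ((a * (W - 1) + bb e a : ℕ) : ℤ) = a * W - e := by
    push_cast
    rw [h3, Nat.cast_sub (by omega)]
    push_cast
    ring
  rw [← Nat.isCoprime_iff_coprime, h4]
  refine ⟨-e, e * a, ?_⟩
  rcases he with rfl | rfl <;> ring

theorem sub_r (HC : ∀ (N : ℕ) (η : ℝ), 1 ≤ N → 0 < η → ClusterM N η) (r : ℕ) (hr : 1 ≤ r) (ε : ℝ)
    (hε : 0 < ε) : ∃ n₀ : ℕ, ∀ e : ℤ, e = 1 ∨ e = -1 → ∀ H : Finset ℕ, (∀ h ∈ H, 0 < h) →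
      n₀ ≤ #H → ∃ x₀ : ℕ, ∀ x : ℕ, x₀ ≤ x →
      ((1 / 4) ^ (r - 1) - ε) * ((#H).choose r : ℝ) ≤
        (#{S ∈ H.powersetCard r | ∃ z : ℕ, x < z ∧
          ∀ h : ℕ, h ∈ S → ∃ p : ℕ, p.Prime ∧ (p : ℤ) = (h : ℤ) * z - e} : ℝ) := by
  obtain ⟨N, L, D₁, hN, hL, hpat⟩ := patt HC r hr (ε / 2) (half_pos hε)
  obtain ⟨n₀, hn₀⟩ := blowr r N L hN hL ((1 / 4) ^ (r - 1) - ε / 2) (ε / 2) (by
    have : (1 / 4 : ℝ) ^ (r - 1) ≤ 1 := pow_le_one₀ (by norm_num) (by norm_num)
    linarith) (half_pos hε)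
  refine ⟨n₀, fun e he H hH hn => ?_⟩
  set W : ℕ := primorial D₁ * ∏ h ∈ H, h with hW
  have hWpos : 0 < W := Nat.mul_pos (primorial_pos' _) (prod_pos (fun h hh => hH h hh))
  obtain ⟨X₀, hX₀⟩ := hpat W (∑ h ∈ H, h) (∑ h ∈ H, h + 1) hWpos (Dvd.intro _ rfl)
  refine ⟨X₀ + 1, fun x hx => ?_⟩
  have hle : ∀ h ∈ H, h ≤ ∑ h ∈ H, h := fun h hh =>
    single_le_sum (f := fun h => h) (fun _ _ => Nat.zero_le _) hh
  set n : ℕ := #H with hndef
  set q : Fin n ↪o ℕ := H.orderEmbOfFin rfl with hq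
  have hqH : ∀ i, q i ∈ H := fun i => H.orderEmbOfFin_mem rfl i
  set G : Finset (Fin r → Fin n) := univ.filter (fun s => Function.Injective s ∧
    ∃ z : ℕ, x < z ∧ ∀ i, ∃ p : ℕ, p.Prime ∧ (p : ℤ) = (q (s i) : ℤ) * z - e) with hG
  have h1 : ((1 / 4) ^ (r - 1) - ε / 2 - ε / 2) * (n : ℝ) ^ r ≤ (#G : ℝ) := by
    refine hn₀ n hn G (fun A hA => ?_)
    have h2 := hX₀ x (W - 1) (fun i => q (A i.1 i.2)) (fun i => bb e (q (A i.1 i.2))) (by omega)
      (fun i => ⟨hH _ (hqH _), hle _ (hqH _)⟩)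
      (fun i p hp hd => (hd.trans (dvd_prod_of_mem (fun h => h) (hqH _))).trans (Dvd.intro_left _ rfl))
      (fun i => by
        have h4 := bb_le he (q (A i.1 i.2))
        have h5 := hle _ (hqH (A i.1 i.2))
        have h6 : (∑ h ∈ H, h + 1) * 1 ≤ (∑ h ∈ H, h + 1) * x := Nat.mul_le_mul_left _ (by omega)
        omega)
      (fun i => bb_cop he (hH _ (hqH _)) hWpos)
      (fun i j hij hEq => by
        have h3 := bb_cast he (hH _ (hqH (A i.1 i.2)))
        have h4 := bb_cast he (hH _ (hqH (A j.1 j.2)))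
        have h5 : ((q (A i.1 i.2) * bb e (q (A j.1 j.2)) : ℕ) : ℤ) =
          ((q (A j.1 j.2) * bb e (q (A i.1 i.2)) : ℕ) : ℤ) := by exact_mod_cast hEq
        rw [Nat.cast_mul, Nat.cast_mul, h3, h4] at h5
        have h6 : (q (A i.1 i.2) : ℤ) = q (A j.1 j.2) := by
          rcases he with rfl | rfl <;> linarith
        exact hij (hA (q.injective (by exact_mod_cast h6))))
    refine h2.trans ?_
    have h3 : #{t : Fin r → Fin N | Function.Injective t ∧ ∃ z, x < z ∧ z ≤ 2 * x ∧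
        z ≡ (W - 1) [MOD W] ∧ ∀ i, ∃ l : Fin L, (q (A (t i) l) * z + bb e (q (A (t i) l))).Prime} ≤
        #{t : Fin r → Fin N | Function.Injective t ∧
          ∃ l : Fin r → Fin L, (fun i => A (t i) (l i)) ∈ G} := by
      refine card_le_card (fun t ht => ?_)
      obtain ⟨ht1, z, hz1, hz2, _, hz3⟩ := (mem_filter.1 ht).2
      choose l hl using hz3
      refine mem_filter.2 ⟨mem_univ _, ht1, l, mem_filter.2 ⟨mem_univ _, ?_, z + 1, by omega, ?_⟩⟩
      · intro i j hij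
        have h4 := @hA (t i, l i) (t j, l j) hij
        exact ht1 (congrArg Prod.fst h4)
      · intro i
        refine ⟨_, hl i, ?_⟩
        push_cast
        rw [bb_cast he (hH _ (hqH _))]
        ring
    exact_mod_cast h3
  -- from tuples to sets
  set F : Finset (Finset ℕ) := {S ∈ H.powersetCard r | ∃ z : ℕ, x < z ∧
          ∀ h : ℕ, h ∈ S → ∃ p : ℕ, p.Prime ∧ (p : ℤ) = (h : ℤ) * z - e} with hF
  have h2 : #G ≤ r.factorial * #F := by
    refine card_le_mul_card_image_of_maps_to (f := fun s : Fin r → Fin n =>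
      (univ : Finset (Fin r)).image (fun i => q (s i))) ?_ _ ?_
    · intro s hs
      obtain ⟨hs1, z, hz1, hz3⟩ := (mem_filter.1 hs).2
      refine mem_filter.2 ⟨mem_powersetCard.2 ⟨?_, ?_⟩, z, hz1, ?_⟩
      · intro y hy
        obtain ⟨i, _, rfl⟩ := mem_image.1 hy
        exact hqH _
      · have hc := card_image_of_injective (univ : Finset (Fin r)) (q.injective.comp hs1)
        rw [card_univ, Fintype.card_fin] at hc
        exact hc
      · intro h hh
        obtain ⟨i, _, rfl⟩ := mem_image.1 hh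
        exact hz3 i
    · intro S _
      rcases (G.filter (fun s => (univ : Finset (Fin r)).image (fun i => q (s i)) = S)).eq_empty_or_nonempty
        with h0 | ⟨s₀, hs₀⟩
      · rw [h0]
        simp
      · obtain ⟨hs1, hs2⟩ := mem_filter.1 hs₀
        have h3 : (G.filter (fun s => (univ : Finset (Fin r)).image (fun i => q (s i)) = S)) ⊆
            (univ : Finset (Equiv.Perm (Fin r))).image (fun σ => fun i => s₀ (σ i)) := by
          intro s hs
          obtain ⟨hs3, hs4⟩ := mem_filter.1 hs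
          have hsi := (mem_filter.1 hs3).2.1
          have h4 : ∀ i, ∃ j, s₀ j = s i := by
            intro i
            have h5 : q (s i) ∈ S := by
              rw [← hs4]
              exact mem_image_of_mem _ (mem_univ i)
            rw [← hs2] at h5
            obtain ⟨j, _, hj⟩ := mem_image.1 h5
            exact ⟨j, q.injective hj⟩
          choose σ hσ using h4
          have hσi : Function.Injective σ := by
            intro i j hij
            apply hsi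
            rw [← hσ i, ← hσ j, hij]
          refine mem_image.2 ⟨Equiv.ofBijective σ (Finite.injective_iff_bijective.1 hσi),
            mem_univ _, ?_⟩
          funext i
          simpa using hσ i
        refine (card_le_card h3).trans (card_image_le.trans ?_)
        rw [card_univ, Fintype.card_perm, Fintype.card_fin]
  rcases lt_or_ge ((1 / 4 : ℝ) ^ (r - 1) - ε) 0 with hneg | hpos
  · exact (mul_nonpos_of_nonpos_of_nonneg hneg.le (Nat.cast_nonneg _)).trans (Nat.cast_nonneg _)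
  · have h3 : ((r.factorial : ℕ) : ℝ) * (n.choose r : ℝ) ≤ (n : ℝ) ^ r := by
      have := Nat.descFactorial_le_pow n r
      rw [Nat.descFactorial_eq_factorial_mul_choose] at this
      exact_mod_cast this
    have h4 : ((#G : ℕ) : ℝ) ≤ (r.factorial : ℝ) * (#F : ℝ) := by exact_mod_cast h2
    have h5 : (0 : ℝ) < r.factorial := by exact_mod_cast r.factorial_pos
    have h6 : (r.factorial : ℝ) * (((1 / 4) ^ (r - 1) - ε) * (n.choose r : ℝ)) ≤
        (r.factorial : ℝ) * (#F : ℝ) := by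
      calc (r.factorial : ℝ) * (((1 / 4) ^ (r - 1) - ε) * (n.choose r : ℝ))
          = ((1 / 4) ^ (r - 1) - ε) * ((r.factorial : ℝ) * (n.choose r : ℝ)) := by ring
        _ ≤ ((1 / 4) ^ (r - 1) - ε) * (n : ℝ) ^ r := mul_le_mul_of_nonneg_left h3 hpos
        _ = ((1 / 4) ^ (r - 1) - ε / 2 - ε / 2) * (n : ℝ) ^ r := by ring
        _ ≤ _ := h1.trans h4
    exact le_of_mul_le_mul_left h6 h5

/-- the same with infinitely many `n` -/
theorem sub_inf (HC : ∀ (N : ℕ) (η : ℝ), 1 ≤ N → 0 < η → ClusterM N η) (r : ℕ) (hr : 1 ≤ r) (ε : ℝ)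
    (hε : 0 < ε) : ∃ n₀ : ℕ, ∀ e : ℤ, e = 1 ∨ e = -1 → ∀ H : Finset ℕ, (∀ h ∈ H, 0 < h) →
      n₀ ≤ #H → ((1 / 4) ^ (r - 1) - ε) * ((#H).choose r : ℝ) ≤
        (#{S ∈ H.powersetCard r | {n : ℕ |
          ∀ h : ℕ, h ∈ S → ∃ p : ℕ, p.Prime ∧ (p : ℤ) = (h : ℤ) * n - e}.Infinite} : ℝ) := by
  obtain ⟨n₀, hn₀⟩ := sub_r HC r hr ε hε
  refine ⟨n₀, fun e he H hH hn => ?_⟩
  obtain ⟨x₀, hx₀⟩ := hn₀ e he H hH hn
  have h1 : ∀ S : Finset ℕ, ∃ B : ℕ, ¬ {n : ℕ |
      ∀ h : ℕ, h ∈ S → ∃ p : ℕ, p.Prime ∧ (p : ℤ) = (h : ℤ) * n - e}.Infinite →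
      ∀ n ∈ {n : ℕ | ∀ h : ℕ, h ∈ S → ∃ p : ℕ, p.Prime ∧ (p : ℤ) = (h : ℤ) * n - e}, n ≤ B := by
    intro S
    by_cases h : {n : ℕ | ∀ h : ℕ, h ∈ S → ∃ p : ℕ, p.Prime ∧ (p : ℤ) = (h : ℤ) * n - e}.Infinite
    · exact ⟨0, fun h' => absurd h h'⟩
    · obtain ⟨B, hB⟩ := (Set.not_infinite.1 h).bddAbove
      exact ⟨B, fun _ n hn => hB hn⟩
  choose B hB using h1
  refine (hx₀ (x₀ + ∑ S ∈ H.powersetCard r, B S) (Nat.le_add_right _ _)).trans ?_
  refine Nat.cast_le.2 (card_le_card (fun S hS => ?_))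
  obtain ⟨hS1, z, hz1, hz2⟩ := mem_filter.1 hS
  refine mem_filter.2 ⟨hS1, ?_⟩
  by_contra hcon
  have h2 := hB S hcon z hz2
  have h3 : B S ≤ ∑ S ∈ H.powersetCard r, B S :=
    single_le_sum (f := B) (fun _ _ => Nat.zero_le _) hS1
  omega

end PoolRat
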