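import Mathlib

/-!
# Divisor boxes with small boundary

For `m ≥ 1` and `M` large all but a small proportion of the divisors `d` of `D = m ^ M` are such that `d * v / u` is
again a divisor of `D`, for all `u, v` dividing `m`.
-/

namespace PoolRat

open Finset

theorem card_div_pow (m : ℕ) (hm : m ≠ 0) (M : ℕ) :
    (#(m ^ M).divisors : ℝ) = ∏ p ∈ m.primeFactors, ((M : ℝ) * (m.factorization p : ℝ) + 1) := by
  rcases Nat.eq_zero_or_pos M with rfl | hM
  · simp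
  rw [Nat.card_divisors (pow_ne_zero _ hm), Nat.primeFactors_pow _ hM.ne']
  push_cast
  refine prod_congr rfl (fun p _ => ?_)
  rw [Nat.factorization_pow]
  simp

/-- the proportion of the divisors of `m ^ M` which are not divisors of `m ^ (M - 1)` is at most `ω(m) / M` -/
theorem card_div_pow_le (m : ℕ) (hm : m ≠ 0) (M : ℕ) :
    (1 - (#m.primeFactors : ℝ) / (M + 1)) * (#(m ^ (M + 1)).divisors : ℝ) ≤ (#(m ^ M).divisors : ℝ) := by
  rw [card_div_pow m hm, card_div_pow m hm]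
  have h0 : (0 : ℝ) ≤ 1 / ((M : ℝ) + 1) := by positivity
  have h1 : (1 - (#m.primeFactors : ℝ) / (M + 1)) ≤ (1 - 1 / ((M : ℝ) + 1)) ^ (#m.primeFactors) := by
    have h2 := one_add_mul_le_pow (a := -(1 / ((M : ℝ) + 1))) (by
      have : 1 / ((M : ℝ) + 1) ≤ 1 := by
        rw [div_le_one (by positivity)]
        have : (0 : ℝ) ≤ M := Nat.cast_nonneg _
        linarith
      linarith) (#m.primeFactors)
    refine le_trans (le_of_eq ?_) (h2.trans (le_of_eq ?_))
    · ring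
    · ring
  have h3 : (0 : ℝ) ≤ ∏ p ∈ m.primeFactors, (((M + 1 : ℕ) : ℝ) * (m.factorization p : ℝ) + 1) :=
    prod_nonneg (fun p _ => by positivity)
  refine (mul_le_mul_of_nonneg_right h1 h3).trans ?_
  rw [← prod_const, ← prod_mul_distrib]
  refine prod_le_prod (fun p _ => ?_) (fun p _ => ?_)
  · have : 1 / ((M : ℝ) + 1) ≤ 1 := by
      rw [div_le_one (by positivity)]
      have : (0 : ℝ) ≤ M := Nat.cast_nonneg _
      linarith
    have h4 : (0 : ℝ) ≤ 1 - 1 / ((M : ℝ) + 1) := by linarith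
    positivity
  · push_cast
    have hM : (0 : ℝ) < (M : ℝ) + 1 := by positivity
    have e : (1 - 1 / ((M : ℝ) + 1)) * (((M : ℝ) + 1) * (m.factorization p : ℝ) + 1) =
        M * m.factorization p + 1 - 1 / ((M : ℝ) + 1) := by
      field_simp
      ring
    rw [e]
    linarith

/-- most divisors `d` of `m ^ (M + 2)` are multiples of `m` and divide `m ^ (M + 1)` -/
theorem box_bad (m : ℕ) (hm : m ≠ 0) (M : ℕ) :
    (#{d ∈ (m ^ (M + 1)).divisors | ¬ (m ∣ d ∧ d ∣ m ^ M)} : ℝ) ≤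
      2 * ((#m.primeFactors : ℝ) / (M + 1)) * (#(m ^ (M + 1)).divisors : ℝ) := by
  have hpos : ∀ k, m ^ k ≠ 0 := fun k => pow_ne_zero _ hm
  have hA : #{d ∈ (m ^ (M + 1)).divisors | m ∣ d} = #(m ^ M).divisors := by
    symm
    refine card_bij (fun d _ => m * d) ?_ ?_ ?_
    · intro d hd
      have := Nat.dvd_of_mem_divisors hd
      refine mem_filter.2 ⟨Nat.mem_divisors.2 ⟨?_, hpos _⟩, Dvd.intro _ rfl⟩
      rw [pow_succ, mul_comm (m ^ M) m]
      exact Nat.mul_dvd_mul_left _ this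
    · intro a _ b _ h
      exact Nat.eq_of_mul_eq_mul_left (Nat.pos_of_ne_zero hm) h
    · intro d hd
      obtain ⟨h1, c, rfl⟩ := mem_filter.1 hd
      refine ⟨c, Nat.mem_divisors.2 ⟨?_, hpos _⟩, rfl⟩
      have h2 := Nat.dvd_of_mem_divisors h1
      rw [pow_succ, mul_comm (m ^ M) m] at h2
      exact Nat.dvd_of_mul_dvd_mul_left (Nat.pos_of_ne_zero hm) h2
  have hB : #{d ∈ (m ^ (M + 1)).divisors | d ∣ m ^ M} = #(m ^ M).divisors := by
    congr 1
    ext d
    simp only [mem_filter, Nat.mem_divisors]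
    constructor
    · rintro ⟨_, h⟩
      exact ⟨h, hpos _⟩
    · rintro ⟨h, _⟩
      exact ⟨⟨h.trans (pow_dvd_pow _ (Nat.le_succ _)), hpos _⟩, h⟩
  have h1 := card_div_pow_le m hm M
  have h2 := card_filter_add_card_filter_not (s := (m ^ (M + 1)).divisors) (fun d => m ∣ d)
  have h3 := card_filter_add_card_filter_not (s := (m ^ (M + 1)).divisors) (fun d => d ∣ m ^ M)
  rw [hA] at h2
  rw [hB] at h3
  have h4 : #{d ∈ (m ^ (M + 1)).divisors | ¬ (m ∣ d ∧ d ∣ m ^ M)} ≤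
      #{d ∈ (m ^ (M + 1)).divisors | ¬ m ∣ d} + #{d ∈ (m ^ (M + 1)).divisors | ¬ d ∣ m ^ M} := by
    refine (card_le_card ?_).trans (card_union_le _ _)
    intro d hd
    obtain ⟨h5, h6⟩ := mem_filter.1 hd
    rw [mem_union, mem_filter, mem_filter]
    by_cases h7 : m ∣ d
    · exact Or.inr ⟨h5, fun h8 => h6 ⟨h7, h8⟩⟩
    · exact Or.inl ⟨h5, h7⟩
  have h5 : (#{d ∈ (m ^ (M + 1)).divisors | ¬ (m ∣ d ∧ d ∣ m ^ M)} : ℝ) ≤
      #{d ∈ (m ^ (M + 1)).divisors | ¬ m ∣ d} + #{d ∈ (m ^ (M + 1)).divisors | ¬ d ∣ m ^ M} := by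
    exact_mod_cast h4
  have h6 : ((#(m ^ M).divisors : ℕ) : ℝ) + #{d ∈ (m ^ (M + 1)).divisors | ¬ m ∣ d} =
      #(m ^ (M + 1)).divisors := by exact_mod_cast h2
  have h7 : ((#(m ^ M).divisors : ℕ) : ℝ) + #{d ∈ (m ^ (M + 1)).divisors | ¬ d ∣ m ^ M} =
      #(m ^ (M + 1)).divisors := by exact_mod_cast h3
  nlinarith

/-- `D` is `δ`-invariant under division by the elements of `X` -/
theorem exists_box (X : Finset ℚ) (hX : ∀ x ∈ X, 0 < x) (δ : ℝ) (hδ : 0 < δ) (K : ℕ) :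
    ∃ D : ℕ, 0 < D ∧ K ≤ #D.divisors ∧
      ∀ x ∈ X, (#(D.divisors.filter (fun d : ℕ => ¬ ∃ d' ∈ D.divisors, (d : ℚ) / x = (d' : ℚ))) : ℝ) ≤ δ * #D.divisors := by
  set m : ℕ := 2 * ∏ x ∈ X, (x.num.toNat * x.den) with hm
  have hm0 : m ≠ 0 := by
    rw [hm]
    refine mul_ne_zero two_ne_zero (prod_ne_zero_iff.2 (fun x hx => mul_ne_zero ?_ x.den_nz))
    have := Rat.num_pos.2 (hX x hx)
    omega
  obtain ⟨M, hM⟩ := exists_nat_ge (2 * (#m.primeFactors : ℝ) / δ + K)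
  refine ⟨m ^ (M + 1), Nat.pos_of_ne_zero (pow_ne_zero _ hm0), ?_, fun x hx => ?_⟩
  · have hM0 : (K : ℝ) ≤ M := by
      have : (0 : ℝ) ≤ 2 * (#m.primeFactors : ℝ) / δ := by positivity
      linarith
    have hM1 : K ≤ M := by exact_mod_cast hM0
    have h2 : (Finset.range (M + 1)).image (fun i => 2 ^ i) ⊆ (m ^ (M + 1)).divisors := by
      intro y hy
      obtain ⟨i, hi, rfl⟩ := mem_image.1 hy
      refine Nat.mem_divisors.2 ⟨?_, pow_ne_zero _ hm0⟩
      have h3 : 2 ∣ m := Dvd.intro _ hm.symm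
      exact (pow_dvd_pow_of_dvd h3 i).trans (pow_dvd_pow _ (by have := mem_range.1 hi; omega))
    have h3 := card_le_card h2
    rw [card_image_of_injective _ (Nat.pow_right_injective le_rfl), card_range] at h3
    omega
  · have h1 := box_bad m hm0 M
    have h2 : #((m ^ (M + 1)).divisors.filter (fun d : ℕ => ¬ ∃ d' ∈ (m ^ (M + 1)).divisors, (d : ℚ) / x = (d' : ℚ))) ≤
        #{d ∈ (m ^ (M + 1)).divisors | ¬ (m ∣ d ∧ d ∣ m ^ M)} := by
      refine card_le_card (fun d hd => ?_)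
      obtain ⟨h3, h4⟩ := mem_filter.1 hd
      refine mem_filter.2 ⟨h3, fun h5 => h4 ?_⟩
      obtain ⟨h6, h7⟩ := h5
      have hxn : 0 < x.num := Rat.num_pos.2 (hX x hx)
      have hxm : x.num.toNat * x.den ∣ m :=
        (dvd_prod_of_mem (fun x : ℚ => x.num.toNat * x.den) hx).trans (Dvd.intro_left _ hm.symm)
      obtain ⟨c, hc⟩ := (Dvd.intro _ rfl : x.num.toNat ∣ x.num.toNat * x.den).trans (hxm.trans h6)
      refine ⟨c * x.den, Nat.mem_divisors.2 ⟨?_, pow_ne_zero _ hm0⟩, ?_⟩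
      · rw [pow_succ]
        have h8 : c ∣ d := Dvd.intro_left _ hc.symm
        have h9 : x.den ∣ m := (Dvd.intro_left _ rfl : x.den ∣ x.num.toNat * x.den).trans hxm
        exact Nat.mul_dvd_mul (h8.trans h7) h9
      · have hx0 : x ≠ 0 := (hX x hx).ne'
        rw [div_eq_iff hx0, hc]
        have e1 : ((x.num.toNat : ℕ) : ℚ) = x.num := by
          have : ((x.num.toNat : ℕ) : ℤ) = x.num := Int.toNat_of_nonneg hxn.le
          exact_mod_cast congrArg (fun t : ℤ => (t : ℚ)) this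
        have e2 : (x.den : ℚ) * x = x.num := Rat.den_mul_eq_num x
        push_cast
        rw [e1, ← e2]
        ring
    have h3 : (#((m ^ (M + 1)).divisors.filter (fun d : ℕ => ¬ ∃ d' ∈ (m ^ (M + 1)).divisors, (d : ℚ) / x = (d' : ℚ))) : ℝ) ≤
        #{d ∈ (m ^ (M + 1)).divisors | ¬ (m ∣ d ∧ d ∣ m ^ M)} := by exact_mod_cast h2
    refine h3.trans (h1.trans ?_)
    refine mul_le_mul_of_nonneg_right ?_ (Nat.cast_nonneg _)
    have h4 : 2 * (#m.primeFactors : ℝ) / δ ≤ M + 1 := by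
      have : (0 : ℝ) ≤ K := Nat.cast_nonneg _
      linarith
    rw [div_le_iff₀ hδ] at h4
    rw [← mul_div_assoc, div_le_iff₀ (by positivity)]
    linarith

end PoolRat
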