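import Pool.Agent.Work.MP_70e905_nt.Q4.Clus
import Pool.Agent.Work.MP_70e905_nt.Q4.StonePairs
import Pool.Agent.Work.MP_70e905_nt.Q4.SubsetAvg

/-!
# A quarter of the ratios are ratios of shifted primes

`good a b` : infinitely many pairs of primes with `(p+1) b = (q+1) a`. `subsetAvg` with `rough = False`
and `stonePairs`: let `h` be injective into `A`, all values positive, and suppose that no `s, t` with
`s.1 ≠ t.1` is good; then there is `X` such that for these finitely many `s, t` all solutions have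
`p < X`. Apply `ClusterPlus` with `W = primorial D₁ * ∏ h s`, `a = h`, `b = h - 1`, `v = W - 1`
(`a v + b = a W - 1` is prime to `W`), `a i b j - a j b i = a j - a i ≠ 0`, `C = A₀ = max h`,
`x ≥ max X₀ X`: primes `p = h i (z+1) - 1 ≥ X`, `q = h j (z+1) - 1`, contradiction.
-/

namespace PoolQ4

open Finset Classical

/-- The fraction `a / b` is `(p + 1)/(q + 1)` for infinitely many pairs of primes. -/
def ShiftRatio (a b : ℕ) : Prop :=
  ∀ X : ℕ, ∃ p q : ℕ, X ≤ p ∧ X ≤ q ∧ p.Prime ∧ q.Prime ∧ (p + 1) * b = (q + 1) * a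

private theorem shiftRatio_symm {a b : ℕ} (h : ShiftRatio a b) : ShiftRatio b a := by
  intro X
  obtain ⟨p, q, h1, h2, h3, h4, h5⟩ := h X
  exact ⟨q, p, h2, h1, h4, h3, h5.symm⟩

private theorem exists_good {K L D₁ : ℕ}
    (HC : ∀ W A₀ C : ℕ, 0 < W → primorial D₁ ∣ W → ∃ X₀ : ℕ,
      ∀ (x v : ℕ) (a b : Fin (K + 1) × Fin L → ℕ), X₀ ≤ x →
        (∀ i, 1 ≤ a i ∧ a i ≤ A₀) → (∀ i, ∀ p : ℕ, p.Prime → p ∣ a i → p ∣ W) →
        (∀ i, b i ≤ C * x) → (∀ i, (a i * v + b i).Coprime W) →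
        (∀ i j, i ≠ j → a i * b j ≠ a j * b i) →
        ∃ z, x < z ∧ z ≤ 2 * x ∧ z ≡ v [MOD W] ∧
          ∃ i j, i.1 ≠ j.1 ∧ (a i * z + b i).Prime ∧ (a j * z + b j).Prime)
    (h : Fin (K + 1) × Fin L → ℕ) (hinj : Function.Injective h) (hpos : ∀ s, 0 < h s) :
    ∃ s t, s.1 ≠ t.1 ∧ ShiftRatio (h s) (h t) := by
  by_contra hcon
  push Not at hcon
  have hX : ∀ s t : Fin (K + 1) × Fin L, ∃ X : ℕ, s.1 ≠ t.1 → ∀ p q : ℕ, X ≤ p → X ≤ q →
      p.Prime → q.Prime → (p + 1) * h t ≠ (q + 1) * h s := by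
    intro s t
    by_cases hst : s.1 ≠ t.1
    · have := hcon s t hst
      unfold ShiftRatio at this
      push Not at this
      obtain ⟨X, hX⟩ := this
      exact ⟨X, fun _ => hX⟩
    · exact ⟨0, fun h => absurd h hst⟩
  choose X hX using hX
  set T : ℕ := ∑ s, ∑ t, X s t with hT
  have hXT : ∀ s t, X s t ≤ T := fun s t =>
    (single_le_sum (f := fun t => X s t) (fun _ _ => Nat.zero_le _) (mem_univ t)).trans
      (single_le_sum (f := fun s => ∑ t, X s t) (fun _ _ => Nat.zero_le _) (mem_univ s))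
  set P : ℕ := ∏ s, h s with hP
  have hPpos : 0 < P := prod_pos fun s _ => hpos s
  set W : ℕ := primorial D₁ * P with hW
  have hWpos : 0 < W := Nat.mul_pos (primorial_pos D₁) hPpos
  set A₀ : ℕ := ∑ s, h s with hA₀
  have hA : ∀ s, h s ≤ A₀ := fun s => single_le_sum (fun _ _ => Nat.zero_le _) (mem_univ s)
  obtain ⟨X₀, hX₀⟩ := HC W A₀ A₀ hWpos (Dvd.intro _ rfl)
  set x : ℕ := max X₀ T + 1 with hx
  have k1 : X₀ ≤ x := (le_max_left _ _).trans (Nat.le_succ _)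
  have k2 : T ≤ x := (le_max_right _ _).trans (Nat.le_succ _)
  have hk2 : ∀ i : Fin (K + 1) × Fin L, ∀ p : ℕ, p.Prime → p ∣ h i → p ∣ W := fun i p _ hd =>
    (hd.trans (dvd_prod_of_mem h (mem_univ i))).trans (Dvd.intro_left _ rfl)
  have hk3 : ∀ i : Fin (K + 1) × Fin L, h i - 1 ≤ A₀ * x := fun i => by
    have h1 := hA i
    have h2 : A₀ * 1 ≤ A₀ * x := Nat.mul_le_mul_left _ (by omega)
    omega
  have hk4 : ∀ i : Fin (K + 1) × Fin L, (h i * (W - 1) + (h i - 1)).Coprime W := by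
    intro i
    have h1 : h i * (W - 1) + (h i - 1) + 1 = h i * W := by
      have := hpos i
      obtain ⟨w, hw⟩ : ∃ w, W = w + 1 := ⟨W - 1, by omega⟩
      rw [hw]
      have : h i * (w + 1) = h i * w + h i := by ring
      rw [this, Nat.add_sub_cancel]
      omega
    have h2 : (h i * (W - 1) + (h i - 1)).Coprime (h i * (W - 1) + (h i - 1) + 1) := by
      simp
    rw [h1] at h2
    exact h2.coprime_dvd_right (Dvd.intro_left _ rfl)
  have hk5 : ∀ i j : Fin (K + 1) × Fin L, i ≠ j → h i * (h j - 1) ≠ h j * (h i - 1) := by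
    intro i j hij heq
    have h1 := hpos i
    have h2 := hpos j
    obtain ⟨u, hu⟩ : ∃ u, h i = u + 1 := ⟨h i - 1, by omega⟩
    obtain ⟨w, hw⟩ : ∃ w, h j = w + 1 := ⟨h j - 1, by omega⟩
    rw [hu, hw, Nat.add_sub_cancel, Nat.add_sub_cancel] at heq
    have : u = w := by nlinarith
    exact hij (hinj (by rw [hu, hw, this]))
  obtain ⟨z, hz1, hz2, -, i, j, hij, hPi, hPj⟩ := hX₀ x (W - 1) h (fun i => h i - 1) k1
    (fun i => ⟨hpos i, hA i⟩) hk2 hk3 hk4 hk5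
  have hlow : ∀ i, x ≤ h i * z + (h i - 1) := fun i => by
    have h1 : 1 * z ≤ h i * z := Nat.mul_le_mul_right _ (hpos i)
    omega
  have hsucc : ∀ i, h i * z + (h i - 1) + 1 = h i * (z + 1) := fun i => by
    have := hpos i
    have e : h i * (z + 1) = h i * z + h i := by ring
    omega
  refine hX i j hij _ _ (((hXT i j).trans k2).trans (hlow i)) (((hXT i j).trans k2).trans (hlow j))
    hPi hPj ?_
  rw [hsucc, hsucc]
  ring

/-- Among `K + 1` clusters of `L` positive integers there is a good ratio. -/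
theorem cluster_ratio {K : ℕ} (HC : ClusterPlus K) : ∃ L : ℕ, 0 < L ∧
    ∀ h : Fin (K + 1) × Fin L → ℕ, Function.Injective h → (∀ s, 0 < h s) →
      ∃ s t, s.1 ≠ t.1 ∧ ShiftRatio (h s) (h t) := by
  obtain ⟨L, D₁, hL, HC⟩ := HC
  exact ⟨L, hL, fun h hinj hpos => exists_good HC h hinj hpos⟩

theorem ratios (K : ℕ) (hK : 1 ≤ K) (HC : ClusterPlus K) (ε : ℝ) (hε : 0 < ε) :
    ∃ k₀ : ℕ, ∀ S : Finset ℕ, (∀ a ∈ S, 0 < a) → k₀ ≤ #S →
      (1 / (K : ℝ) - ε) * ((#S : ℝ) * ((#S : ℝ) - 1)) ≤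
        (#{p ∈ S.offDiag | ShiftRatio p.1 p.2} : ℝ) := by
  obtain ⟨L, D₁, hL, HC⟩ := HC
  obtain ⟨m₀, hm₀, hst⟩ := stonePairs K L hK (half_pos hε)
  refine ⟨⌈2 * (m₀ : ℝ) ^ 2 / ε⌉₊ + 2, fun S hS hcard => ?_⟩
  have hN2 : (2 : ℝ) ≤ (#S : ℝ) := by
    have : 2 ≤ #S := by omega
    exact_mod_cast this
  have hNN : 0 ≤ (#S : ℝ) * ((#S : ℝ) - 1) := mul_nonneg (by linarith) (by linarith)
  rcases le_or_gt (1 / (K : ℝ) - ε) 0 with hneg | hposc
  · exact (mul_nonpos_of_nonpos_of_nonneg hneg hNN).trans (Nat.cast_nonneg _)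
  have hc0 : 0 ≤ 1 / (K : ℝ) - ε / 2 := by linarith
  have hK1 : 1 / (K : ℝ) ≤ 1 := by
    rw [div_le_one (by exact_mod_cast hK)]
    exact_mod_cast hK
  have key := subsetAvg S m₀ hm₀ ShiftRatio (fun _ _ => False) (1 / (K : ℝ) - ε / 2) hc0 ?_
  · have h0 : (#{p ∈ S.offDiag | False} : ℝ) = 0 := by simp
    simp only [h0, zero_add, mul_one] at key
    have h1 : 2 * (m₀ : ℝ) ^ 2 / ε ≤ (#S : ℝ) := by
      refine (Nat.le_ceil _).trans ?_
      have : ⌈2 * (m₀ : ℝ) ^ 2 / ε⌉₊ ≤ #S := by omega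
      exact_mod_cast this
    rw [div_le_iff₀ hε] at h1
    have h2 : (#S : ℝ) ≤ (#S : ℝ) * ((#S : ℝ) - 1) := by nlinarith
    have h3 : (m₀ : ℝ) ^ 2 ≤ ε / 2 * ((#S : ℝ) * ((#S : ℝ) - 1)) := by nlinarith
    have h4 : (1 / (K : ℝ) - ε / 2) * (m₀ : ℝ) ^ 2 ≤ 1 * (m₀ : ℝ) ^ 2 :=
      mul_le_mul_of_nonneg_right (by linarith) (by positivity)
    refine le_trans ?_ key
    nlinarith
  · intro A hAS hA _
    exact hst A ShiftRatio (fun a b => shiftRatio_symm) hA fun h hinj hmem =>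
      exists_good HC h hinj fun s => hS _ (hAS (hmem s))

end PoolQ4
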