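import Pool.Agent.Work.MP_70e905_nt.Flat.FlatV
import Pool.Agent.Work.MP_1a023c_nt.Ratios

/-!
# Module Powers : a quarter of the powers of every rational

`flat_v` with `D = 0` (`primorial 0 = 1`, so `wv 0 n v m = 1`), `Q = 1`, `n = 1`, `v = 0`: if among any `K + 1`
clusters of `L` integers in `[0, J)` two elements of different clusters have a distance in `P`, then
`(1/K - ε) J ≤ #{j ≤ J | P j}`. Let `r = α / β ≠ 1`, `P j` = the set below is infinite. For
`h : Fin (K+1) × Fin L → ℕ` injective with values `< J` apply `cluster_ratio` to `α ^ (h s) β ^ (J - h s)`.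
-/

namespace PoolSR

open Finset Classical PoolQ4 PoolFlat

private theorem wv_zero (n v m : ℕ) : wv 0 n v m = 1 := by
  have h0 : primorial 0 = 1 := by
    unfold primorial
    rw [prod_eq_one]
    intro p hp
    rw [mem_filter, mem_range] at hp
    have h1 : p = 0 := by omega
    rw [h1] at hp
    exact absurd hp.2 (by norm_num)
  unfold wv
  rw [h0]
  simp

private theorem infinite_of_shiftRatio {a b : ℕ} (hb : 0 < b) {ρ : ℚ} (hρ : ρ = (a : ℚ) / b)
    (h : ShiftRatio a b) :
    {s : ℕ × ℕ | s.1.Prime ∧ s.2.Prime ∧ ρ = ((s.1 : ℚ) + 1) / (s.2 + 1)}.Infinite := by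
  intro hfin
  obtain ⟨M, hM⟩ := (hfin.image Prod.fst).bddAbove
  obtain ⟨p, q, h1, -, h3, h4, h5⟩ := h (M + 1)
  have h6 : ρ = ((p : ℚ) + 1) / (q + 1) := by
    have hb' : (b : ℚ) ≠ 0 := by exact_mod_cast hb.ne'
    have hq : (q : ℚ) + 1 ≠ 0 := by positivity
    rw [hρ, div_eq_div_iff hb' hq]
    have : ((p : ℚ) + 1) * b = (q + 1) * a := by exact_mod_cast h5
    rw [this]
    ring
  have := hM ⟨(p, q), ⟨h3, h4, h6⟩, rfl⟩
  simp only at this
  omega

theorem powers (K : ℕ) (hK : 1 ≤ K) (HC : ClusterPlus K) (ε : ℝ) (hε : 0 < ε) :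
    ∃ J₀ : ℕ, ∀ r : ℚ, 0 < r → r ≠ 1 → ∀ J : ℕ, J₀ ≤ J →
      (1 / (K : ℝ) - ε) * J ≤
        (#{j ∈ Icc 1 J | {s : ℕ × ℕ | s.1.Prime ∧ s.2.Prime ∧
          r ^ j = ((s.1 : ℚ) + 1) / (s.2 + 1)}.Infinite} : ℝ) := by
  obtain ⟨L, hL, HC⟩ := cluster_ratio HC
  obtain ⟨J₀, h⟩ := flat_v K L 1 hK le_rfl ε hε 0
  refine ⟨J₀, fun r hr hr1 J hJ => ?_⟩
  set P : ℕ → Prop := fun j => {s : ℕ × ℕ | s.1.Prime ∧ s.2.Prime ∧
          r ^ j = ((s.1 : ℚ) + 1) / (s.2 + 1)}.Infinite with hP
  have hclu : CluF K L 0 1 1 J P := by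
    intro v g hinj hg _ _
    set α : ℕ := r.num.natAbs with hα
    set β : ℕ := r.den with hβ
    have hαpos : 0 < α := Int.natAbs_pos.2 (Rat.num_pos.2 hr).ne'
    have hβpos : 0 < β := r.den_pos
    have hrr : r = (α : ℚ) / β := by
      have h1 : ((α : ℕ) : ℚ) = (r.num : ℚ) := by
        rw [hα, ← Int.cast_natCast, Int.natAbs_of_nonneg (Rat.num_pos.2 hr).le]
      rw [h1, hβ]
      exact (Rat.num_div_den r).symm
    have hαβ : α ≠ β := by
      intro h
      apply hr1
      rw [hrr, h]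
      exact div_self (by exact_mod_cast hβpos.ne')
    set f : Fin (K + 1) × Fin L → ℕ := fun s => α ^ g s * β ^ (J - g s) with hf
    have hfpos : ∀ s, 0 < f s := fun s => Nat.mul_pos (pow_pos hαpos _) (pow_pos hβpos _)
    have hrat : ∀ s t, g t ≤ g s → (f s : ℚ) / f t = r ^ (g s - g t) := by
      intro s t hst
      obtain ⟨d, hd⟩ : ∃ d, g s = g t + d := ⟨g s - g t, by omega⟩
      have hsJ := hg s
      have e1 : J - g t = (J - g s) + d := by omega
      have e2 : g s - g t = d := by omega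
      have hα' : (α : ℚ) ≠ 0 := by exact_mod_cast hαpos.ne'
      have hβ' : (β : ℚ) ≠ 0 := by exact_mod_cast hβpos.ne'
      rw [e2, hrr, hf]
      simp only
      push_cast
      rw [e1, hd, pow_add, pow_add, div_pow]
      field_simp
    have hfinj : Function.Injective f := by
      intro s t hst
      by_contra hne
      have hgne : g s ≠ g t := fun h => hne (hinj h)
      have key : ∀ s t, g t < g s → f s = f t → False := by
        intro s t hlt heq
        have h1 := hrat s t hlt.le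
        rw [heq, div_self (by exact_mod_cast (hfpos t).ne')] at h1
        have h2 : r ^ (g s - g t) = 1 := h1.symm
        have h3 : g s - g t ≠ 0 := by omega
        exact hr1 ((pow_eq_one_iff_of_nonneg hr.le h3).1 h2)
      rcases lt_or_gt_of_ne hgne with h | h
      · exact key t s h hst.symm
      · exact key s t h hst
    obtain ⟨s, t, hst, hgood⟩ := HC f hfinj hfpos
    have hsym : ShiftRatio (f t) (f s) := by
      intro X
      obtain ⟨p, q, h1, h2, h3, h4, h5⟩ := hgood X
      exact ⟨q, p, h2, h1, h4, h3, h5.symm⟩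
    rcases le_total (g t) (g s) with h | h
    · refine ⟨s, t, hst, ?_⟩
      rw [hP, Nat.dist_eq_sub_of_le_right h]
      exact infinite_of_shiftRatio (hfpos t) (hrat s t h).symm hgood
    · refine ⟨s, t, hst, ?_⟩
      rw [hP, Nat.dist_eq_sub_of_le h]
      exact infinite_of_shiftRatio (hfpos s) (hrat t s h).symm hsym
  have h1 := h J 1 0 hJ P hclu
  simp only [wv_zero, Nat.cast_one, sum_const, nsmul_eq_mul, mul_one, Nat.card_Icc,
    Nat.add_sub_cancel] at h1
  exact h1

end PoolSR
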