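import Mathlib

/-!
# Module LogDens : from pairs to reduced fractions, logarithmic density

`P a b` depends only on the ratio. Write `h = max a b` (`h ≥ 1`) for a coprime pair. Every pair `(a, b)` in
`[1, N]^2` is `(k a', k b')` with a unique coprime `(a', b')` and `1 ≤ k ≤ N / h`. Hence
`∑_{N ≤ X} #{good pairs in [1,N]^2} / N ^ 3 = ∑_{coprime good, h ≤ X} ∑_{N = h}^X (N / h : ℕ) / N ^ 3`, and the same
for all pairs (left side `∑ 1 / N`). Put `c = ∑' k, 1 / (2 (k+1) ^ 2)` (`> 0`). For `h ≤ X`, since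
`(N / h : ℕ) = #{k ≥ 1 | k h ≤ N}` and `1 / (2 M ^ 2) ≤ ∑_{N ≥ M} 1 / N ^ 3 ≤ 1 / (2 M ^ 2) + 1 / M ^ 3`
(compare with `1 / (2 M ^ 2) - 1 / (2 (M+1) ^ 2)`):
 * upper bound `∑_{N = h}^X (N / h : ℕ) / N ^ 3 ≤ c / h ^ 2 + 2 / h ^ 3`;
 * lower bound `∑_{N = h}^X (N / h : ℕ) / N ^ 3 ≥ c / h ^ 2 - 1 / (h X)` (the tail `N > X` is at most
   `∑_{N > X} 1 / (h N ^ 2) ≤ 1 / (h X)`).
There are at most `2 h` coprime pairs with maximum `h`, so the error terms sum to at most `4 ∑ 1 / h ^ 2 ≤ 8`, resp.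
`2`. So `c ∑_{coprime, good} 1 / h ^ 2 ≥ (1/4 - ε/2) (∑_{N ≤ X} 1 / N - ∑_{N < N₀} 1 / N) - 8` and
`c ∑_{coprime} 1 / h ^ 2 ≤ ∑_{N ≤ X} 1 / N + 2`; and `∑_{N ≤ X} 1 / N → ∞`. (`θ` instead of `1/4`.)

(The proof below uses the weights `1 / N ^ 2 - 1 / (N + 1) ^ 2` instead of `1 / N ^ 3`.)
-/

namespace PoolSR

open Finset Classical

private noncomputable def h2 (m : ℕ) : ℝ := ∑ k ∈ range m, 1 / ((k : ℝ) + 1) ^ 2

private theorem h2_mono {m n : ℕ} (h : m ≤ n) : h2 m ≤ h2 n :=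
  sum_le_sum_of_subset_of_nonneg (range_mono h) fun _ _ _ => by positivity

private theorem h2_le (m j : ℕ) (hm : 1 ≤ m) : h2 (m + j) ≤ h2 m + 1 / m - 1 / (m + j) := by
  induction j with
  | zero => simp
  | succ j ih =>
    have h1 : h2 (m + (j + 1)) = h2 (m + j) + 1 / (((m + j : ℕ) : ℝ) + 1) ^ 2 := by
      unfold h2
      rw [← add_assoc, sum_range_succ]
    rw [h1]
    have hM : (0 : ℝ) < (m : ℝ) + j := by
      have : (1 : ℝ) ≤ m := by exact_mod_cast hm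
      positivity
    have h3 : 1 / (((m + j : ℕ) : ℝ) + 1) ^ 2 ≤ 1 / ((m : ℝ) + j) - 1 / ((m : ℝ) + (j + 1 : ℕ)) := by
      push_cast
      rw [div_sub_div _ _ hM.ne' (by positivity), div_le_div_iff₀ (by positivity) (by positivity)]
      nlinarith
    linarith

private theorem h2_bdd : BddAbove (Set.range h2) := by
  refine ⟨2, ?_⟩
  rintro _ ⟨m, rfl⟩
  have h1 : h2 1 = 1 := by simp [h2]
  rcases Nat.eq_zero_or_pos m with rfl | hm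
  · simp [h2]
  · obtain ⟨j, rfl⟩ := Nat.exists_eq_add_of_le hm
    have := h2_le 1 j le_rfl
    rw [h1] at this
    have h3 : (0 : ℝ) ≤ 1 / ((1 : ℕ) + j) := by positivity
    push_cast at this h3
    linarith

private noncomputable def zet : ℝ := ⨆ m, h2 m

private theorem le_zet (m : ℕ) : h2 m ≤ zet := le_ciSup h2_bdd m

private theorem one_le_zet : 1 ≤ zet := by
  have h1 : h2 1 = 1 := by simp [h2]
  rw [← h1]
  exact le_zet 1

private theorem zet_le (m : ℕ) (hm : 1 ≤ m) : zet ≤ h2 m + 1 / m := by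
  refine ciSup_le fun n => ?_
  rcases le_total n m with h | h
  · have := h2_mono h
    have h3 : (0 : ℝ) ≤ 1 / m := by positivity
    linarith
  · obtain ⟨j, rfl⟩ := Nat.exists_eq_add_of_le h
    have := h2_le m j hm
    have h3 : (0 : ℝ) ≤ 1 / ((m : ℝ) + j) := by positivity
    linarith

private noncomputable def wt (N : ℕ) : ℝ := 1 / ((N : ℝ) + 1) ^ 2 - 1 / ((N : ℝ) + 2) ^ 2

private theorem wt_nonneg (N : ℕ) : 0 ≤ wt N := by
  unfold wt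
  rw [sub_nonneg]
  apply one_div_le_one_div_of_le (by positivity)
  have : (0 : ℝ) ≤ N := Nat.cast_nonneg N
  nlinarith

private theorem sum_wt (h : ℕ) (hh : 1 ≤ h) (X : ℕ) :
    ∑ N ∈ range X, wt N * (((N + 1) / h : ℕ) : ℝ) =
      h2 (X / h) / (h : ℝ) ^ 2 - ((X / h : ℕ) : ℝ) / ((X : ℝ) + 1) ^ 2 := by
  have hh0 : (h : ℝ) ≠ 0 := by
    have : (1 : ℝ) ≤ h := by exact_mod_cast hh
    positivity
  induction X with
  | zero => simp [h2]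
  | succ X ih =>
    rw [sum_range_succ, ih, Nat.succ_div]
    have hX1 : ((X : ℝ) + 1) ≠ 0 := by positivity
    have hX2 : ((X : ℝ) + 2) ≠ 0 := by positivity
    by_cases hd : h ∣ X + 1
    · rw [if_pos hd]
      have h1 : (X / h + 1) * h = X + 1 := by
        have h2 := @Nat.succ_div X h
        rw [if_pos hd] at h2
        have h3 := Nat.div_mul_cancel hd
        rwa [h2] at h3
      have h1' : (((X / h : ℕ) : ℝ) + 1) * h = X + 1 := by exact_mod_cast h1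
      have h3 : h2 (X / h + 1) = h2 (X / h) + 1 / (((X / h : ℕ) : ℝ) + 1) ^ 2 := by
        unfold h2
        rw [sum_range_succ]
      have h4 : 1 / (((X / h : ℕ) : ℝ) + 1) ^ 2 / (h : ℝ) ^ 2 = 1 / ((X : ℝ) + 1) ^ 2 := by
        rw [← h1', mul_pow, div_div]
      rw [h3, add_div, h4]
      unfold wt
      push_cast
      ring
    · rw [if_neg hd, add_zero]
      unfold wt
      push_cast
      ring

private theorem fibc {a b N : ℕ} (ha : 1 ≤ a) (hb : 1 ≤ b) (hab : a.Coprime b)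
    (P : ℕ → ℕ → Prop) (hP : ∀ k a b : ℕ, 1 ≤ k → (P (k * a) (k * b) ↔ P a b)) (hPab : P a b) :
    #{p ∈ (Icc 1 N ×ˢ Icc 1 N).filter (fun p => P p.1 p.2) |
      (p.1 / p.1.gcd p.2, p.2 / p.1.gcd p.2) = (a, b)} = N / max a b := by
  have hmax : 1 ≤ max a b := le_max_of_le_left ha
  have h1 : {p ∈ (Icc 1 N ×ˢ Icc 1 N).filter (fun p => P p.1 p.2) |
      (p.1 / p.1.gcd p.2, p.2 / p.1.gcd p.2) = (a, b)} =
      (Icc 1 (N / max a b)).image (fun k => (k * a, k * b)) := by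
    ext ⟨x, y⟩
    simp only [mem_filter, mem_product, mem_Icc, mem_image, Prod.mk.injEq]
    constructor
    · rintro ⟨⟨⟨⟨hx, hxN⟩, hy, hyN⟩, hPxy⟩, hxa, hyb⟩
      have hg : 1 ≤ x.gcd y := Nat.gcd_pos_of_pos_left _ hx
      have h2 : x.gcd y * a = x := by rw [← hxa]; exact Nat.mul_div_cancel' (Nat.gcd_dvd_left _ _)
      have h3 : x.gcd y * b = y := by rw [← hyb]; exact Nat.mul_div_cancel' (Nat.gcd_dvd_right _ _)
      refine ⟨x.gcd y, ⟨hg, ?_⟩, h2, h3⟩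
      rw [Nat.le_div_iff_mul_le hmax, ← Nat.mul_max_mul_left, h2, h3]
      exact max_le hxN hyN
    · rintro ⟨k, ⟨hk, hkN⟩, rfl, rfl⟩
      rw [Nat.le_div_iff_mul_le hmax, ← Nat.mul_max_mul_left] at hkN
      have hg : (k * a).gcd (k * b) = k := by
        rw [Nat.gcd_mul_left, hab.gcd_eq_one, mul_one]
      refine ⟨⟨⟨⟨Nat.mul_pos hk ha, (le_max_left _ _).trans hkN⟩, Nat.mul_pos hk hb,
        (le_max_right _ _).trans hkN⟩, (hP k a b hk).2 hPab⟩, ?_, ?_⟩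
      · rw [hg, Nat.mul_div_cancel_left _ hk]
      · rw [hg, Nat.mul_div_cancel_left _ hk]
  rw [h1, card_image_of_injective, Nat.card_Icc, Nat.add_sub_cancel]
  intro k l h
  have h2 : k * a = l * a := congrArg Prod.fst h
  exact Nat.eq_of_mul_eq_mul_right ha h2

private theorem fib (P : ℕ → ℕ → Prop) (hP : ∀ k a b : ℕ, 1 ≤ k → (P (k * a) (k * b) ↔ P a b))
    {N X : ℕ} (hNX : N ≤ X) :
    #{p ∈ Icc 1 N ×ˢ Icc 1 N | P p.1 p.2} =
      ∑ p ∈ (Icc 1 X ×ˢ Icc 1 X).filter (fun p => p.1.Coprime p.2 ∧ P p.1 p.2),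
        N / max p.1 p.2 := by
  rw [card_eq_sum_card_fiberwise (f := fun p : ℕ × ℕ => (p.1 / p.1.gcd p.2, p.2 / p.1.gcd p.2))
    (t := (Icc 1 X ×ˢ Icc 1 X).filter (fun p => p.1.Coprime p.2 ∧ P p.1 p.2))]
  · refine sum_congr rfl fun p hp => ?_
    obtain ⟨a, b⟩ := p
    simp only [mem_filter, mem_product, mem_Icc] at hp
    exact fibc hp.1.1.1 hp.1.2.1 hp.2.1 P hP hp.2.2
  · rintro ⟨x, y⟩ hp
    simp only [coe_filter, mem_product, mem_Icc, Set.mem_ofPred_eq] at hp ⊢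
    obtain ⟨⟨⟨hx, hxN⟩, hy, hyN⟩, hPxy⟩ := hp
    have hg : 1 ≤ x.gcd y := Nat.gcd_pos_of_pos_left _ hx
    have h2 : x.gcd y * (x / x.gcd y) = x := Nat.mul_div_cancel' (Nat.gcd_dvd_left _ _)
    have h3 : x.gcd y * (y / x.gcd y) = y := Nat.mul_div_cancel' (Nat.gcd_dvd_right _ _)
    refine ⟨⟨⟨Nat.div_pos (Nat.gcd_le_left _ hx) hg, (Nat.div_le_self _ _).trans (hxN.trans hNX)⟩,
      Nat.div_pos (Nat.gcd_le_right _ hy) hg, (Nat.div_le_self _ _).trans (hyN.trans hNX)⟩,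
      Nat.coprime_div_gcd_div_gcd hg, ?_⟩
    rw [← hP (x.gcd y) _ _ hg, h2, h3]
    exact hPxy

private theorem main_eq (P : ℕ → ℕ → Prop)
    (hP : ∀ k a b : ℕ, 1 ≤ k → (P (k * a) (k * b) ↔ P a b)) (X : ℕ) :
    ∑ N ∈ range X, wt N * (#{p ∈ Icc 1 (N + 1) ×ˢ Icc 1 (N + 1) | P p.1 p.2} : ℝ) =
      ∑ p ∈ (Icc 1 X ×ˢ Icc 1 X).filter (fun p => p.1.Coprime p.2 ∧ P p.1 p.2),
        (h2 (X / max p.1 p.2) / ((max p.1 p.2 : ℕ) : ℝ) ^ 2 -
          ((X / max p.1 p.2 : ℕ) : ℝ) / ((X : ℝ) + 1) ^ 2) := by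
  have h1 : ∀ N ∈ range X, wt N * (#{p ∈ Icc 1 (N + 1) ×ˢ Icc 1 (N + 1) | P p.1 p.2} : ℝ) =
      ∑ p ∈ (Icc 1 X ×ˢ Icc 1 X).filter (fun p => p.1.Coprime p.2 ∧ P p.1 p.2),
        wt N * (((N + 1) / max p.1 p.2 : ℕ) : ℝ) := by
    intro N hN
    rw [fib P hP (Nat.succ_le_of_lt (mem_range.1 hN)), ← mul_sum]
    push_cast
    rfl
  rw [sum_congr rfl h1, sum_comm]
  refine sum_congr rfl fun p hp => ?_
  simp only [mem_filter, mem_product, mem_Icc] at hp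
  exact sum_wt _ (le_max_of_le_left hp.1.1.1) X

private theorem sum_max (X : ℕ) :
    ∑ p ∈ Icc 1 X ×ˢ Icc 1 X, 1 / ((max p.1 p.2 : ℕ) : ℝ) ≤ 2 * X := by
  have h0 : ∀ a ∈ Icc 1 X, ∑ b ∈ Icc 1 X, (if b ≤ a then 1 / (a : ℝ) else 0) ≤ 1 := by
    intro a ha
    rw [mem_Icc] at ha
    rw [← sum_filter]
    have h1 : (Icc 1 X).filter (fun b => b ≤ a) = Icc 1 a := by
      ext b
      simp only [mem_filter, mem_Icc]
      omega
    rw [h1, sum_const, Nat.card_Icc, Nat.add_sub_cancel, nsmul_eq_mul]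
    have : (1 : ℝ) ≤ a := by exact_mod_cast ha.1
    rw [mul_one_div, div_self (by positivity)]
  have h1 : ∀ p ∈ Icc 1 X ×ˢ Icc 1 X, 1 / ((max p.1 p.2 : ℕ) : ℝ) ≤
      (if p.2 ≤ p.1 then 1 / (p.1 : ℝ) else 0) + (if p.1 ≤ p.2 then 1 / (p.2 : ℝ) else 0) := by
    intro p _
    have e1 : (0 : ℝ) ≤ 1 / (p.1 : ℝ) := by positivity
    have e2 : (0 : ℝ) ≤ 1 / (p.2 : ℝ) := by positivity
    rcases le_total p.2 p.1 with h | h
    · rw [max_eq_left h, if_pos h]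
      split_ifs
      · linarith
      · linarith
    · rw [max_eq_right h, if_pos h]
      split_ifs
      · linarith
      · linarith
  refine (sum_le_sum h1).trans ?_
  rw [sum_add_distrib, sum_product, sum_product_right]
  have h2 : ∑ x ∈ Icc 1 X, ∑ y ∈ Icc 1 X, (if y ≤ x then 1 / (x : ℝ) else 0) ≤ X := by
    refine (sum_le_sum h0).trans ?_
    rw [sum_const, Nat.card_Icc, Nat.add_sub_cancel, nsmul_eq_mul, mul_one]
  have e : (2 : ℝ) * X = X + X := by ring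
  rw [e]
  exact add_le_add h2 h2

private theorem lower (X h : ℕ) (hh : 1 ≤ h) (hX : h ≤ X) :
    zet / (h : ℝ) ^ 2 - 3 / X * (1 / (h : ℝ)) ≤
      h2 (X / h) / (h : ℝ) ^ 2 - ((X / h : ℕ) : ℝ) / ((X : ℝ) + 1) ^ 2 := by
  have hm : 1 ≤ X / h := Nat.div_pos hX hh
  have hh1 : (1 : ℝ) ≤ h := by exact_mod_cast hh
  have hX1 : (1 : ℝ) ≤ X := by exact_mod_cast hh.trans hX
  have hm1 : (1 : ℝ) ≤ (X / h : ℕ) := by exact_mod_cast hm
  have h0 : (0 : ℝ) < h := by linarith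
  have hX0 : (0 : ℝ) < X := by linarith
  have hm0 : (0 : ℝ) < (X / h : ℕ) := by linarith
  have h1 := zet_le (X / h) hm
  have h3 : (X : ℝ) ≤ 2 * ((X / h : ℕ) : ℝ) * h := by
    have h4 := Nat.div_add_mod X h
    have h4' := Nat.mod_lt X hh
    have h5 : X ≤ 2 * (X / h) * h := by nlinarith
    exact_mod_cast h5
  have h6 : ((X / h : ℕ) : ℝ) * h ≤ X := by exact_mod_cast Nat.div_mul_le_self X h
  have h7 : 1 / ((X / h : ℕ) : ℝ) / (h : ℝ) ^ 2 ≤ 2 / X * (1 / (h : ℝ)) := by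
    rw [div_div, div_mul_div_comm, mul_one, div_le_div_iff₀ (by positivity) (by positivity)]
    nlinarith [mul_le_mul_of_nonneg_right h3 h0.le]
  have h8 : ((X / h : ℕ) : ℝ) / ((X : ℝ) + 1) ^ 2 ≤ 1 / X * (1 / (h : ℝ)) := by
    rw [div_mul_div_comm, mul_one, div_le_div_iff₀ (by positivity) (by positivity)]
    nlinarith [mul_le_mul_of_nonneg_right h6 hX0.le]
  have h9 : zet / (h : ℝ) ^ 2 ≤ h2 (X / h) / (h : ℝ) ^ 2 + 1 / ((X / h : ℕ) : ℝ) / (h : ℝ) ^ 2 := by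
    rw [← add_div]
    exact div_le_div_of_nonneg_right h1 (by positivity)
  have h10 : 3 / (X : ℝ) * (1 / (h : ℝ)) = 2 / X * (1 / (h : ℝ)) + 1 / X * (1 / (h : ℝ)) := by ring
  rw [h10]
  linarith

theorem log_density (P : ℕ → ℕ → Prop) (hP : ∀ k a b : ℕ, 1 ≤ k → (P (k * a) (k * b) ↔ P a b))
    (θ : ℝ) (hθ : 0 ≤ θ)
    (hG : ∀ ε : ℝ, 0 < ε → ∃ N₀ : ℕ, ∀ N : ℕ, N₀ ≤ N →
      (θ - ε) * (N : ℝ) ^ 2 ≤ (#{p ∈ Icc 1 N ×ˢ Icc 1 N | P p.1 p.2} : ℝ)) :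
    ∀ ε : ℝ, 0 < ε → ∃ X₀ : ℕ, ∀ X : ℕ, X₀ ≤ X →
      (θ - ε) * ∑ p ∈ (Icc 1 X ×ˢ Icc 1 X).filter (fun p => p.1.Coprime p.2),
          1 / ((max p.1 p.2 : ℕ) : ℝ) ^ 2 ≤
        ∑ p ∈ (Icc 1 X ×ˢ Icc 1 X).filter (fun p => p.1.Coprime p.2 ∧ P p.1 p.2),
          1 / ((max p.1 p.2 : ℕ) : ℝ) ^ 2 := by
  intro ε hε
  have hz := one_le_zet
  by_cases hθε : θ - ε ≤ 0
  · refine ⟨0, fun X _ => ?_⟩
    refine (mul_nonpos_of_nonpos_of_nonneg hθε (sum_nonneg fun _ _ => by positivity)).trans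
      (sum_nonneg fun _ _ => by positivity)
  push Not at hθε
  obtain ⟨N₀, hN₀⟩ := hG (ε / 2) (by positivity)
  set C₀ : ℝ := ∑ N ∈ range N₀, wt N * ((N : ℝ) + 1) ^ 2 with hC₀
  have hC₀0 : 0 ≤ C₀ := sum_nonneg fun N _ => mul_nonneg (wt_nonneg N) (by positivity)
  -- divergence
  have hdiv : ∀ B : ℝ, ∃ X₀ : ℕ, ∀ X : ℕ, X₀ ≤ X → B ≤ ∑ N ∈ range X, wt N * ((N : ℝ) + 1) ^ 2 := by
    intro B
    have h1 := Real.tendsto_sum_range_one_div_nat_succ_atTop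
    obtain ⟨X₀, hX₀⟩ := (Filter.tendsto_atTop_atTop.1 h1) (2 * B)
    refine ⟨X₀, fun X hX => ?_⟩
    have h2 := hX₀ X hX
    have h3 : ∑ i ∈ range X, 1 / ((i : ℝ) + 1) ≤ ∑ N ∈ range X, 2 * (wt N * ((N : ℝ) + 1) ^ 2) := by
      refine sum_le_sum fun N _ => ?_
      have hN : (0 : ℝ) ≤ N := Nat.cast_nonneg N
      have e : wt N * ((N : ℝ) + 1) ^ 2 = (2 * N + 3) / ((N : ℝ) + 2) ^ 2 := by
        unfold wt
        field_simp
        ring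
      rw [e, mul_div_assoc', div_le_div_iff₀ (by positivity) (by positivity)]
      nlinarith
    rw [← mul_sum] at h3
    linarith
  obtain ⟨X₁, hX₁⟩ := hdiv ((θ - ε / 2) * (6 + C₀) * (2 / ε))
  refine ⟨max X₁ (N₀ + 1), fun X hX => ?_⟩
  have hXX₁ : X₁ ≤ X := (le_max_left _ _).trans hX
  have hXN : N₀ + 1 ≤ X := (le_max_right _ _).trans hX
  have hX0 : (0 : ℝ) < X := by exact_mod_cast (Nat.succ_pos N₀).trans_le hXN
  set A := ∑ p ∈ (Icc 1 X ×ˢ Icc 1 X).filter (fun p => p.1.Coprime p.2),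
          1 / ((max p.1 p.2 : ℕ) : ℝ) ^ 2 with hA
  set G := ∑ p ∈ (Icc 1 X ×ˢ Icc 1 X).filter (fun p => p.1.Coprime p.2 ∧ P p.1 p.2),
          1 / ((max p.1 p.2 : ℕ) : ℝ) ^ 2 with hGd
  -- upper bounds
  have hup : ∀ R : ℕ → ℕ → Prop, (∀ k a b : ℕ, 1 ≤ k → (R (k * a) (k * b) ↔ R a b)) →
      ∑ N ∈ range X, wt N * (#{p ∈ Icc 1 (N + 1) ×ˢ Icc 1 (N + 1) | R p.1 p.2} : ℝ) ≤
      zet * ∑ p ∈ (Icc 1 X ×ˢ Icc 1 X).filter (fun p => p.1.Coprime p.2 ∧ R p.1 p.2),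
          1 / ((max p.1 p.2 : ℕ) : ℝ) ^ 2 := by
    intro R hR
    rw [main_eq R hR X, mul_sum]
    refine sum_le_sum fun p _ => ?_
    have h1 : h2 (X / max p.1 p.2) / ((max p.1 p.2 : ℕ) : ℝ) ^ 2 ≤ zet * (1 / ((max p.1 p.2 : ℕ) : ℝ) ^ 2) := by
      rw [mul_one_div]
      exact div_le_div_of_nonneg_right (le_zet _) (by positivity)
    have h3 : (0 : ℝ) ≤ ((X / max p.1 p.2 : ℕ) : ℝ) / ((X : ℝ) + 1) ^ 2 := by positivity
    linarith
  obtain ⟨T, hT⟩ : ∃ T : ℕ → ℕ → Prop, ∀ a b, T a b := ⟨fun _ _ => True, fun _ _ => trivial⟩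
  have hTk : ∀ k a b : ℕ, 1 ≤ k → (T (k * a) (k * b) ↔ T a b) := fun k a b _ =>
    ⟨fun _ => hT _ _, fun _ => hT _ _⟩
  have hall : ∀ N : ℕ, (#{p ∈ Icc 1 (N + 1) ×ˢ Icc 1 (N + 1) | T p.1 p.2} : ℝ) =
      ((N : ℝ) + 1) ^ 2 := by
    intro N
    rw [filter_true_of_mem (fun _ _ => hT _ _), card_product, Nat.card_Icc, Nat.add_sub_cancel]
    push_cast
    ring
  have hAeq : ∑ p ∈ (Icc 1 X ×ˢ Icc 1 X).filter (fun p => p.1.Coprime p.2 ∧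
      T p.1 p.2), 1 / ((max p.1 p.2 : ℕ) : ℝ) ^ 2 = A := by
    rw [hA]
    refine sum_congr ?_ fun _ _ => rfl
    exact filter_congr fun p _ => ⟨fun h => h.1, fun h => ⟨h, hT _ _⟩⟩
  have hupA : ∑ N ∈ range X, wt N * ((N : ℝ) + 1) ^ 2 ≤ zet * A := by
    have h1 := hup T hTk
    rw [hAeq] at h1
    refine le_trans (le_of_eq ?_) h1
    exact sum_congr rfl fun N _ => by rw [hall N]
  have hlowA : zet * A - 6 ≤ ∑ N ∈ range X, wt N * ((N : ℝ) + 1) ^ 2 := by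
    have h1 := main_eq T hTk X
    have h3 : ∑ N ∈ range X, wt N * ((N : ℝ) + 1) ^ 2 = ∑ N ∈ range X,
        wt N * (#{p ∈ Icc 1 (N + 1) ×ˢ Icc 1 (N + 1) | T p.1 p.2} : ℝ) :=
      sum_congr rfl fun N _ => by rw [hall N]
    rw [h3, h1]
    have h4 : ∑ p ∈ (Icc 1 X ×ˢ Icc 1 X).filter (fun p => p.1.Coprime p.2 ∧
        T p.1 p.2), (zet / ((max p.1 p.2 : ℕ) : ℝ) ^ 2 -
          3 / X * (1 / ((max p.1 p.2 : ℕ) : ℝ))) ≤
        ∑ p ∈ (Icc 1 X ×ˢ Icc 1 X).filter (fun p => p.1.Coprime p.2 ∧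
        T p.1 p.2), (h2 (X / max p.1 p.2) / ((max p.1 p.2 : ℕ) : ℝ) ^ 2 -
          ((X / max p.1 p.2 : ℕ) : ℝ) / ((X : ℝ) + 1) ^ 2) := by
      refine sum_le_sum fun p hp => ?_
      simp only [mem_filter, mem_product, mem_Icc] at hp
      exact lower X _ (le_max_of_le_left hp.1.1.1) (max_le hp.1.1.2 hp.1.2.2)
    refine le_trans ?_ h4
    rw [sum_sub_distrib, ← mul_sum]
    have h5 : ∑ p ∈ (Icc 1 X ×ˢ Icc 1 X).filter (fun p => p.1.Coprime p.2 ∧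
        T p.1 p.2), zet / ((max p.1 p.2 : ℕ) : ℝ) ^ 2 = zet * A := by
      rw [← hAeq, mul_sum]
      exact sum_congr rfl fun p _ => by rw [mul_one_div]
    rw [h5]
    have h6 : ∑ p ∈ (Icc 1 X ×ˢ Icc 1 X).filter (fun p => p.1.Coprime p.2 ∧
        T p.1 p.2), 1 / ((max p.1 p.2 : ℕ) : ℝ) ≤ 2 * X :=
      (sum_le_sum_of_subset_of_nonneg (filter_subset _ _) fun _ _ _ => by positivity).trans
        (sum_max X)
    have h7 : 3 / (X : ℝ) * ∑ p ∈ (Icc 1 X ×ˢ Icc 1 X).filter (fun p => p.1.Coprime p.2 ∧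
        T p.1 p.2), 1 / ((max p.1 p.2 : ℕ) : ℝ) ≤ 3 / (X : ℝ) * (2 * X) :=
      mul_le_mul_of_nonneg_left h6 (by positivity)
    have h8 : 3 / (X : ℝ) * (2 * X) = 6 := by
      field_simp
      norm_num
    rw [h8] at h7
    linarith
  -- the good pairs
  have hlowG : (θ - ε / 2) * (∑ N ∈ range X, wt N * ((N : ℝ) + 1) ^ 2 - C₀) ≤
      ∑ N ∈ range X, wt N * (#{p ∈ Icc 1 (N + 1) ×ˢ Icc 1 (N + 1) | P p.1 p.2} : ℝ) := by
    have h1 : ∑ N ∈ range X, wt N * ((N : ℝ) + 1) ^ 2 =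
        C₀ + ∑ N ∈ Ico N₀ X, wt N * ((N : ℝ) + 1) ^ 2 := by
      rw [hC₀, sum_range_add_sum_Ico _ (by omega)]
    have h3 : ∑ N ∈ range X, wt N * (#{p ∈ Icc 1 (N + 1) ×ˢ Icc 1 (N + 1) | P p.1 p.2} : ℝ) =
        ∑ N ∈ range N₀, wt N * (#{p ∈ Icc 1 (N + 1) ×ˢ Icc 1 (N + 1) | P p.1 p.2} : ℝ) +
        ∑ N ∈ Ico N₀ X, wt N * (#{p ∈ Icc 1 (N + 1) ×ˢ Icc 1 (N + 1) | P p.1 p.2} : ℝ) := by
      rw [sum_range_add_sum_Ico _ (by omega)]
    rw [h1, h3, add_sub_cancel_left, mul_sum]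
    have h4 : (0 : ℝ) ≤ ∑ N ∈ range N₀,
        wt N * (#{p ∈ Icc 1 (N + 1) ×ˢ Icc 1 (N + 1) | P p.1 p.2} : ℝ) :=
      sum_nonneg fun N _ => mul_nonneg (wt_nonneg N) (Nat.cast_nonneg _)
    have h5 : ∑ N ∈ Ico N₀ X, (θ - ε / 2) * (wt N * ((N : ℝ) + 1) ^ 2) ≤
        ∑ N ∈ Ico N₀ X, wt N * (#{p ∈ Icc 1 (N + 1) ×ˢ Icc 1 (N + 1) | P p.1 p.2} : ℝ) := by
      refine sum_le_sum fun N hN => ?_
      rw [mem_Ico] at hN
      have h6 := hN₀ (N + 1) (by omega)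
      push_cast at h6
      have h7 := mul_le_mul_of_nonneg_left h6 (wt_nonneg N)
      calc (θ - ε / 2) * (wt N * ((N : ℝ) + 1) ^ 2) =
          wt N * ((θ - ε / 2) * ((N : ℝ) + 1) ^ 2) := by ring
        _ ≤ _ := h7
    linarith
  have hupG := hup P hP
  rw [← hGd] at hupG
  have hB := hX₁ X hXX₁
  set D := ∑ N ∈ range X, wt N * ((N : ℝ) + 1) ^ 2 with hD
  have hθ2 : 0 < θ - ε / 2 := by linarith
  have h1 : (θ - ε / 2) * (zet * A - 6 - C₀) ≤ zet * G := by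
    refine le_trans ?_ (hlowG.trans hupG)
    exact mul_le_mul_of_nonneg_left (by linarith) hθ2.le
  have h3 : (θ - ε / 2) * (6 + C₀) ≤ ε / 2 * (zet * A) := by
    have h4 := hB.trans hupA
    have h5 := mul_le_mul_of_nonneg_left h4 (by positivity : 0 ≤ ε / 2)
    have h6 : ε / 2 * ((θ - ε / 2) * (6 + C₀) * (2 / ε)) = (θ - ε / 2) * (6 + C₀) := by
      field_simp
    rw [h6] at h5
    exact h5
  have h4 : zet * ((θ - ε) * A) ≤ zet * G := by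
    have h5 : zet * ((θ - ε) * A) = (θ - ε / 2) * (zet * A - 6 - C₀) + (θ - ε / 2) * (6 + C₀) -
      ε / 2 * (zet * A) := by ring
    rw [h5]
    linarith
  exact le_of_mul_le_mul_left h4 (by linarith)

end PoolSR
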