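import Pool.Agent.Work.MP_1a023c_nt.Ratios
import Pool.Agent.Work.MP_1a023c_nt.LogDens

/-!
# Module Dens : a quarter of the positive rationals

`ratios` with `S = Icc 1 N` (`ShiftRatio a b` implies that the set of pairs below is infinite), pairs in
`offDiag` only: `(1/K - ε/2) N (N - 1) ≥ (1/K - ε) N ^ 2` for large `N`. Then `log_density` with `θ = 1/K` and
`P a b` = the set below is infinite (`(p+1) k b = (q+1) k a` iff `(p+1) b = (q+1) a`).
-/

namespace PoolSR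

open Finset Classical PoolQ4

private theorem shiftRatio_infinite {a b : ℕ} (h : ShiftRatio a b) :
    {s : ℕ × ℕ | s.1.Prime ∧ s.2.Prime ∧ (s.1 + 1) * b = (s.2 + 1) * a}.Infinite := by
  intro hfin
  obtain ⟨M, hM⟩ := (hfin.image Prod.fst).bddAbove
  obtain ⟨p, q, h1, -, h3, h4, h5⟩ := h (M + 1)
  have := hM ⟨(p, q), ⟨h3, h4, h5⟩, rfl⟩
  simp only at this
  omega

theorem dens (K : ℕ) (hK : 1 ≤ K) (HC : ClusterPlus K) (ε : ℝ) (hε : 0 < ε) :
    ∃ X₀ : ℕ, ∀ X : ℕ, X₀ ≤ X →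
      (1 / (K : ℝ) - ε) * ∑ p ∈ (Icc 1 X ×ˢ Icc 1 X).filter (fun p => p.1.Coprime p.2),
          1 / ((max p.1 p.2 : ℕ) : ℝ) ^ 2 ≤
        ∑ p ∈ (Icc 1 X ×ˢ Icc 1 X).filter (fun p => p.1.Coprime p.2 ∧
            {s : ℕ × ℕ | s.1.Prime ∧ s.2.Prime ∧ (s.1 + 1) * p.2 = (s.2 + 1) * p.1}.Infinite),
          1 / ((max p.1 p.2 : ℕ) : ℝ) ^ 2 := by
  refine log_density (fun a b =>
    {s : ℕ × ℕ | s.1.Prime ∧ s.2.Prime ∧ (s.1 + 1) * b = (s.2 + 1) * a}.Infinite) ?_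
    (1 / (K : ℝ)) (by positivity) ?_ ε hε
  · intro k a b hk
    have e : {s : ℕ × ℕ | s.1.Prime ∧ s.2.Prime ∧ (s.1 + 1) * (k * b) = (s.2 + 1) * (k * a)} =
        {s : ℕ × ℕ | s.1.Prime ∧ s.2.Prime ∧ (s.1 + 1) * b = (s.2 + 1) * a} := by
      ext s
      simp only [Set.mem_setOf_eq]
      refine and_congr_right fun _ => and_congr_right fun _ => ?_
      rw [show (s.1 + 1) * (k * b) = k * ((s.1 + 1) * b) by ring,
        show (s.2 + 1) * (k * a) = k * ((s.2 + 1) * a) by ring]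
      exact Nat.mul_right_inj (by omega)
    rw [e]
  · intro δ hδ
    obtain ⟨k₀, h⟩ := ratios K hK HC (δ / 2) (half_pos hδ)
    refine ⟨max k₀ ⌈2 / δ⌉₊, fun N hN => ?_⟩
    have hN1 : k₀ ≤ N := le_trans (le_max_left _ _) hN
    have hN2 : 2 / δ ≤ N := (Nat.le_ceil _).trans (by
      exact_mod_cast le_trans (le_max_right _ _) hN)
    have h1 := h (Icc 1 N) (fun a ha => (mem_Icc.1 ha).1) (by rw [Nat.card_Icc]; omega)
    have hcard : (#(Icc 1 N) : ℝ) = N := by rw [Nat.card_Icc]; simp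
    rw [hcard] at h1
    have h2 : (#{p ∈ (Icc 1 N).offDiag | ShiftRatio p.1 p.2} : ℝ) ≤
        (#{p ∈ Icc 1 N ×ˢ Icc 1 N | {s : ℕ × ℕ | s.1.Prime ∧ s.2.Prime ∧
          (s.1 + 1) * p.2 = (s.2 + 1) * p.1}.Infinite} : ℝ) := by
      refine Nat.cast_le.2 (card_le_card fun p hp => ?_)
      rw [mem_filter, mem_offDiag] at hp
      rw [mem_filter, mem_product]
      exact ⟨⟨hp.1.1, hp.1.2.1⟩, shiftRatio_infinite hp.2⟩
    refine le_trans ?_ (h1.trans h2)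
    have hNpos : (0 : ℝ) < N := lt_of_lt_of_le (by positivity) hN2
    have hK1 : 1 / (K : ℝ) ≤ 1 := by
      rw [div_le_one (by positivity)]
      exact_mod_cast hK
    have h3 : 2 ≤ δ * N := by
      rw [div_le_iff₀ hδ] at hN2
      linarith
    nlinarith [mul_nonneg hNpos.le (sub_nonneg.2 h3), mul_nonneg hNpos.le (sub_nonneg.2 hK1),
      mul_pos hδ hNpos]

end PoolSR
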