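import Pool.Agent.Work.MP_1a023c_nt.Common
import Pool.Agent.Work.MP_7d1693_pr.RAM

/-!
# Common powers : with the Ramsey number
-/

namespace PoolRat

open Finset Classical PoolCL PoolQ4 PoolFlat

theorem ramsey_exists (k m : ℕ) : ∃ N : ℕ, ∀ χ : Sym2 (Fin N) → Fin k, ∃ S : Finset (Fin N), #S = m ∧
    ∃ c : Fin k, ∀ x ∈ S, ∀ y ∈ S, x ≠ y → χ s(x, y) = c := by
  obtain ⟨R, hR⟩ := Pool.Agent.Work.MP_7d1693_pr.ramsey (Fin k) m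
  refine ⟨R + 1, fun χ => ?_⟩
  obtain ⟨s, hs, hsm, c, hc⟩ := hR (fun x y => χ s(Fin.ofNat (R + 1) x, Fin.ofNat (R + 1) y))
  have hlt : ∀ x ∈ s, x < R + 1 := fun x hx => by
    have := mem_range.1 (hs hx)
    omega
  have hinj : Set.InjOn (fun x => Fin.ofNat (R + 1) x) (s : Set ℕ) := by
    intro x hx y hy hxy
    have h1 := congrArg Fin.val hxy
    simp only [Fin.val_ofNat] at h1
    rwa [Nat.mod_eq_of_lt (hlt x hx), Nat.mod_eq_of_lt (hlt y hy)] at h1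
  refine ⟨s.image (fun x => Fin.ofNat (R + 1) x), ?_, c, ?_⟩
  · rw [card_image_of_injOn hinj, hsm]
  · intro x hx y hy hxy
    obtain ⟨a, ha, rfl⟩ := mem_image.1 hx
    obtain ⟨b, hb, rfl⟩ := mem_image.1 hy
    have hab : a ≠ b := fun h => hxy (by rw [h])
    rcases lt_or_gt_of_ne hab with h | h
    · exact hc a ha b hb h
    · rw [Sym2.eq_swap]
      exact hc b hb a ha h

theorem common_ramsey {K L : ℕ} (hK : 1 ≤ K) (hL : 1 ≤ L) (HC : ∀ e : ℤ, e = 1 ∨ e = -1 → CluE K L e)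
    (k : ℕ) (hk : 1 ≤ k) (ε : ℝ) (hε : 0 < ε) :
    ∃ J₀ : ℕ, ∀ (r : Fin k → ℚ) (e : Fin k → ℤ), (∀ i, 0 < r i) → (∀ i, e i = 1 ∨ e i = -1) →
      ∀ J : ℕ, J₀ ≤ J →
        (1 / (((sInf {N : ℕ | ∀ χ : Sym2 (Fin N) → Fin k, ∃ S : Finset (Fin N), #S = K + 1 ∧
          ∃ c : Fin k, ∀ x ∈ S, ∀ y ∈ S, x ≠ y → χ s(x, y) = c} : ℕ) : ℝ) - 1) - ε) * J ≤
        (#{j ∈ Icc 1 J | ∀ i, Rep (e i) (r i ^ j)} : ℝ) := by
  set N : ℕ := sInf {N : ℕ | ∀ χ : Sym2 (Fin N) → Fin k, ∃ S : Finset (Fin N), #S = K + 1 ∧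
          ∃ c : Fin k, ∀ x ∈ S, ∀ y ∈ S, x ≠ y → χ s(x, y) = c} with hN
  have hmem : ∀ χ : Sym2 (Fin N) → Fin k, ∃ S : Finset (Fin N), #S = K + 1 ∧
          ∃ c : Fin k, ∀ x ∈ S, ∀ y ∈ S, x ≠ y → χ s(x, y) = c :=
    Nat.sInf_mem (ramsey_exists k (K + 1))
  have hN2 : 2 ≤ N := by
    obtain ⟨S, hS, _⟩ := hmem (fun _ => ⟨0, hk⟩)
    have h1 : #S ≤ N := by
      have := card_le_univ S
      simpa using this
    omega
  obtain ⟨M, hM⟩ : ∃ M, N = M + 1 := ⟨N - 1, by omega⟩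
  clear_value N
  subst hM
  obtain ⟨J₀, h⟩ := common hK hL HC k M hk (by omega) hmem ε hε
  refine ⟨J₀, fun r e hr he J hJ => ?_⟩
  have h1 := h r e hr he J hJ
  push_cast
  rw [add_sub_cancel_right]
  exact h1

end PoolRat
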