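import Mathlib

/-!
# Trees of positive rationals with ratios in thick sets
-/

namespace PoolRat

open Finset

/-- multiplicative version of `thick_seq` -/
theorem thick_mul (T : ℚ → Prop) (hsymm : ∀ r, T r → T r⁻¹)
    (hT : ∀ D : ℕ, 0 < D → ∃ g : ℚ, 0 < g ∧ ∀ d ∈ D.divisors, T (g * d))
    (F : Finset ℚ) (hF : ∀ f ∈ F, 0 < f) (hFi : ∀ f ∈ F, f⁻¹ ∈ F) :
    ∀ K : ℕ, ∃ y : Fin K → ℚ, (∀ i, 0 < y i) ∧
      ∀ i j, i ≠ j → ∀ f ∈ F, T (y i / y j * f) ∧ y i / y j * f ≠ 1 := by
  classical
  intro K
  induction K with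
  | zero => exact ⟨fun i => i.elim0, fun i => i.elim0, fun i => i.elim0⟩
  | succ K ih =>
    obtain ⟨y, hy1, hy2⟩ := ih
    -- the multipliers f / y i
    set G : Finset ℚ := (F ×ˢ (univ : Finset (Fin K))).image (fun t => t.1 / y t.2) with hG
    have hGpos : ∀ x ∈ G, 0 < x := by
      intro x hx
      obtain ⟨t, ht, rfl⟩ := mem_image.1 hx
      exact div_pos (hF _ (mem_product.1 ht).1) (hy1 _)
    set m : ℕ := ∏ x ∈ G, x.den with hm
    have hm0 : 0 < m := prod_pos (fun x _ => x.den_pos)
    have hmq : (m : ℚ) ≠ 0 := by exact_mod_cast hm0.ne'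
    set u : ℚ → ℕ := fun x => x.num.toNat * (m / x.den) with hu
    have hux : ∀ x ∈ G, ((u x : ℕ) : ℚ) = x * m := by
      intro x hx
      have h1 : x.den ∣ m := dvd_prod_of_mem (fun x : ℚ => x.den) hx
      have h2 : ((x.num.toNat : ℕ) : ℚ) = x.num := by
        have : ((x.num.toNat : ℕ) : ℤ) = x.num :=
          Int.toNat_of_nonneg (Rat.num_pos.2 (hGpos x hx)).le
        exact_mod_cast congrArg (fun t : ℤ => (t : ℚ)) this
      have h3 : (x.den : ℚ) ≠ 0 := by exact_mod_cast x.den_nz
      simp only [hu]
      push_cast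
      rw [h2, Nat.cast_div h1 h3]
      conv_rhs => rw [← Rat.num_div_den x]
      ring
    have hu0 : ∀ x ∈ G, 0 < u x := by
      intro x hx
      have h1 : (0 : ℚ) < (u x : ℕ) := by
        rw [hux x hx]
        exact mul_pos (hGpos x hx) (by exact_mod_cast hm0)
      exact_mod_cast h1
    -- the values to be avoided
    set A : Finset ℚ := G.image (fun x => x⁻¹) with hA
    set D : ℕ := (∏ x ∈ G, u x) * 2 ^ (#A) with hD
    have hD0 : 0 < D := Nat.mul_pos (prod_pos hu0) (by positivity)
    obtain ⟨g, hg, hgT⟩ := hT D hD0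
    obtain ⟨s, hs, hsA⟩ : ∃ s ∈ range (#A + 1), g * m * 2 ^ s ∉ A := by
      by_contra hcon
      push Not at hcon
      have h1 : #((range (#A + 1)).image (fun s : ℕ => g * m * 2 ^ s)) ≤ #A :=
        card_le_card (fun x hx => by
          obtain ⟨s, hs, rfl⟩ := mem_image.1 hx
          exact hcon s hs)
      rw [card_image_of_injective, card_range] at h1
      · omega
      · intro a b hab
        have h2 : g * (m : ℚ) ≠ 0 := mul_ne_zero hg.ne' hmq
        have h3 := mul_left_cancel₀ h2 hab
        exact pow_right_injective₀ (by norm_num) (by norm_num) h3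
    set w : ℚ := g * m * 2 ^ s with hw
    have hw0 : 0 < w := by
      rw [hw]
      have : (0 : ℚ) < m := by exact_mod_cast hm0
      positivity
    have key : ∀ i : Fin K, ∀ f ∈ F, T (w / y i * f) ∧ w / y i * f ≠ 1 := by
      intro i f hf
      have h1 : f / y i ∈ G := mem_image.2 ⟨(f, i), mem_product.2 ⟨hf, mem_univ _⟩, rfl⟩
      have e1 : w / y i * f = w * (f / y i) := by ring
      constructor
      · have h2 : u (f / y i) * 2 ^ s ∈ D.divisors := by
          refine Nat.mem_divisors.2 ⟨?_, hD0.ne'⟩
          refine Nat.mul_dvd_mul (dvd_prod_of_mem u h1) (pow_dvd_pow _ ?_)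
          have := mem_range.1 hs
          omega
        have h3 := hgT _ h2
        have e2 : g * ((u (f / y i) * 2 ^ s : ℕ) : ℚ) = w / y i * f := by
          rw [e1]
          push_cast
          rw [hux _ h1, hw]
          ring
        rwa [e2] at h3
      · intro h2
        rw [e1] at h2
        have h3 : w = (f / y i)⁻¹ := eq_inv_of_mul_eq_one_left h2
        exact hsA (mem_image.2 ⟨_, h1, h3.symm⟩)
    refine ⟨Fin.snoc (α := fun _ => ℚ) y w, ?_, ?_⟩
    · intro i
      induction i using Fin.lastCases with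
      | last => simpa using hw0
      | cast i => simpa using hy1 i
    · intro i j hij f hf
      induction j using Fin.lastCases with
      | last =>
        induction i using Fin.lastCases with
        | last => exact absurd rfl hij
        | cast i =>
          simp only [Fin.snoc_last, Fin.snoc_castSucc]
          obtain ⟨h1, h2⟩ := key i f⁻¹ (hFi f hf)
          have e1 : (w / y i * f⁻¹)⁻¹ = y i / w * f := by
            rw [mul_inv, inv_div, inv_inv]
          constructor
          · have := hsymm _ h1
            rwa [e1] at this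
          · intro h3
            rw [← e1] at h3
            exact h2 (inv_eq_one.1 h3)
      | cast j =>
        induction i using Fin.lastCases with
        | last =>
          simp only [Fin.snoc_last, Fin.snoc_castSucc]
          exact key j f hf
        | cast i =>
          simp only [Fin.snoc_castSucc]
          exact hy2 i j (fun h => hij (by rw [h])) f hf

/-- leaves of a tree: the ratio of two leaves which branch at level `j` is in `T j` -/
theorem tree_mul (T : ℕ → ℚ → Prop) (hsymm : ∀ j r, T j r → T j r⁻¹) (K L : ℕ) (n : ℕ)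
    (hT : ∀ j < n, ∀ D : ℕ, 0 < D → ∃ g : ℚ, 0 < g ∧ ∀ d ∈ D.divisors, T j (g * d)) :
    ∃ h : (Fin n → Fin K) → Fin L → ℚ, (∀ t l, 0 < h t l) ∧ (∀ t, Function.Injective (h t)) ∧
      ∀ (t t' : Fin n → Fin K) (j : Fin n), t j ≠ t' j → (∀ i, j < i → t i = t' i) →
        ∀ l l', T j (h t l / h t' l') ∧ h t l ≠ h t' l' := by
  classical
  induction n with
  | zero =>
    refine ⟨fun _ l => (l : ℚ) + 1, fun _ l => by positivity, fun _ l l' hl => ?_, fun _ _ j => j.elim0⟩
    have : ((l : ℕ) : ℚ) = (l' : ℕ) := by simpa using hl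
    exact Fin.ext (by exact_mod_cast this)
  | succ n ih =>
    obtain ⟨h, h1, h2, h3⟩ := ih (fun j hj => hT j (hj.trans (Nat.lt_succ_self n)))
    set F : Finset ℚ := (univ : Finset (((Fin n → Fin K) × Fin L) × ((Fin n → Fin K) × Fin L))).image
      (fun s => h s.1.1 s.1.2 / h s.2.1 s.2.2) with hF
    obtain ⟨y, hy1, hy2⟩ := thick_mul (T n) (hsymm n) (hT n (Nat.lt_succ_self n)) F (by
      intro f hf
      obtain ⟨s, _, rfl⟩ := mem_image.1 hf
      exact div_pos (h1 _ _) (h1 _ _)) (by
      intro f hf
      obtain ⟨s, _, rfl⟩ := mem_image.1 hf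
      exact mem_image.2 ⟨(s.2, s.1), mem_univ _, by rw [inv_div]⟩) K
    refine ⟨fun t l => y (t (Fin.last n)) * h (Fin.init t) l, ?_, ?_, ?_⟩
    · intro t l
      exact mul_pos (hy1 _) (h1 _ _)
    · intro t l l' hl
      exact h2 _ (mul_left_cancel₀ (hy1 _).ne' hl)
    · intro t t' j hj hji l l'
      induction j using Fin.lastCases with
      | last =>
        have hf : h (Fin.init t) l / h (Fin.init t') l' ∈ F :=
          mem_image.2 ⟨((Fin.init t, l), (Fin.init t', l')), mem_univ _, rfl⟩
        obtain ⟨h4, h5⟩ := hy2 _ _ hj _ hf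
        have e1 : y (t (Fin.last n)) * h (Fin.init t) l / (y (t' (Fin.last n)) * h (Fin.init t') l') =
            y (t (Fin.last n)) / y (t' (Fin.last n)) * (h (Fin.init t) l / h (Fin.init t') l') :=
          mul_div_mul_comm _ _ _ _
        refine ⟨?_, fun h6 => h5 ?_⟩
        · simp only [Fin.val_last]
          rw [e1]
          exact h4
        · simp only at h6
          rw [← e1, h6]
          exact div_self (mul_pos (hy1 _) (h1 _ _)).ne'
      | cast j =>
        have hl : t (Fin.last n) = t' (Fin.last n) := hji _ (Fin.castSucc_lt_last j)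
        have h4 := h3 (Fin.init t) (Fin.init t') j hj (fun i hi => by
          have := hji i.castSucc (Fin.castSucc_lt_castSucc_iff.2 hi)
          exact this) l l'
        have hy0 := (hy1 (t' (Fin.last n))).ne'
        refine ⟨?_, fun h6 => h4.2 ?_⟩
        · simp only [Fin.val_castSucc]
          rw [hl, mul_div_mul_left _ _ hy0]
          exact h4.1
        · simp only [hl] at h6
          exact mul_left_cancel₀ hy0 h6

end PoolRat
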