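import Pool.Agent.Work.MP_1a023c_nt.Sub
import Pool.Agent.Work.MP_1a023c_nt.Tree
import Pool.Agent.Work.MP_70e905_nt.CL.Colour

/-!
# Ratios of shifted primes of one colour
-/

namespace PoolRat

open Finset Classical PoolCL

theorem colour_mul (HC : ∀ (N : ℕ) (η : ℝ), 1 ≤ N → 0 < η → ClusterM N η) (e : ℤ)
    (he : e = 1 ∨ e = -1) (k : ℕ) (c : ℕ → Fin k) :
    ∃ i : Fin k, ∃ D : ℕ, 0 < D ∧ ∀ g : ℚ, 0 < g → ∃ d ∈ D.divisors,
      {t : ℕ × ℕ | t.1.Prime ∧ t.2.Prime ∧ c t.1 = i ∧ c t.2 = i ∧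
        g * d = ((t.1 : ℚ) + e) / ((t.2 : ℚ) + e)}.Infinite := by
  by_contra hcon
  push Not at hcon
  set K : ℕ := 5 * k + 1 with hK
  set PS : ℕ → ℚ → Set (ℕ × ℕ) := fun j r => {t : ℕ × ℕ | t.1.Prime ∧ t.2.Prime ∧
    ((c t.1 : Fin k) : ℕ) = j ∧ ((c t.2 : Fin k) : ℕ) = j ∧
      r = ((t.1 : ℚ) + e) / ((t.2 : ℚ) + e)} with hPS
  set T : ℕ → ℚ → Prop := fun j r => (PS j r).Finite with hT
  have hTs : ∀ j r, T j r → T j r⁻¹ := by
    intro j r h
    refine (h.image Prod.swap).subset ?_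
    rintro ⟨p, q⟩ ⟨hp, hq, h1, h2, h3⟩
    refine ⟨(q, p), ⟨hq, hp, h2, h1, ?_⟩, rfl⟩
    rw [← inv_inv r, h3, inv_div]
  have hTl : ∀ j < k, ∀ D : ℕ, 0 < D → ∃ g : ℚ, 0 < g ∧ ∀ d ∈ D.divisors, T j (g * d) := by
    intro j hj D hD
    obtain ⟨g, hg, hgd⟩ := hcon ⟨j, hj⟩ D hD
    refine ⟨g, hg, fun d hd => ?_⟩
    refine (hgd d hd).subset ?_
    rintro ⟨p, q⟩ ⟨hp, hq, h1, h2, h3⟩
    exact ⟨hp, hq, Fin.ext h1, Fin.ext h2, h3⟩
  obtain ⟨L, D₁, hL, hm⟩ := many_hits (K ^ k) (Nat.one_le_pow _ _ (by omega))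
    (HC _ _ (Nat.one_le_pow _ _ (by omega)) (by norm_num))
  obtain ⟨h, hpos, hinj, hkey⟩ := tree_mul T hTs K L k hTl
  -- integers
  set M : ℕ := ∏ t : Fin k → Fin K, ∏ l : Fin L, (h t l).den with hM
  have hM0 : 0 < M := prod_pos (fun t _ => prod_pos (fun l _ => (h t l).den_pos))
  have hMq : (M : ℚ) ≠ 0 := by exact_mod_cast hM0.ne'
  obtain ⟨u, hux⟩ : ∃ u : (Fin k → Fin K) → Fin L → ℕ, ∀ t l, ((u t l : ℕ) : ℚ) = h t l * M := by
    refine ⟨fun t l => (h t l).num.toNat * (M / (h t l).den), ?_⟩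
    intro t l
    have h1 : (h t l).den ∣ M :=
      (dvd_prod_of_mem (fun l => (h t l).den) (mem_univ l)).trans
        (dvd_prod_of_mem (fun t => ∏ l : Fin L, (h t l).den) (mem_univ t))
    have h2 : (((h t l).num.toNat : ℕ) : ℚ) = (h t l).num := by
      have : (((h t l).num.toNat : ℕ) : ℤ) = (h t l).num :=
        Int.toNat_of_nonneg (Rat.num_pos.2 (hpos t l)).le
      exact_mod_cast congrArg (fun t : ℤ => (t : ℚ)) this
    have h3 : ((h t l).den : ℚ) ≠ 0 := by exact_mod_cast (h t l).den_nz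
    push_cast
    rw [h2, Nat.cast_div h1 h3]
    conv_rhs => rw [← Rat.num_div_den (h t l)]
    ring
  have hu0 : ∀ t l, 0 < u t l := by
    intro t l
    have h1 : (0 : ℚ) < (u t l : ℕ) := by
      rw [hux]
      exact mul_pos (hpos t l) (by exact_mod_cast hM0)
    exact_mod_cast h1
  have huh : ∀ t l t' l', (u t l : ℚ) / u t' l' = h t l / h t' l' := by
    intro t l t' l'
    rw [hux, hux, mul_div_mul_right _ _ hMq]
  have huinj : ∀ t l t' l', u t l = u t' l' → h t l = h t' l' := by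
    intro t l t' l' h1
    have h2 : ((u t l : ℕ) : ℚ) = (u t' l' : ℕ) := by rw [h1]
    rw [hux, hux] at h2
    exact mul_right_cancel₀ hMq h2
  have htop : ∀ t t' : Fin k → Fin K, t ≠ t' → ∃ j, t j ≠ t' j ∧ ∀ i, j < i → t i = t' i := by
    intro t t' hne
    have h1 : (univ.filter (fun j => t j ≠ t' j)).Nonempty := by
      by_contra h2
      rw [not_nonempty_iff_eq_empty, filter_eq_empty_iff] at h2
      exact hne (funext (fun j => not_not.1 (h2 (mem_univ j))))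
    refine ⟨(univ.filter (fun j => t j ≠ t' j)).max' h1,
      (mem_filter.1 (max'_mem _ h1)).2, fun i hi => ?_⟩
    by_contra h2
    exact absurd (le_max' _ i (mem_filter.2 ⟨mem_univ _, h2⟩)) (not_le.2 hi)
  have huinj2 : ∀ t l t' l', u t l = u t' l' → t = t' ∧ l = l' := by
    intro t l t' l' h1
    have h2 := huinj _ _ _ _ h1
    by_cases h3 : t = t'
    · subst h3
      exact ⟨rfl, hinj t h2⟩
    · obtain ⟨j, hj1, hj2⟩ := htop t t' h3
      exact absurd h2 (hkey t t' j hj1 hj2 l l').2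
  -- bound for the exceptional pairs
  have hB : ∀ (j : Fin k) (s : ((Fin k → Fin K) × Fin L) × ((Fin k → Fin K) × Fin L)), ∃ B : ℕ,
      T j (h s.1.1 s.1.2 / h s.2.1 s.2.2) → ∀ t ∈ PS j (h s.1.1 s.1.2 / h s.2.1 s.2.2), t.1 ≤ B := by
    intro j s
    by_cases hfin : T j (h s.1.1 s.1.2 / h s.2.1 s.2.2)
    · obtain ⟨B, hB⟩ := (hfin.image Prod.fst).bddAbove
      exact ⟨B, fun _ t ht => hB (Set.mem_image_of_mem _ ht)⟩
    · exact ⟨0, fun h => absurd h hfin⟩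
  choose B hB using hB
  set BB : ℕ := ∑ j, ∑ s, B j s with hBB
  have hBle : ∀ j s, B j s ≤ BB := fun j s =>
    (single_le_sum (f := fun s => B j s) (fun _ _ => Nat.zero_le _) (mem_univ s)).trans
      (single_le_sum (f := fun j => ∑ s, B j s) (fun _ _ => Nat.zero_le _) (mem_univ j))
  set W : ℕ := primorial D₁ * ∏ t : Fin k → Fin K, ∏ l : Fin L, u t l with hW
  have hWpos : 0 < W := Nat.mul_pos (primorial_pos' _)
    (prod_pos (fun t _ => prod_pos (fun l _ => hu0 t l)))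
  set A₀ : ℕ := ∑ t : Fin k → Fin K, ∑ l : Fin L, u t l with hA₀
  have hule : ∀ t l, u t l ≤ A₀ := fun t l =>
    (single_le_sum (f := fun l => u t l) (fun _ _ => Nat.zero_le _) (mem_univ l)).trans
      (single_le_sum (f := fun t => ∑ l : Fin L, u t l) (fun _ _ => Nat.zero_le _) (mem_univ t))
  obtain ⟨X₀, hX₀⟩ := hm W A₀ (A₀ + 1) hWpos (Dvd.intro _ rfl)
  set ee : Fin (K ^ k) ≃ (Fin k → Fin K) := finFunctionFinEquiv.symm with hee
  obtain ⟨z, hz1, hz2, _, hz3⟩ := hX₀ (X₀ + BB + 1) (W - 1) (fun i => u (ee i.1) i.2)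
    (fun i => bb e (u (ee i.1) i.2)) (by omega)
    (fun i => ⟨hu0 _ _, hule _ _⟩)
    (fun i p hp hd => (hd.trans ((dvd_prod_of_mem (fun l => u (ee i.1) l) (mem_univ i.2)).trans
        (dvd_prod_of_mem (fun t => ∏ l : Fin L, u t l) (mem_univ (ee i.1))))).trans
          (Dvd.intro_left _ rfl))
    (fun i => by
      have h4 := bb_le he (u (ee i.1) i.2)
      have h5 := hule (ee i.1) i.2
      have h6 : (A₀ + 1) * 1 ≤ (A₀ + 1) * (X₀ + BB + 1) := Nat.mul_le_mul_left _ (by omega)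
      omega)
    (fun i => bb_cop he (hu0 _ _) hWpos)
    (fun i j hij hEq => by
      have h3 := bb_cast he (hu0 (ee i.1) i.2)
      have h4 := bb_cast he (hu0 (ee j.1) j.2)
      have h5 : ((u (ee i.1) i.2 * bb e (u (ee j.1) j.2) : ℕ) : ℤ) =
        ((u (ee j.1) j.2 * bb e (u (ee i.1) i.2) : ℕ) : ℤ) := by exact_mod_cast hEq
      rw [Nat.cast_mul, Nat.cast_mul, h3, h4] at h5
      have h6 : (u (ee i.1) i.2 : ℤ) = u (ee j.1) j.2 := by
        rcases he with rfl | rfl <;> linarith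
      obtain ⟨h7, h8⟩ := huinj2 _ _ _ _ (by exact_mod_cast h6)
      exact hij (Prod.ext (ee.injective h7) h8))
  set pr : (Fin k → Fin K) → Fin L → ℕ := fun t l => u t l * z + bb e (u t l) with hpr
  have hprc : ∀ t l, (pr t l : ℚ) + e = u t l * (z + 1) := by
    intro t l
    have h1 : ((pr t l : ℕ) : ℤ) = u t l * z + ((u t l : ℤ) - e) := by
      simp only [hpr]
      push_cast
      rw [bb_cast he (hu0 t l)]
    have h2 : ((pr t l : ℕ) : ℚ) = u t l * z + ((u t l : ℚ) - e) := by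
      exact_mod_cast congrArg (fun t : ℤ => (t : ℚ)) h1
    rw [h2]
    ring
  have hprz : ∀ t l, z ≤ pr t l := by
    intro t l
    have h1 : 1 * z ≤ u t l * z := Nat.mul_le_mul_right _ (hu0 t l)
    simp only [hpr]
    omega
  have hratio : ∀ t l t' l', ((pr t l : ℚ) + e) / ((pr t' l' : ℚ) + e) = h t l / h t' l' := by
    intro t l t' l'
    rw [hprc, hprc, ← huh]
    have : ((z : ℚ) + 1) ≠ 0 := by positivity
    rw [mul_div_mul_right _ _ this]
  have hcol : ∀ t : Fin k → Fin K, ∃ m : ℕ, (∃ l, (pr t l).Prime) →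
      ∃ l, (pr t l).Prime ∧ m = (c (pr t l) : ℕ) := by
    intro t
    by_cases ht : ∃ l, (pr t l).Prime
    · obtain ⟨l, hl⟩ := ht
      exact ⟨_, fun _ => ⟨l, hl, rfl⟩⟩
    · exact ⟨0, fun h => absurd h ht⟩
  choose col hcol using hcol
  have htree := tree K k (univ.filter (fun t => ∃ l, (pr t l).Prime)) col
    (fun t ht => by
      obtain ⟨l, _, hl2⟩ := hcol t (mem_filter.1 ht).2
      rw [hl2]
      exact (c _).isLt)
    (by
      rintro s hs t ht j hj hij ⟨hcs, hct⟩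
      obtain ⟨l, hl1, hl2⟩ := hcol s (mem_filter.1 hs).2
      obtain ⟨l', hl3, hl4⟩ := hcol t (mem_filter.1 ht).2
      have h1 := (hkey s t j hj hij l l').1
      have h2 := hB j ((s, l), (t, l')) h1 (pr s l, pr t l')
        ⟨hl1, hl3, hl2.symm.trans hcs, hl4.symm.trans hct, (hratio s l t l').symm⟩
      have h3 := hBle j ((s, l), (t, l'))
      have h4 := hprz s l
      simp only at h2
      omega)
  have hR : 6 / 25 * ((K ^ k : ℕ) : ℝ) ≤
      (#(univ.filter (fun t => ∃ l, (pr t l).Prime)) : ℝ) := by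
    refine hz3.trans ?_
    have h1 : #{c : Fin (K ^ k) | ∃ i : Fin L, (u (ee c) i * z + bb e (u (ee c) i)).Prime} ≤
        #(univ.filter (fun t => ∃ l, (pr t l).Prime)) := by
      refine card_le_card_of_injOn ee ?_ ee.injective.injOn
      intro m hm
      have h2 := (mem_filter.1 (mem_coe.1 hm)).2
      exact mem_coe.2 (mem_filter.2 ⟨mem_univ _, h2⟩)
    exact_mod_cast h1
  have h1 : ((#(univ.filter (fun t => ∃ l, (pr t l).Prime)) : ℕ) : ℝ) * (5 * k + 1) ≤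
      k * ((K ^ k : ℕ) : ℝ) := by
    have h2 : ((#(univ.filter (fun t => ∃ l, (pr t l).Prime)) : ℕ) : ℝ) * ((K : ℕ) : ℝ) ≤
        k * ((K ^ k : ℕ) : ℝ) := by exact_mod_cast htree
    have h3 : ((K : ℕ) : ℝ) = 5 * k + 1 := by
      simp only [hK]
      push_cast
      ring
    rwa [h3] at h2
  have h2 : (0 : ℝ) < ((K ^ k : ℕ) : ℝ) := by
    have : 0 < K ^ k := Nat.pow_pos (by omega)
    exact_mod_cast this
  have h3 : (0 : ℝ) ≤ (k : ℝ) := Nat.cast_nonneg _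
  have h4 : 6 / 25 * ((K ^ k : ℕ) : ℝ) * (5 * k + 1) ≤ k * ((K ^ k : ℕ) : ℝ) :=
    (mul_le_mul_of_nonneg_right hR (by positivity)).trans h1
  have h5 : 0 ≤ (k : ℝ) * ((K ^ k : ℕ) : ℝ) := by positivity
  linarith

end PoolRat
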