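import Mathlib

/-!
# Module ThickQ : multiplicatively thick sets of positive rationals

Step 1: for finite sets `F` and `B` of positive rationals there is `r > 0`, `r ∉ B`, with `T (r f)` for all
`f ∈ F`: apply `hT` to the products `2 ^ i * f`, `i ≤ #B`; if it gives `r`, one of the `r 2 ^ i` is not in `B`.
Step 2: induction on `K`: the new value is `r` from step 1 with `F = {s / y a}` and `B = {y a / s}`; for the ratios
`y a / r * s` use `hsymm` and `hSi`: `y a / r * s = (r / y a * s⁻¹)⁻¹`.
-/

namespace PoolSR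

open Finset

private theorem thickQ_step (T : ℚ → Prop)
    (hT : ∀ F : Finset ℚ, (∀ f ∈ F, 0 < f) → ∃ r : ℚ, 0 < r ∧ ∀ f ∈ F, T (r * f)) (F B : Finset ℚ)
    (hF : ∀ f ∈ F, 0 < f) : ∃ r : ℚ, 0 < r ∧ r ∉ B ∧ ∀ f ∈ F, T (r * f) := by
  classical
  set F' : Finset ℚ := (range (#B + 1)).biUnion fun i => F.image fun f => 2 ^ i * f with hF'
  obtain ⟨r, hr, h⟩ := hT F' (by
    intro f hf
    rw [hF', mem_biUnion] at hf
    obtain ⟨i, -, hf⟩ := hf
    rw [mem_image] at hf
    obtain ⟨g, hg, rfl⟩ := hf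
    have := hF g hg
    positivity)
  have hinj : Set.InjOn (fun i : ℕ => r * 2 ^ i) (range (#B + 1) : Finset ℕ) := by
    intro i _ j _ hij
    have h1 : (2 : ℚ) ^ i = 2 ^ j := mul_left_cancel₀ hr.ne' hij
    exact pow_right_injective₀ (by norm_num) (by norm_num) h1
  obtain ⟨i, hi, hiB⟩ : ∃ i ∈ range (#B + 1), r * 2 ^ i ∉ B := by
    by_contra hcon
    push Not at hcon
    have h1 := card_le_card_of_injOn (s := range (#B + 1)) (t := B) (fun i : ℕ => r * 2 ^ i)
      (fun i hi => hcon i (mem_coe.1 hi)) hinj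
    rw [card_range] at h1
    omega
  refine ⟨r * 2 ^ i, by positivity, hiB, fun f hf => ?_⟩
  rw [mul_assoc]
  refine h _ ?_
  rw [hF', mem_biUnion]
  exact ⟨i, hi, mem_image_of_mem _ hf⟩

theorem thickQ (T : ℚ → Prop) (hsymm : ∀ d, T d → T d⁻¹)
    (hT : ∀ F : Finset ℚ, (∀ f ∈ F, 0 < f) → ∃ r : ℚ, 0 < r ∧ ∀ f ∈ F, T (r * f)) (S : Finset ℚ)
    (hS : ∀ s ∈ S, 0 < s) (hSi : ∀ s ∈ S, s⁻¹ ∈ S) :
    ∀ K : ℕ, ∃ y : Fin K → ℚ, (∀ i, 0 < y i) ∧
      ∀ i j, i ≠ j → ∀ s ∈ S, y i / y j * s ≠ 1 ∧ T (y i / y j * s) := by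
  classical
  intro K
  induction K with
  | zero => exact ⟨fun i => 1, fun i => i.elim0, fun i => i.elim0⟩
  | succ K ih =>
    obtain ⟨y, hy, hy2⟩ := ih
    obtain ⟨r, hr, hrB, hrT⟩ := thickQ_step T hT
      (univ.biUnion fun a : Fin K => S.image fun s => s / y a)
      (univ.biUnion fun a : Fin K => S.image fun s => y a / s) (by
        intro f hf
        rw [mem_biUnion] at hf
        obtain ⟨a, -, hf⟩ := hf
        rw [mem_image] at hf
        obtain ⟨s, hs, rfl⟩ := hf
        exact div_pos (hS s hs) (hy a))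
    have hnew : ∀ a : Fin K, ∀ s ∈ S, r / y a * s ≠ 1 ∧ T (r / y a * s) := by
      intro a s hs
      have hya := (hy a).ne'
      have hs0 := (hS s hs).ne'
      constructor
      · intro h
        apply hrB
        rw [mem_biUnion]
        refine ⟨a, mem_univ _, mem_image.2 ⟨s, hs, ?_⟩⟩
        field_simp at h ⊢
        linarith
      · have h := hrT (s / y a) (by
          rw [mem_biUnion]
          exact ⟨a, mem_univ _, mem_image.2 ⟨s, hs, rfl⟩⟩)
        have e : r / y a * s = r * (s / y a) := by ring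
        rwa [e]
    have hnew' : ∀ a : Fin K, ∀ s ∈ S, y a / r * s ≠ 1 ∧ T (y a / r * s) := by
      intro a s hs
      obtain ⟨h1, h2⟩ := hnew a s⁻¹ (hSi s hs)
      have e : y a / r * s = (r / y a * s⁻¹)⁻¹ := by
        rw [mul_inv, inv_inv, inv_div]
      rw [e]
      refine ⟨fun h => h1 ?_, hsymm _ h2⟩
      rwa [inv_eq_one] at h
    refine ⟨Fin.snoc (α := fun _ => ℚ) y r, ?_, ?_⟩
    · intro i
      induction i using Fin.lastCases with
      | last => simpa using hr
      | cast i => simpa using hy i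
    · intro i j hij s hs
      induction i using Fin.lastCases with
      | last =>
        induction j using Fin.lastCases with
        | last => exact absurd rfl hij
        | cast j => simpa using hnew j s hs
      | cast i =>
        induction j using Fin.lastCases with
        | last => simpa using hnew' i s hs
        | cast j =>
          have hij' : i ≠ j := fun h => hij (by rw [h])
          simpa using hy2 i j hij' s hs

end PoolSR
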