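import Pool.Agent.Work.MP_70e905_nt.CL.Colour
import Pool.Agent.Work.MP_1a023c_nt.ThickQ

/-!
# Module ColourQ : colourings of the primes and ratios of shifted primes

Multiplicative copy of `CL/Colour.lean` (its theorem `colour`; read its proof first). Suppose that for no colour
`i` such a finite `F` exists (if `F = ∅` is useless take `F` arbitrary: the negation says that for every
colour `i` and every finite set `F` of positive rationals there is `r > 0` such that for all `f ∈ F` the set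
`{(p, q) of colour i | r f = (p+1)/(q+1)}` is finite). Let `T i ρ` mean that the set of the pairs of primes of
colour `i` with `(p+1)/(q+1) = ρ` is finite; `T i ρ ↔ T i ρ⁻¹`. `K = 5 k + 1`, `N = K ^ k`, `L, D₁` from
`many_hits`. Recursively for the levels `j : Fin k` take `Y j : Fin K → ℚ` from `thickQ` for `T j` and the finite
set `S j` of positive rationals, closed under inverses, where `S 0 = {(l+1)/(l'+1) | l, l' < L}` and
`S (j+1) = {σ * Y j a / Y j b * ..}`: all `σ * (Y j a / Y j b)` with `σ ∈ S j`. For `t : Fin k → Fin K`, `l : Fin L`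
let `g t l = (l + 1) * ∏ j, Y j (t j)`. If `j` is the top coordinate where `t, t'` differ then
`g t l / g t' l' = Y j (t j) / Y j (t' j) * s` with `s ∈ S j`, so it is `≠ 1` and in `T j`; and
`g t l ≠ g t l'` for `l ≠ l'`. Multiply by a common denominator to get positive integers `a (t, l)`, pairwise
different. `W = primorial D₁ * ∏ a`, `b = a - 1`, `v = W - 1` (`a v + b = a W - 1`), `x` larger than all `p` in the
finitely many finite sets `{(p, q) | ..}` of the ratios `a s / a s'` in `T j`. `many_hits` gives `z`, and the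
primes `a (t, l) (z + 1) - 1 > x` for the hit leaves; colour the leaves by them. Two leaves of colour `j` with
top different coordinate `j` would give a pair of primes `> x` of colour `j` whose ratio is in `T j`:
impossible. So `tree` applies and `#R * K ≤ k K ^ k`, `#R ≥ 6/25 K ^ k`, contradiction.
-/

namespace PoolSR

open Finset Classical PoolCL

private theorem ColourQ_primorial_pos (D : ℕ) : 0 < primorial D := by
  unfold primorial
  exact Finset.prod_pos fun p hp => (mem_filter.1 hp).2.pos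

/-- A common denominator for finitely many positive rationals. -/
private theorem common_den {ι : Type} [Fintype ι] (g : ι → ℚ) (hg : ∀ i, 0 < g i) :
    ∃ (D : ℚ) (a : ι → ℕ), 0 < D ∧ (∀ i, 0 < a i) ∧ ∀ i, (a i : ℚ) = g i * D := by
  refine ⟨((∏ i, (g i).den : ℕ) : ℚ),
    fun i => (g i).num.natAbs * ∏ j ∈ univ.erase i, (g j).den, ?_, ?_, ?_⟩
  · exact_mod_cast Finset.prod_pos fun i _ => (g i).den_pos
  · intro i
    exact Nat.mul_pos (Int.natAbs_pos.2 (Rat.num_pos.2 (hg i)).ne')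
      (Finset.prod_pos fun j _ => (g j).den_pos)
  · intro i
    have h1 : (((g i).num.natAbs : ℕ) : ℚ) = ((g i).num : ℚ) := by
      rw [← Int.cast_natCast, Int.natAbs_of_nonneg (Rat.num_pos.2 (hg i)).le]
    have h2 : ((∏ i, (g i).den : ℕ) : ℚ) = ((g i).den : ℚ) * ((∏ j ∈ univ.erase i, (g j).den : ℕ) : ℚ) := by
      rw [← Nat.cast_mul, mul_prod_erase univ (fun i => (g i).den) (mem_univ i)]
    rw [Nat.cast_mul, h1, h2, ← mul_assoc]
    congr 1
    have h3 : g i * ((g i).den : ℚ) = (g i).num := Rat.mul_den_eq_num (g i)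
    rw [h3]

theorem colourQ (HC : ∀ (N : ℕ) (η : ℝ), 1 ≤ N → 0 < η → ClusterM N η) :
    ∀ k : ℕ, ∀ c : ℕ → Fin k, ∃ i : Fin k, ∃ F : Finset ℚ, (∀ f ∈ F, 0 < f) ∧
      ∀ r : ℚ, 0 < r → ∃ f ∈ F,
        {s : ℕ × ℕ | s.1.Prime ∧ s.2.Prime ∧ c s.1 = i ∧ c s.2 = i ∧
          r * f = ((s.1 : ℚ) + 1) / (s.2 + 1)}.Infinite := by
  intro k c
  by_contra hcon
  push Not at hcon
  set K : ℕ := 5 * k + 1 with hK
  set T : ℕ → ℚ → Prop := fun j d => {s : ℕ × ℕ | s.1.Prime ∧ s.2.Prime ∧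
    ((c s.1 : Fin k) : ℕ) = j ∧ ((c s.2 : Fin k) : ℕ) = j ∧
    d = ((s.1 : ℚ) + 1) / (s.2 + 1)}.Finite with hT
  have hTs : ∀ j d, T j d → T j d⁻¹ := by
    intro j d h
    refine (h.image Prod.swap).subset ?_
    rintro ⟨p, q⟩ ⟨hp, hq, h1, h2, h3⟩
    refine ⟨(q, p), ⟨hq, hp, h2, h1, ?_⟩, rfl⟩
    rw [← inv_inv d, h3, inv_div]
  have hTl : ∀ j, ∀ F : Finset ℚ, (∀ f ∈ F, 0 < f) → ∃ r : ℚ, 0 < r ∧ ∀ f ∈ F, T j (r * f) := by
    intro j F hF
    by_cases hj : j < k
    · obtain ⟨r, hr, hr2⟩ := hcon ⟨j, hj⟩ F hF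
      refine ⟨r, hr, fun f hf => ?_⟩
      refine (hr2 f hf).subset ?_
      rintro ⟨p, q⟩ ⟨hp, hq, h1, h2, h3⟩
      exact ⟨hp, hq, Fin.ext h1, Fin.ext h2, h3⟩
    · refine ⟨1, one_pos, fun f _ => ?_⟩
      refine Set.finite_empty.subset ?_
      rintro ⟨p, q⟩ ⟨hp, hq, h1, h2, h3⟩
      exact absurd (c p).isLt (by
        have h1' : ((c p : Fin k) : ℕ) = j := h1
        omega)
  obtain ⟨L, D₁, hL, hm⟩ := many_hits (K ^ k) (Nat.one_le_pow _ _ (by omega))
    (HC _ _ (Nat.one_le_pow _ _ (by omega)) (by norm_num))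
  -- the levels
  have hY : ∀ (j : ℕ) (S : {S : Finset ℚ // (∀ s ∈ S, 0 < s) ∧ ∀ s ∈ S, s⁻¹ ∈ S}),
      ∃ y : Fin K → ℚ, (∀ i, 0 < y i) ∧
        ∀ i i', i ≠ i' → ∀ s ∈ S.1, y i / y i' * s ≠ 1 ∧ T j (y i / y i' * s) :=
    fun j S => thickQ (T j) (hTs j) (hTl j) S.1 S.2.1 S.2.2 K
  choose Y hYpos hYT using hY
  have hS0 : ∃ S : {S : Finset ℚ // (∀ s ∈ S, 0 < s) ∧ ∀ s ∈ S, s⁻¹ ∈ S},
      ∀ l l' : Fin L, ((l : ℕ) + 1 : ℚ) / ((l' : ℕ) + 1) ∈ S.1 := by
    refine ⟨⟨(univ : Finset (Fin L × Fin L)).image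
      (fun u => ((u.1 : ℕ) + 1 : ℚ) / ((u.2 : ℕ) + 1)), ?_, ?_⟩, fun l l' => ?_⟩
    · intro s hs
      obtain ⟨u, _, rfl⟩ := mem_image.1 hs
      positivity
    · intro s hs
      obtain ⟨u, _, rfl⟩ := mem_image.1 hs
      exact mem_image.2 ⟨(u.2, u.1), mem_univ _, by rw [inv_div]⟩
    · exact mem_image.2 ⟨(l, l'), mem_univ _, rfl⟩
  have hSs : ∀ (j : ℕ) (S : {S : Finset ℚ // (∀ s ∈ S, 0 < s) ∧ ∀ s ∈ S, s⁻¹ ∈ S}),
      ∃ S' : {S : Finset ℚ // (∀ s ∈ S, 0 < s) ∧ ∀ s ∈ S, s⁻¹ ∈ S},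
        (∀ s ∈ S.1, s ∈ S'.1) ∧ ∀ s ∈ S.1, ∀ a b, s * (Y j S a / Y j S b) ∈ S'.1 := by
    intro j S
    refine ⟨⟨S.1 ∪ (S.1 ×ˢ (univ : Finset (Fin K × Fin K))).image
      (fun u => u.1 * (Y j S u.2.1 / Y j S u.2.2)), ?_, ?_⟩, fun s hs => mem_union_left _ hs,
      fun s hs a b => mem_union_right _ (mem_image.2 ⟨(s, (a, b)),
        mem_product.2 ⟨hs, mem_univ _⟩, rfl⟩)⟩
    · intro s hs
      rcases mem_union.1 hs with hs | hs
      · exact S.2.1 s hs
      · obtain ⟨u, hu, rfl⟩ := mem_image.1 hs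
        have h1 := S.2.1 _ (mem_product.1 hu).1
        have h2 := hYpos j S u.2.1
        have h3 := hYpos j S u.2.2
        positivity
    · intro s hs
      rcases mem_union.1 hs with hs | hs
      · exact mem_union_left _ (S.2.2 s hs)
      · obtain ⟨u, hu, rfl⟩ := mem_image.1 hs
        refine mem_union_right _ (mem_image.2 ⟨(u.1⁻¹, (u.2.2, u.2.1)),
          mem_product.2 ⟨S.2.2 _ (mem_product.1 hu).1, mem_univ _⟩, ?_⟩)
        simp only
        rw [mul_inv, inv_div]
  obtain ⟨S₀, hS₀⟩ := hS0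
  choose Sn hSn1 hSn2 using hSs
  set S : ℕ → {S : Finset ℚ // (∀ s ∈ S, 0 < s) ∧ ∀ s ∈ S, s⁻¹ ∈ S} :=
    fun n => Nat.rec S₀ (fun n s => Sn n s) n with hSdef
  have hS1 : S 0 = S₀ := rfl
  have hS2 : ∀ n, S (n + 1) = Sn n (S n) := fun n => rfl
  set y : ℕ → Fin K → ℚ := fun j => Y j (S j) with hy
  have hypos : ∀ j a, 0 < y j a := fun j a => hYpos j (S j) a
  set Yv : (Fin k → Fin K) → ℕ → ℚ := fun t i => if h : i < k then y i (t ⟨i, h⟩) else 1 with hYv
  have hYvpos : ∀ t i, 0 < Yv t i := by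
    intro t i
    simp only [hYv]
    split_ifs
    · exact hypos _ _
    · exact one_pos
  have hpart : ∀ (t t' : Fin k → Fin K) (l l' : Fin L) (n : ℕ),
      ((l : ℕ) + 1 : ℚ) / ((l' : ℕ) + 1) * ∏ i ∈ range n, (Yv t i / Yv t' i) ∈ (S n).1 := by
    intro t t' l l' n
    induction n with
    | zero =>
      rw [range_zero, prod_empty, mul_one, hS1]
      exact hS₀ l l'
    | succ n ih =>
      rw [prod_range_succ, ← mul_assoc, hS2]
      by_cases hn : n < k
      · have e1 : Yv t n = Y n (S n) (t ⟨n, hn⟩) := by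
          simp only [hYv, hy]
          rw [dif_pos hn]
        have e2 : Yv t' n = Y n (S n) (t' ⟨n, hn⟩) := by
          simp only [hYv, hy]
          rw [dif_pos hn]
        rw [e1, e2]
        exact hSn2 n (S n) _ ih _ _
      · have e1 : Yv t n = 1 := by
          simp only [hYv]
          rw [dif_neg hn]
        have e2 : Yv t' n = 1 := by
          simp only [hYv]
          rw [dif_neg hn]
        rw [e1, e2, div_one, mul_one]
        exact hSn1 n (S n) _ ih
  set g : (Fin k → Fin K) → Fin L → ℚ :=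
    fun t l => ((l : ℕ) + 1 : ℚ) * ∏ i ∈ range k, Yv t i with hg
  have hgpos : ∀ t l, 0 < g t l := by
    intro t l
    have h1 : 0 < ∏ i ∈ range k, Yv t i := prod_pos fun i _ => hYvpos t i
    simp only [hg]
    positivity
  have hkey : ∀ (t t' : Fin k → Fin K) (l l' : Fin L) (j : Fin k), t j ≠ t' j →
      (∀ i, j < i → t i = t' i) →
      g t l / g t' l' ≠ 1 ∧ T j (g t l / g t' l') := by
    intro t t' l l' j hne hij
    have e1 : g t l / g t' l' = y j (t j) / y j (t' j) *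
        (((l : ℕ) + 1 : ℚ) / ((l' : ℕ) + 1) * ∏ i ∈ range (j : ℕ), (Yv t i / Yv t' i)) := by
      have e2 : ∏ i ∈ range k, (Yv t i / Yv t' i) = ∏ i ∈ range ((j : ℕ) + 1), (Yv t i / Yv t' i) := by
        symm
        refine prod_subset (range_subset_range.2 j.isLt) (fun i hi hi2 => ?_)
        have hik : i < k := mem_range.1 hi
        have hji : (j : ℕ) < i := by
          have := mt mem_range.2 hi2
          omega
        have e3 : t ⟨i, hik⟩ = t' ⟨i, hik⟩ := hij ⟨i, hik⟩ hji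
        have e4 : Yv t i = Yv t' i := by
          simp only [hYv]
          rw [dif_pos hik, dif_pos hik, e3]
        rw [e4]
        exact div_self (hYvpos t' i).ne'
      have e5 : g t l / g t' l' = ((l : ℕ) + 1 : ℚ) / ((l' : ℕ) + 1) *
          ∏ i ∈ range k, (Yv t i / Yv t' i) := by
        rw [prod_div_distrib]
        simp only [hg]
        rw [mul_div_mul_comm]
      have e6 : Yv t j = y j (t j) := by
        simp only [hYv]
        rw [dif_pos j.isLt]
      have e7 : Yv t' j = y j (t' j) := by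
        simp only [hYv]
        rw [dif_pos j.isLt]
      rw [e5, e2, prod_range_succ, e6, e7]
      ring
    rw [e1]
    exact hYT j (S j) (t j) (t' j) hne _ (hpart t t' l l' j)
  have htop : ∀ t t' : Fin k → Fin K, t ≠ t' → ∃ j, t j ≠ t' j ∧ ∀ i, j < i → t i = t' i := by
    intro t t' hne
    have h1 : (univ.filter (fun j => t j ≠ t' j)).Nonempty := by
      by_contra h2
      rw [not_nonempty_iff_eq_empty, filter_eq_empty_iff] at h2
      exact hne (funext (fun j => not_not.1 (h2 (mem_univ j))))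
    refine ⟨(univ.filter (fun j => t j ≠ t' j)).max' h1,
      (mem_filter.1 (max'_mem _ h1)).2, fun i hi => ?_⟩
    by_contra h2
    exact absurd (le_max' _ i (mem_filter.2 ⟨mem_univ _, h2⟩)) (not_le.2 hi)
  have hginj : ∀ t t' l l', g t l = g t' l' → t = t' ∧ l = l' := by
    intro t t' l l' h
    have h1 : t = t' := by
      by_contra hne
      obtain ⟨j, hj1, hj2⟩ := htop t t' hne
      exact (hkey t t' l l' j hj1 hj2).1 (by rw [h]; exact div_self (hgpos t' l').ne')
    refine ⟨h1, ?_⟩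
    subst h1
    have h2 : 0 < ∏ i ∈ range k, Yv t i := prod_pos fun i _ => hYvpos t i
    have h3 : ((l : ℕ) + 1 : ℚ) = ((l' : ℕ) + 1 : ℚ) := mul_right_cancel₀ h2.ne' h
    have h4 : ((l : ℕ) : ℚ) = ((l' : ℕ) : ℚ) := by linarith
    exact Fin.ext (by exact_mod_cast h4)
  -- the linear forms
  set e : Fin (K ^ k) ≃ (Fin k → Fin K) := finFunctionFinEquiv.symm with he
  obtain ⟨D, a, hD, hapos, haD⟩ := common_den (fun i : Fin (K ^ k) × Fin L => g (e i.1) i.2)
    (fun i => hgpos _ _)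
  have hainj : Function.Injective a := by
    intro i j hij
    have h1 : g (e i.1) i.2 * D = g (e j.1) j.2 * D := by rw [← haD, ← haD, hij]
    have h2 := hginj _ _ _ _ (mul_right_cancel₀ hD.ne' h1)
    exact Prod.ext (e.injective h2.1) h2.2
  set W : ℕ := primorial D₁ * ∏ i, a i with hW
  have hWpos : 0 < W := Nat.mul_pos (ColourQ_primorial_pos _)
    (Finset.prod_pos fun i _ => hapos i)
  set A₀ : ℕ := ∑ i, a i with hA₀
  have haA : ∀ i, a i ≤ A₀ := fun i => single_le_sum (fun j _ => Nat.zero_le (a j)) (mem_univ i)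
  obtain ⟨X₀, hX₀⟩ := hm W A₀ A₀ hWpos (Dvd.intro _ rfl)
  have hM0 : ∀ (j : Fin k) (i i' : Fin (K ^ k) × Fin L), ∃ M : ℕ,
      T j (g (e i.1) i.2 / g (e i'.1) i'.2) → ∀ p q : ℕ, p.Prime → q.Prime →
        ((c p : Fin k) : ℕ) = j → ((c q : Fin k) : ℕ) = j →
        g (e i.1) i.2 / g (e i'.1) i'.2 = ((p : ℚ) + 1) / (q + 1) → p ≤ M := by
    intro j i i'
    by_cases h : T j (g (e i.1) i.2 / g (e i'.1) i'.2)
    · obtain ⟨M, hM⟩ := (h.image Prod.fst).bddAbove
      exact ⟨M, fun _ p q hp hq h1 h2 h3 => hM ⟨(p, q), ⟨hp, hq, h1, h2, h3⟩, rfl⟩⟩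
    · exact ⟨0, fun h' => absurd h' h⟩
  choose M hM using hM0
  set MM : ℕ := ∑ j, ∑ i, ∑ i', M j i i' with hMM
  have hMle : ∀ j i i', M j i i' ≤ MM := by
    intro j i i'
    exact ((single_le_sum (f := fun i' => M j i i') (fun _ _ => Nat.zero_le _) (mem_univ i')).trans
      (single_le_sum (f := fun i => ∑ i', M j i i') (fun _ _ => Nat.zero_le _) (mem_univ i))).trans
      (single_le_sum (f := fun j => ∑ i, ∑ i', M j i i') (fun _ _ => Nat.zero_le _) (mem_univ j))
  set x : ℕ := X₀ + MM + 1 with hx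
  obtain ⟨z, hz1, hz2, _, hz3⟩ := hX₀ x (W - 1) a (fun i => a i - 1) (by omega)
    (fun i => ⟨hapos i, haA i⟩)
    (fun i p _ hd => hd.trans ((Finset.dvd_prod_of_mem a (mem_univ i)).trans
      (Dvd.intro_left _ rfl)))
    (fun i => by
      have h1 := haA i
      have h2 : A₀ * 1 ≤ A₀ * x := Nat.mul_le_mul_left _ (by omega)
      omega)
    (fun i => by
      have h1 := hapos i
      have h3 : a i * (W - 1) + (a i - 1) = a i * W - 1 := by
        rw [Nat.mul_sub, mul_one]
        have h4 : a i * 1 ≤ a i * W := Nat.mul_le_mul_left _ hWpos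
        omega
      rw [h3]
      have h5 : 0 < a i * W := Nat.mul_pos h1 hWpos
      have h6 : (a i * W - 1).Coprime (a i * W) :=
        (Nat.coprime_self_sub_left (by omega)).2 (Nat.coprime_one_left _)
      exact Nat.Coprime.coprime_mul_left_right h6)
    (fun i j hij hEq => by
      apply hij
      apply hainj
      have h1 := hapos i
      have h2 := hapos j
      rw [Nat.mul_sub, Nat.mul_sub, mul_one, mul_one, mul_comm (a j) (a i)] at hEq
      have h3 : a i * 1 ≤ a i * a j := Nat.mul_le_mul_left _ h2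
      have h4 : 1 * a j ≤ a i * a j := Nat.mul_le_mul_right _ h1
      omega)
  -- the primes of the leaves
  set P : (Fin k → Fin K) → Fin L → ℕ := fun t l => a (e.symm t, l) * z + (a (e.symm t, l) - 1)
    with hP
  have hPx : ∀ t l, x < P t l := by
    intro t l
    have h1 := hapos (e.symm t, l)
    have h2 : 1 * z ≤ a (e.symm t, l) * z := Nat.mul_le_mul_right _ h1
    simp only [hP]
    omega
  have hP1 : ∀ t l, ((P t l : ℕ) : ℚ) + 1 = g t l * D * ((z : ℚ) + 1) := by
    intro t l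
    have h1 := hapos (e.symm t, l)
    have h2 : P t l + 1 = a (e.symm t, l) * (z + 1) := by
      simp only [hP]
      rw [Nat.mul_add, mul_one]
      omega
    have h3 : ((P t l : ℕ) : ℚ) + 1 = (a (e.symm t, l) : ℚ) * ((z : ℚ) + 1) := by
      exact_mod_cast h2
    rw [h3, haD]
    simp only [Equiv.apply_symm_apply]
  have hratio : ∀ t t' l l', g t l / g t' l' = ((P t l : ℚ) + 1) / (P t' l' + 1) := by
    intro t t' l l'
    rw [hP1, hP1]
    have h1 := hgpos t' l'
    have h2 : (0 : ℚ) < (z : ℚ) + 1 := by positivity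
    field_simp
  have hno : ∀ (t t' : Fin k → Fin K) (l l' : Fin L) (j : Fin k), t j ≠ t' j →
      (∀ i, j < i → t i = t' i) → (P t l).Prime → (P t' l').Prime →
      ((c (P t l) : Fin k) : ℕ) = j → ((c (P t' l') : Fin k) : ℕ) = j → False := by
    intro t t' l l' j hne hij hp hq h1 h2
    have h3 := hM j (e.symm t, l) (e.symm t', l')
    simp only [Equiv.apply_symm_apply] at h3
    have h4 := h3 (hkey t t' l l' j hne hij).2 (P t l) (P t' l') hp hq h1 h2 (hratio t t' l l')
    have h5 := hMle j (e.symm t, l) (e.symm t', l')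
    have h6 := hPx t l
    omega
  have hcol : ∀ t : Fin k → Fin K, ∃ m : ℕ, (∃ l, (P t l).Prime) →
      ∃ l, (P t l).Prime ∧ m = (c (P t l) : ℕ) := by
    intro t
    by_cases ht : ∃ l, (P t l).Prime
    · obtain ⟨l, hl⟩ := ht
      exact ⟨_, fun _ => ⟨l, hl, rfl⟩⟩
    · exact ⟨0, fun h => absurd h ht⟩
  choose col hcol using hcol
  have htree := tree K k (univ.filter (fun t => ∃ l, (P t l).Prime)) col
    (fun t ht => by
      obtain ⟨l, _, hl2⟩ := hcol t (mem_filter.1 ht).2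
      rw [hl2]
      exact (c _).isLt)
    (by
      rintro s hs t ht j hj hij ⟨hcs, hct⟩
      obtain ⟨l, hl1, hl2⟩ := hcol s (mem_filter.1 hs).2
      obtain ⟨l', hl3, hl4⟩ := hcol t (mem_filter.1 ht).2
      exact hno s t l l' j hj hij hl1 hl3 (hl2.symm.trans hcs) (hl4.symm.trans hct))
  have hR : 6 / 25 * ((K ^ k : ℕ) : ℝ) ≤
      (#(univ.filter (fun t => ∃ l, (P t l).Prime)) : ℝ) := by
    refine hz3.trans ?_
    have h1 : #{c : Fin (K ^ k) | ∃ i : Fin L, (a (c, i) * z + (a (c, i) - 1)).Prime} ≤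
        #(univ.filter (fun t => ∃ l, (P t l).Prime)) := by
      refine card_le_card_of_injOn e ?_ e.injective.injOn
      intro m hm
      have h2 := (mem_filter.1 (mem_coe.1 hm)).2
      refine mem_coe.2 (mem_filter.2 ⟨mem_univ _, ?_⟩)
      simpa [hP] using h2
    exact_mod_cast h1
  have h1 : ((#(univ.filter (fun t => ∃ l, (P t l).Prime)) : ℕ) : ℝ) * (5 * k + 1) ≤
      k * ((K ^ k : ℕ) : ℝ) := by
    have h2 : ((#(univ.filter (fun t => ∃ l, (P t l).Prime)) : ℕ) : ℝ) * ((K : ℕ) : ℝ) ≤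
        k * ((K ^ k : ℕ) : ℝ) := by exact_mod_cast htree
    have h3 : ((K : ℕ) : ℝ) = 5 * k + 1 := by
      simp only [hK]
      push_cast
      ring
    rwa [h3] at h2
  have h2 : (0 : ℝ) < ((K ^ k : ℕ) : ℝ) := by
    have : 0 < K ^ k := Nat.pow_pos (by omega)
    exact_mod_cast this
  have h3 : (0 : ℝ) ≤ (k : ℝ) := Nat.cast_nonneg _
  have h4 : 6 / 25 * ((K ^ k : ℕ) : ℝ) * (5 * k + 1) ≤ k * ((K ^ k : ℕ) : ℝ) :=
    (mul_le_mul_of_nonneg_right hR (by positivity)).trans h1
  have h5 : 0 ≤ (k : ℝ) * ((K ^ k : ℕ) : ℝ) := by positivity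
  linarith

end PoolSR
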