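import Pool.Agent.Work.MP_70e905_nt.Flat.FlatV
import Pool.Agent.Work.MP_1a023c_nt.CluE

/-!
# Common powers

For `k` positive rationals `r i` and signs `e i` a positive proportion of the exponents `j` is such that all
`r i ^ j` are represented; the proportion is `1 / M` when every colouring of the pairs of a set of `M + 1` elements
with `k` colours has a monochromatic set of `K + 1` elements.
-/

namespace PoolRat

open Finset Classical PoolCL PoolQ4 PoolFlat

/-- bipartite pigeonhole -/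
theorem mono_step {k : ℕ} (c : ℕ → ℕ → Fin k) (n : ℕ) (hn : 1 ≤ n) (A B : Finset ℕ)
    (hA : n * k ≤ #A) (hB : n * k ^ (n * k) ≤ #B) :
    ∃ A' B' : Finset ℕ, A' ⊆ A ∧ B' ⊆ B ∧ n ≤ #A' ∧ n ≤ #B' ∧ ∃ χ : Fin k, ∀ a ∈ A', ∀ b ∈ B', c a b = χ := by
  rcases Nat.eq_zero_or_pos k with rfl | hk
  · exact (c 0 0).elim0
  have : Nonempty (Fin k) := ⟨⟨0, hk⟩⟩
  obtain ⟨A₀, hA₀, hA₀c⟩ := exists_subset_card_eq hA
  -- the columns
  have hcard : Fintype.card (A₀ → Fin k) = k ^ (n * k) := by
    rw [Fintype.card_fun, Fintype.card_fin, Fintype.card_coe, hA₀c]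
  obtain ⟨g, hg⟩ := Fintype.exists_le_card_fiber_of_mul_le_card (α := B) (β := A₀ → Fin k)
    (fun b a => c a b) (n := n) (by
      rw [hcard, Fintype.card_coe, mul_comm]
      exact hB)
  obtain ⟨χ, hχ⟩ := Fintype.exists_le_card_fiber_of_mul_le_card (α := A₀) (β := Fin k)
    g (n := n) (by
      rw [Fintype.card_fin, Fintype.card_coe, hA₀c, mul_comm])
  refine ⟨(univ.filter (fun a : A₀ => g a = χ)).map (Function.Embedding.subtype _),
    (univ.filter (fun b : B => (fun a : A₀ => c a b) = g)).map (Function.Embedding.subtype _),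
    ?_, ?_, ?_, ?_, χ, ?_⟩
  · intro x hx
    obtain ⟨a, _, rfl⟩ := mem_map.1 hx
    exact hA₀ a.2
  · intro x hx
    obtain ⟨a, _, rfl⟩ := mem_map.1 hx
    exact a.2
  · rw [card_map]
    exact hχ
  · rw [card_map]
    exact hg
  · intro x hx y hy
    obtain ⟨a, ha, rfl⟩ := mem_map.1 hx
    obtain ⟨b, hb, rfl⟩ := mem_map.1 hy
    have h1 := congrFun (mem_filter.1 hb).2 a
    have h2 := (mem_filter.1 ha).2
    simp only [Function.Embedding.subtype_apply]
    rw [h1, h2]

/-- families of sets monochromatic in pairs -/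
theorem mono_pairs {k m : ℕ} (hk : 1 ≤ k) (P : Finset (Fin m × Fin m)) :
    ∀ L : ℕ, 1 ≤ L → ∃ L' : ℕ, L ≤ L' ∧ ∀ (c : ℕ → ℕ → Fin k) (A : Fin m → Finset ℕ), (∀ i, L' ≤ #(A i)) →
      ∃ A' : Fin m → Finset ℕ, (∀ i, A' i ⊆ A i) ∧ (∀ i, L ≤ #(A' i)) ∧
        ∀ p ∈ P, p.1 ≠ p.2 → ∃ χ : Fin k, ∀ a ∈ A' p.1, ∀ b ∈ A' p.2, c a b = χ := by
  induction P using Finset.induction_on with
  | empty =>
    intro L _
    exact ⟨L, le_rfl, fun c A hA => ⟨A, fun i => Subset.refl _, hA, by simp⟩⟩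
  | insert p P _ ih =>
    intro L hL
    obtain ⟨L₁, hL₁, h⟩ := ih L hL
    have hL1 : 1 ≤ L₁ := hL.trans hL₁
    have hk1 : 1 ≤ k ^ (L₁ * k) := Nat.one_le_pow _ _ hk
    refine ⟨L₁ * k ^ (L₁ * k), hL₁.trans (Nat.le_mul_of_pos_right _ hk1), fun c A hA => ?_⟩
    by_cases hp : p.1 ≠ p.2
    · have hle : L₁ * k ≤ L₁ * k ^ (L₁ * k) := by
        refine Nat.mul_le_mul_left _ ?_
        refine Nat.le_self_pow ?_ k
        exact Nat.mul_ne_zero (by omega) (by omega)
      obtain ⟨A₁, A₂, h1, h2, h3, h4, χ, h5⟩ := mono_step c L₁ hL1 (A p.1) (A p.2)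
        (hle.trans (hA _)) (hA _)
      obtain ⟨A', h6, h7, h8⟩ := h c (Function.update (Function.update A p.1 A₁) p.2 A₂) (by
        intro i
        by_cases hi2 : i = p.2
        · subst hi2
          simpa using h4
        · rw [Function.update_of_ne hi2]
          by_cases hi1 : i = p.1
          · subst hi1
            simpa using h3
          · rw [Function.update_of_ne hi1]
            exact (Nat.le_mul_of_pos_right _ hk1).trans (hA i))
      have hA1 : A' p.1 ⊆ A₁ := by
        have := h6 p.1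
        rwa [Function.update_of_ne hp, Function.update_self] at this
      have hA2 : A' p.2 ⊆ A₂ := by
        have := h6 p.2
        rwa [Function.update_self] at this
      refine ⟨A', fun i => ?_, h7, fun q hq hq2 => ?_⟩
      · by_cases hi2 : i = p.2
        · subst hi2
          exact hA2.trans h2
        · by_cases hi1 : i = p.1
          · subst hi1
            exact hA1.trans h1
          · have := h6 i
            rwa [Function.update_of_ne hi2, Function.update_of_ne hi1] at this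
      · rcases mem_insert.1 hq with rfl | hq
        · exact ⟨χ, fun a ha b hb => h5 a (hA1 ha) b (hA2 hb)⟩
        · exact h8 q hq hq2
    · obtain ⟨A', h6, h7, h8⟩ := h c A (fun i => (Nat.le_mul_of_pos_right _ hk1).trans (hA i))
      refine ⟨A', h6, h7, fun q hq hq2 => ?_⟩
      rcases mem_insert.1 hq with rfl | hq
      · exact absurd hq2 hp
      · exact h8 q hq hq2

theorem Rep_one' (e : ℤ) (he : e = 1 ∨ e = -1) : Rep e 1 := by
  unfold Rep
  refine (Nat.infinite_setOfPred_prime.image (f := fun p : ℕ => (p, p)) ?_).mono ?_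
  · intro p _ q _ h
    exact congrArg Prod.fst h
  · rintro _ ⟨p, hp, rfl⟩
    refine ⟨hp, hp, ?_⟩
    have h1 : (2 : ℚ) ≤ p := by exact_mod_cast (Nat.Prime.two_le hp)
    have h2 : ((p : ℚ) + e) ≠ 0 := by
      rcases he with rfl | rfl
      · push_cast; linarith
      · push_cast; linarith
    exact (div_self h2).symm

/-- powers of one rational -/
theorem cluE_pow {K L : ℕ} (hK : 1 ≤ K) (hL : 1 ≤ L) {e : ℤ} (he : e = 1 ∨ e = -1) (HC : CluE K L e)
    (r : ℚ) (hr : 0 < r) (h : Fin (K + 1) × Fin L → ℕ) (hinj : Function.Injective h) :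
    ∃ s t, s.1 ≠ t.1 ∧ Rep e (r ^ Nat.dist (h s) (h t)) := by
  by_cases hr1 : r = 1
  · refine ⟨(0, ⟨0, hL⟩), (⟨1, by omega⟩, ⟨0, hL⟩), ?_, ?_⟩
    · intro h
      have := congrArg Fin.val h
      simp at this
    · rw [hr1, one_pow]
      exact Rep_one' e he
  set J : ℕ := ∑ s, h s with hJ
  have hg : ∀ s, h s ≤ J := fun s => single_le_sum (fun _ _ => Nat.zero_le _) (mem_univ s)
  set α : ℕ := r.num.natAbs with hα
  set β : ℕ := r.den with hβ
  have hαpos : 0 < α := Int.natAbs_pos.2 (Rat.num_pos.2 hr).ne'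
  have hβpos : 0 < β := r.den_pos
  have hrr : r = (α : ℚ) / β := by
    have h1 : ((α : ℕ) : ℚ) = (r.num : ℚ) := by
      rw [hα, ← Int.cast_natCast, Int.natAbs_of_nonneg (Rat.num_pos.2 hr).le]
    rw [h1, hβ]
    exact (Rat.num_div_den r).symm
  set f : Fin (K + 1) × Fin L → ℕ := fun s => α ^ h s * β ^ (J - h s) with hf
  have hfpos : ∀ s, 0 < f s := fun s => Nat.mul_pos (pow_pos hαpos _) (pow_pos hβpos _)
  have hrat : ∀ s t, h t ≤ h s → (f s : ℚ) / f t = r ^ (h s - h t) := by
    intro s t hst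
    obtain ⟨d, hd⟩ : ∃ d, h s = h t + d := ⟨h s - h t, by omega⟩
    have hsJ := hg s
    have e1 : J - h t = (J - h s) + d := by omega
    have e2 : h s - h t = d := by omega
    have hα' : (α : ℚ) ≠ 0 := by exact_mod_cast hαpos.ne'
    have hβ' : (β : ℚ) ≠ 0 := by exact_mod_cast hβpos.ne'
    rw [e2, hrr, hf]
    simp only
    push_cast
    rw [e1, hd, pow_add, pow_add, div_pow]
    field_simp
  have hfinj : Function.Injective f := by
    intro s t hst
    by_contra hne
    have hgne : h s ≠ h t := fun h => hne (hinj h)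
    have key : ∀ s t, h t < h s → f s = f t → False := by
      intro s t hlt heq
      have h1 := hrat s t hlt.le
      rw [heq, div_self (by exact_mod_cast (hfpos t).ne')] at h1
      have h2 : r ^ (h s - h t) = 1 := h1.symm
      have h3 : h s - h t ≠ 0 := by omega
      exact hr1 ((pow_eq_one_iff_of_nonneg hr.le h3).1 h2)
    rcases lt_or_gt_of_ne hgne with h | h
    · exact key t s h hst.symm
    · exact key s t h hst
  obtain ⟨s, t, hst, hgood⟩ := HC f hfinj hfpos
  refine ⟨s, t, hst, ?_⟩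
  rcases le_total (h t) (h s) with h' | h'
  · rw [Nat.dist_eq_sub_of_le_right h', ← hrat s t h']
    exact hgood
  · rw [Nat.dist_eq_sub_of_le h', ← hrat t s h']
    have := Rep_inv hgood
    rwa [inv_div] at this

theorem common {K L : ℕ} (hK : 1 ≤ K) (hL : 1 ≤ L) (HC : ∀ e : ℤ, e = 1 ∨ e = -1 → CluE K L e)
    (k M : ℕ) (hk : 1 ≤ k) (hM : 1 ≤ M)
    (hR : ∀ χ : Sym2 (Fin (M + 1)) → Fin k, ∃ S : Finset (Fin (M + 1)), #S = K + 1 ∧
      ∃ c : Fin k, ∀ x ∈ S, ∀ y ∈ S, x ≠ y → χ s(x, y) = c) (ε : ℝ) (hε : 0 < ε) :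
    ∃ J₀ : ℕ, ∀ (r : Fin k → ℚ) (e : Fin k → ℤ), (∀ i, 0 < r i) → (∀ i, e i = 1 ∨ e i = -1) →
      ∀ J : ℕ, J₀ ≤ J →
        (1 / (M : ℝ) - ε) * J ≤ (#{j ∈ Icc 1 J | ∀ i, Rep (e i) (r i ^ j)} : ℝ) := by
  obtain ⟨L', hLL', hmono⟩ := mono_pairs (k := k) (m := M + 1) hk univ L hL
  obtain ⟨J₀, hJ₀⟩ := flat_v M L' 1 hM le_rfl ε hε 0
  refine ⟨J₀, fun r e hr he J hJ => ?_⟩
  set P : ℕ → Prop := fun j => ∀ i, Rep (e i) (r i ^ j) with hP
  have hclu : CluF M L' 0 1 1 J P := by
    intro v g hinj _ _ _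
    by_contra hcon
    push Not at hcon
    -- the colours
    have hcol : ∀ d : ℕ, ∃ c : Fin k, ¬ P d → ¬ Rep (e c) (r c ^ d) := by
      intro d
      by_cases hd : P d
      · exact ⟨⟨0, hk⟩, fun h => absurd hd h⟩
      · rw [hP] at hd
        push Not at hd
        obtain ⟨c, hc⟩ := hd
        exact ⟨c, fun _ => hc⟩
    choose col hcol using hcol
    obtain ⟨A', hA1, hA2, hA3⟩ := hmono (fun x y => col (Nat.dist x y))
      (fun i => (univ : Finset (Fin L')).image (fun l => g (i, l))) (by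
        intro i
        rw [card_image_of_injective, card_univ, Fintype.card_fin]
        intro a b hab
        exact (Prod.mk.inj (hinj hab)).2)
    have hnonempty : ∀ i, (A' i).Nonempty := fun i => card_pos.1 (by have := hA2 i; omega)
    have hχ : ∀ i j : Fin (M + 1), ∃ χ : Fin k, i ≠ j → ∀ a ∈ A' i, ∀ b ∈ A' j,
        col (Nat.dist a b) = χ := by
      intro i j
      by_cases hij : i ≠ j
      · obtain ⟨χ, h⟩ := hA3 (i, j) (mem_univ _) hij
        exact ⟨χ, fun _ => h⟩
      · exact ⟨⟨0, hk⟩, fun h => absurd h hij⟩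
    choose χ hχ using hχ
    have hsymm : ∀ i j, i ≠ j → χ i j = χ j i := by
      intro i j hij
      obtain ⟨a, ha⟩ := hnonempty i
      obtain ⟨b, hb⟩ := hnonempty j
      rw [← hχ i j hij a ha b hb, ← hχ j i hij.symm b hb a ha, Nat.dist_comm]
    obtain ⟨S, hS, c, hc⟩ := hR (fun s => Sym2.lift ⟨fun i j => if i ≤ j then χ i j else χ j i, by
      intro i j
      simp only
      rcases lt_trichotomy i j with h | h | h
      · rw [if_pos h.le, if_neg (not_le.2 h)]
      · subst h
        rfl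
      · rw [if_neg (not_le.2 h), if_pos h.le]⟩ s)
    have hc' : ∀ x ∈ S, ∀ y ∈ S, x ≠ y → χ x y = c := by
      intro x hx y hy hxy
      have h1 := hc x hx y hy hxy
      simp only [Sym2.lift_mk] at h1
      split_ifs at h1
      · exact h1
      · rw [hsymm x y hxy]
        exact h1
    set f : Fin (K + 1) → Fin (M + 1) := fun i => (S.equivFinOfCardEq hS).symm i with hf
    have hfS : ∀ i, f i ∈ S := fun i => ((S.equivFinOfCardEq hS).symm i).2
    have hfinj : Function.Injective f := fun i j hij =>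
      (S.equivFinOfCardEq hS).symm.injective (Subtype.ext hij)
    -- the sub-clusters
    have hsub : ∀ i, ∃ φ : Fin L → ℕ, Function.Injective φ ∧ ∀ l, φ l ∈ A' (f i) := by
      intro i
      obtain ⟨B, hB1, hB2⟩ := exists_subset_card_eq (hA2 (f i))
      refine ⟨fun l => (B.equivFinOfCardEq hB2).symm l, ?_, fun l => hB1 ((B.equivFinOfCardEq hB2).symm l).2⟩
      intro a b hab
      exact (B.equivFinOfCardEq hB2).symm.injective (Subtype.ext hab)
    choose φ hφ1 hφ2 using hsub
    have hmem : ∀ i l, ∃ l', φ i l = g (f i, l') := by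
      intro i l
      obtain ⟨l', _, h⟩ := mem_image.1 (hA1 _ (hφ2 i l))
      exact ⟨l', h.symm⟩
    obtain ⟨s, t, hst, hrep⟩ := cluE_pow hK hL (he c) (HC (e c) (he c)) (r c) (hr c)
      (fun s => φ s.1 s.2) (by
        rintro ⟨i, a⟩ ⟨j, b⟩ hab
        obtain ⟨a', ha'⟩ := hmem i a
        obtain ⟨b', hb'⟩ := hmem j b
        simp only at hab
        have h1 : g (f i, a') = g (f j, b') := by rw [← ha', ← hb', hab]
        have h2 : i = j := hfinj (Prod.mk.inj (hinj h1)).1
        subst h2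
        rw [hφ1 i hab])
    have hne : f s.1 ≠ f t.1 := fun h => hst (hfinj h)
    have h1 := hχ _ _ hne _ (hφ2 s.1 s.2) _ (hφ2 t.1 t.2)
    rw [hc' _ (hfS _) _ (hfS _) hne] at h1
    obtain ⟨a', ha'⟩ := hmem s.1 s.2
    obtain ⟨b', hb'⟩ := hmem t.1 t.2
    have h2 : ¬ P (Nat.dist (φ s.1 s.2) (φ t.1 t.2)) := by
      rw [ha', hb']
      exact hcon _ _ hne
    have h3 := hcol _ h2
    rw [h1] at h3
    exact h3 hrep
  have h1 := hJ₀ J 1 0 hJ P hclu
  have hwv : ∀ n v m, wv 0 n v m = 1 := by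
    intro n v m
    have h0 : primorial 0 = 1 := by
      unfold primorial
      rw [prod_eq_one]
      intro p hp
      rw [mem_filter, mem_range] at hp
      have h1 : p = 0 := by omega
      rw [h1] at hp
      exact absurd hp.2 (by norm_num)
    unfold wv
    rw [h0]
    simp
  simp only [hwv, Nat.cast_one, sum_const, nsmul_eq_mul, mul_one, Nat.card_Icc,
    Nat.add_sub_cancel] at h1
  exact h1

end PoolRat
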