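import Pool.Agent.Work.MP_1a023c_nt.Quarter
import Pool.Agent.Work.MP_7d1693_pr.RAM

/-!
# Simultaneous powers

For any `k` positive rationals `r i` there is an exponent `d ≤ D(k)` such that all `r i ^ d` are represented.
-/

namespace PoolRat

open Finset Classical PoolCL

theorem Rep_one (e : ℤ) (he : e = 1 ∨ e = -1) : Rep e 1 := by
  unfold Rep
  refine (Nat.infinite_setOfPred_prime.image (f := fun p : ℕ => (p, p)) ?_).mono ?_
  · intro p _ q _ h
    exact congrArg Prod.fst h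
  · rintro _ ⟨p, hp, rfl⟩
    refine ⟨hp, hp, ?_⟩
    have h1 : (2 : ℚ) ≤ p := by exact_mod_cast (Nat.Prime.two_le hp)
    have h2 : ((p : ℚ) + e) ≠ 0 := by
      rcases he with rfl | rfl
      · push_cast; linarith
      · push_cast; linarith
    exact (div_self h2).symm

/-- among sufficiently many positive rationals two have a represented ratio -/
theorem two_of_many (HC : ∀ (N : ℕ) (η : ℝ), 1 ≤ N → 0 < η → ClusterM N η) :
    ∃ m : ℕ, ∀ e : ℤ, e = 1 ∨ e = -1 → ∀ X : Finset ℚ, (∀ x ∈ X, 0 < x) → m ≤ #X →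
      ∃ x ∈ X, ∃ y ∈ X, x ≠ y ∧ Rep e (x / y) := by
  obtain ⟨n₀, hn₀⟩ := sub_inf HC 2 (by norm_num) (1 / 8) (by norm_num)
  refine ⟨n₀ + 2, fun e he X hX hm => ?_⟩
  set M : ℕ := ∏ x ∈ X, x.den with hM
  have hM0 : 0 < M := prod_pos (fun x _ => x.den_pos)
  have hMq : (M : ℚ) ≠ 0 := by exact_mod_cast hM0.ne'
  set h : ℚ → ℕ := fun x => x.num.toNat * (M / x.den) with hh
  have hhf : ∀ x ∈ X, ((h x : ℕ) : ℚ) = x * M := by
    intro x hx
    have h1 : x.den ∣ M := dvd_prod_of_mem (fun x : ℚ => x.den) hx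
    have h2 : ((x.num.toNat : ℕ) : ℚ) = x.num := by
      have : ((x.num.toNat : ℕ) : ℤ) = x.num := Int.toNat_of_nonneg (Rat.num_pos.2 (hX x hx)).le
      exact_mod_cast congrArg (fun t : ℤ => (t : ℚ)) this
    have h3 : (x.den : ℚ) ≠ 0 := by exact_mod_cast x.den_nz
    simp only [hh]
    push_cast
    rw [h2, Nat.cast_div h1 h3]
    conv_rhs => rw [← Rat.num_div_den x]
    ring
  have hhp : ∀ x ∈ X, 0 < h x := by
    intro x hx
    have h1 : (0 : ℚ) < (h x : ℕ) := by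
      rw [hhf x hx]
      exact mul_pos (hX x hx) (by exact_mod_cast hM0)
    exact_mod_cast h1
  have hhi : Set.InjOn h (X : Set ℚ) := by
    intro x hx y hy hxy
    have h1 : ((h x : ℕ) : ℚ) = (h y : ℕ) := by rw [hxy]
    rw [hhf x hx, hhf y hy] at h1
    exact mul_right_cancel₀ hMq h1
  have h1 := hn₀ e he (X.image h) (by
    intro a ha
    obtain ⟨x, hx, rfl⟩ := mem_image.1 ha
    exact hhp x hx) (by rw [card_image_of_injOn hhi]; omega)
  have h2 : (0 : ℝ) < ((1 / 4) ^ (2 - 1) - 1 / 8) * ((#(X.image h)).choose 2 : ℝ) := by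
    have h3 : 0 < (#(X.image h)).choose 2 := Nat.choose_pos (by
      rw [card_image_of_injOn hhi]; omega)
    have h4 : (0 : ℝ) < ((#(X.image h)).choose 2 : ℝ) := by exact_mod_cast h3
    norm_num
    exact h3
  have h3 := h2.trans_le h1
  have h4 : 0 < #{S ∈ (X.image h).powersetCard 2 | {n : ℕ |
          ∀ h : ℕ, h ∈ S → ∃ p : ℕ, p.Prime ∧ (p : ℤ) = (h : ℤ) * n - e}.Infinite} := by
    exact_mod_cast h3
  obtain ⟨S, hS⟩ := card_pos.1 h4
  obtain ⟨h5, h6⟩ := mem_filter.1 hS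
  obtain ⟨h7, h8⟩ := mem_powersetCard.1 h5
  obtain ⟨a, b, hab, rfl⟩ := card_eq_two.1 h8
  obtain ⟨x, hx, rfl⟩ := mem_image.1 (h7 (mem_insert_self a {b}))
  obtain ⟨y, hy, rfl⟩ := mem_image.1 (h7 (mem_insert_of_mem (mem_singleton_self b)))
  refine ⟨x, hx, y, hy, fun h => hab (by rw [h]), ?_⟩
  have h9 : Rep e ((h x : ℚ) / h y) := by
    refine Rep_of_inf (hhp x hx) (h6.mono (fun n hn => ⟨?_, ?_⟩))
    · exact hn (h x) (mem_insert_self _ _)
    · exact hn (h y) (mem_insert_of_mem (mem_singleton_self _))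
  rwa [hhf x hx, hhf y hy, mul_div_mul_right _ _ hMq] at h9

theorem power (HC : ∀ (N : ℕ) (η : ℝ), 1 ≤ N → 0 < η → ClusterM N η) (k : ℕ) :
    ∃ D : ℕ, ∀ r : Fin k → ℚ, (∀ i, 0 < r i) →
      ∃ d : ℕ, 1 ≤ d ∧ d ≤ D ∧ ∀ (i : Fin k) (e : ℤ), e = 1 ∨ e = -1 → Rep e (r i ^ d) := by
  obtain ⟨m, hm⟩ := two_of_many HC
  obtain ⟨R, hR⟩ := Pool.Agent.Work.MP_7d1693_pr.ramsey (Option (Fin k × Bool)) (m + 2)
  refine ⟨R, fun r hr => ?_⟩
  by_contra hcon
  push Not at hcon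
  set sg : Bool → ℤ := fun b => if b then 1 else -1 with hsg
  have hsg' : ∀ b, sg b = 1 ∨ sg b = -1 := by
    intro b
    cases b <;> simp [hsg]
  -- every difference has a bad index
  have hbad : ∀ d : ℕ, ∃ c : Option (Fin k × Bool), 1 ≤ d → d ≤ R →
      ∃ i, c = some i ∧ ¬ Rep (sg i.2) (r i.1 ^ d) := by
    intro d
    by_cases h : 1 ≤ d ∧ d ≤ R
    · obtain ⟨i, e, he, hi⟩ := hcon d h.1 h.2
      rcases he with rfl | rfl
      · exact ⟨some (i, true), fun _ _ => ⟨(i, true), rfl, by simpa [hsg] using hi⟩⟩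
      · exact ⟨some (i, false), fun _ _ => ⟨(i, false), rfl, by simpa [hsg] using hi⟩⟩
    · exact ⟨none, fun h1 h2 => absurd ⟨h1, h2⟩ h⟩
  choose χ hχ using hbad
  obtain ⟨s, hs, hsm, col, hcol⟩ := hR (fun x y => χ (y - x))
  have hsR : ∀ x ∈ s, x < R := fun x hx => mem_range.1 (hs hx)
  -- two elements of s
  have h2 : ∃ x ∈ s, ∃ y ∈ s, x < y := by
    have h3 : 1 < #s := by omega
    obtain ⟨x, hx, y, hy, hxy⟩ := one_lt_card.1 h3
    rcases lt_or_gt_of_ne hxy with h | h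
    · exact ⟨x, hx, y, hy, h⟩
    · exact ⟨y, hy, x, hx, h⟩
  obtain ⟨x₀, hx₀, y₀, hy₀, hxy₀⟩ := h2
  obtain ⟨i, hi, hi2⟩ := hχ (y₀ - x₀) (by omega) (by have := hsR y₀ hy₀; omega)
  have hci : col = some i := by rw [← hcol x₀ hx₀ y₀ hy₀ hxy₀, hi]
  have hri : r i.1 ≠ 1 := by
    intro h
    rw [h, one_pow] at hi2
    exact hi2 (Rep_one _ (hsg' _))
  have hinj : Function.Injective (fun n : ℕ => r i.1 ^ n) := by
    intro a b hab
    exact pow_right_injective₀ (hr i.1) hri hab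
  obtain ⟨x, hx, y, hy, hxy, hrep⟩ := hm (sg i.2) (hsg' _) (s.image (fun n => r i.1 ^ n)) (by
    intro z hz
    obtain ⟨n, _, rfl⟩ := mem_image.1 hz
    exact pow_pos (hr i.1) n) (by rw [card_image_of_injective _ hinj]; omega)
  obtain ⟨a, ha, rfl⟩ := mem_image.1 hx
  obtain ⟨b, hb, rfl⟩ := mem_image.1 hy
  have key : ∀ u v : ℕ, u ∈ s → v ∈ s → u < v → ¬ Rep (sg i.2) (r i.1 ^ v / r i.1 ^ u) := by
    intro u v hu hv huv
    obtain ⟨j, hj, hj2⟩ := hχ (v - u) (by omega) (by have := hsR v hv; omega)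
    have h3 : (some j : Option (Fin k × Bool)) = some i := by rw [← hj, hcol u hu v hv huv, hci]
    have h4 : j = i := Option.some.inj h3
    rw [h4] at hj2
    rw [div_eq_mul_inv, ← pow_sub₀ _ (hr i.1).ne' huv.le]
    exact hj2
  have hab : a ≠ b := fun h => hxy (by rw [h])
  rcases lt_or_gt_of_ne hab with h | h
  · refine key a b ha hb h ?_
    have := Rep_inv hrep
    rwa [inv_div] at this
  · exact key b a hb ha h hrep

end PoolRat
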