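import Pool.Agent.Work.MP_1a023c_nt.Sub
import Pool.Agent.Work.MP_1a023c_nt.Box

/-!
# A quarter of every multiplicative box

`Rep e r`: there are infinitely many pairs of primes `(p, q)` with `r = (p + e) / (q + e)`.
-/

namespace PoolRat

open Finset Classical PoolCL

def Rep (e : ℤ) (r : ℚ) : Prop :=
  {t : ℕ × ℕ | t.1.Prime ∧ t.2.Prime ∧ r = ((t.1 : ℚ) + e) / ((t.2 : ℚ) + e)}.Infinite

theorem Rep_inv {e : ℤ} {r : ℚ} (h : Rep e r) : Rep e r⁻¹ := by
  unfold Rep at *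
  refine (h.image (f := Prod.swap) (fun _ _ _ _ h => Prod.swap_injective h)).mono ?_
  rintro _ ⟨⟨p, q⟩, ⟨hp, hq, hr⟩, rfl⟩
  refine ⟨hq, hp, ?_⟩
  rw [hr, inv_div]
  rfl

theorem Rep_of_inf {e : ℤ} {a b : ℕ} (ha : 0 < a)
    (h : {n : ℕ | (∃ p : ℕ, p.Prime ∧ (p : ℤ) = (a : ℤ) * n - e) ∧
      ∃ p : ℕ, p.Prime ∧ (p : ℤ) = (b : ℤ) * n - e}.Infinite) : Rep e ((a : ℚ) / b) := by
  unfold Rep
  have h0 : {n : ℕ | 0 < n ∧ (∃ p : ℕ, p.Prime ∧ (p : ℤ) = (a : ℤ) * n - e) ∧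
      ∃ p : ℕ, p.Prime ∧ (p : ℤ) = (b : ℤ) * n - e}.Infinite := by
    refine (h.sdiff (Set.finite_singleton 0)).mono ?_
    rintro n ⟨hn, hn0⟩
    exact ⟨Nat.pos_of_ne_zero (by simpa using hn0), hn⟩
  set f : ℕ → ℕ × ℕ := fun n => (((a : ℤ) * n - e).toNat, ((b : ℤ) * n - e).toNat) with hf
  refine (h0.image (f := f) ?_).mono ?_
  · rintro n ⟨hn0, ⟨p, hp, hpn⟩, q, hq, hqn⟩ n' ⟨hn0', ⟨p', hp', hpn'⟩, q', hq', hqn'⟩ hnn
    have h1 : ((a : ℤ) * n - e).toNat = ((a : ℤ) * n' - e).toNat := congrArg Prod.fst hnn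
    rw [← hpn, ← hpn', Int.toNat_natCast, Int.toNat_natCast] at h1
    rw [h1, hpn'] at hpn
    have h2 : (a : ℤ) * n' = a * n := by linarith
    have h3 : (a : ℤ) ≠ 0 := by exact_mod_cast ha.ne'
    exact_mod_cast (mul_left_cancel₀ h3 h2).symm
  · rintro _ ⟨n, ⟨hn0, ⟨p, hp, hpn⟩, q, hq, hqn⟩, rfl⟩
    refine ⟨?_, ?_, ?_⟩
    · simp only [hf]
      rw [← hpn, Int.toNat_natCast]
      exact hp
    · simp only [hf]
      rw [← hqn, Int.toNat_natCast]
      exact hq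
    · simp only [hf]
      rw [← hpn, ← hqn, Int.toNat_natCast, Int.toNat_natCast]
      have e1 : (p : ℚ) + e = a * n := by
        have : ((p : ℤ) : ℚ) = (((a : ℤ) * n - e : ℤ) : ℚ) := by rw [hpn]
        push_cast at this
        linarith
      have e2 : (q : ℚ) + e = b * n := by
        have : ((q : ℤ) : ℚ) = (((b : ℤ) * n - e : ℤ) : ℚ) := by rw [hqn]
        push_cast at this
        linarith
      rw [e1, e2]
      have hn : (n : ℚ) ≠ 0 := by exact_mod_cast hn0.ne'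
      rw [mul_div_mul_right _ _ hn]

/-- one step of the construction of a set with few represented ratios -/
theorem step (e : ℤ) (ε : ℝ) (hε : 0 < ε) (hε4 : ε < 1 / 4)
    (hcon : ∀ D : ℕ, 0 < D → ∃ g : ℚ, 0 < g ∧
      (#(D.divisors.filter (fun d : ℕ => Rep e (g * d))) : ℝ) < (1 / 4 - ε) * #D.divisors)
    (X : Finset ℚ) (hX : ∀ x ∈ X, 0 < x) :
    ∃ y : ℚ, 0 < y ∧ y ∉ X ∧ (#(X.filter (fun x => Rep e (y / x))) : ℝ) ≤ (1 / 4 - ε / 2) * #X := by
  obtain ⟨K, hK⟩ := exists_nat_ge ((#X : ℝ) / ε)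
  obtain ⟨D, hD, hKD, hbox⟩ := exists_box X hX (ε / 4) (by positivity) (K + #X + 1)
  obtain ⟨g, hg, hgD⟩ := hcon D hD
  set T : ℝ := ((#D.divisors : ℕ) : ℝ) with hT
  by_contra hno
  push Not at hno
  -- the allowed divisors
  set Al : Finset ℕ := D.divisors.filter (fun d : ℕ => g * d ∉ X) with hAl
  have hcard : T - #X ≤ #Al := by
    have h1 := card_filter_add_card_filter_not (s := D.divisors) (fun d : ℕ => g * (d : ℚ) ∈ X)
    have h2 : #(D.divisors.filter (fun d : ℕ => g * (d : ℚ) ∈ X)) ≤ #X := by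
      refine card_le_card_of_injOn (fun d : ℕ => g * (d : ℚ)) ?_ ?_
      · intro d hd
        exact (mem_filter.1 (mem_coe.1 hd)).2
      · intro d _ d' _ h
        have h3 := mul_left_cancel₀ hg.ne' h
        exact_mod_cast h3
    have h3 : #D.divisors ≤ #X + #Al := by
      rw [← h1]
      exact Nat.add_le_add_right h2 _
    have h4 : T ≤ #X + #Al := by
      rw [hT]
      exact_mod_cast h3
    linarith
  have hpos : ∀ d ∈ Al, 0 < d := fun d hd => Nat.pos_of_mem_divisors (mem_filter.1 hd).1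
  have hlow : ∀ d ∈ Al, (1 / 4 - ε / 2) * (#X : ℝ) ≤ #(X.filter (fun x => Rep e (g * d / x))) := by
    intro d hd
    have h1 : (0 : ℚ) < d := by exact_mod_cast hpos d hd
    exact (hno (g * d) (mul_pos hg h1) (mem_filter.1 hd).2).le
  -- double counting
  have hsum : ∑ d ∈ Al, (#(X.filter (fun x => Rep e (g * d / x))) : ℝ) ≤
      ∑ x ∈ X, (1 / 4 - 3 * ε / 4) * T := by
    have h1 : ∑ d ∈ Al, #(X.filter (fun x => Rep e (g * d / x))) =
        ∑ x ∈ X, #(Al.filter (fun d : ℕ => Rep e (g * d / x))) := by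
      simp only [card_filter]
      exact sum_comm
    have h2 : ∑ d ∈ Al, (#(X.filter (fun x => Rep e (g * d / x))) : ℝ) =
        ∑ x ∈ X, (#(Al.filter (fun d : ℕ => Rep e (g * d / x))) : ℝ) := by exact_mod_cast h1
    rw [h2]
    refine sum_le_sum (fun x hx => ?_)
    have hx0 : x ≠ 0 := (hX x hx).ne'
    have h3 : #(Al.filter (fun d : ℕ => Rep e (g * d / x))) ≤
        #(D.divisors.filter (fun d : ℕ => Rep e (g * d))) +
        #(D.divisors.filter (fun d : ℕ => ¬ ∃ d' ∈ D.divisors, (d : ℚ) / x = (d' : ℚ))) := by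
      have h4 : #(Al.filter (fun d : ℕ => Rep e (g * d / x))) ≤
          #((D.divisors.filter (fun d : ℕ => (∃ d' ∈ D.divisors, (d : ℚ) / x = (d' : ℚ)) ∧
            Rep e (g * d / x))) ∪
          (D.divisors.filter (fun d : ℕ => ¬ ∃ d' ∈ D.divisors, (d : ℚ) / x = (d' : ℚ)))) := by
        refine card_le_card (fun d hd => ?_)
        obtain ⟨h5, h6⟩ := mem_filter.1 hd
        rw [mem_union, mem_filter, mem_filter]
        by_cases h7 : ∃ d' ∈ D.divisors, (d : ℚ) / x = (d' : ℚ)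
        · exact Or.inl ⟨(mem_filter.1 h5).1, h7, h6⟩
        · exact Or.inr ⟨(mem_filter.1 h5).1, h7⟩
      refine h4.trans ((card_union_le _ _).trans (Nat.add_le_add_right ?_ _))
      -- injection d ↦ d / x
      have h8 : ∀ d : ℕ, ∃ d' : ℕ, (∃ d' ∈ D.divisors, (d : ℚ) / x = (d' : ℚ)) →
          d' ∈ D.divisors ∧ (d : ℚ) / x = (d' : ℚ) := by
        intro d
        by_cases h9 : ∃ d' ∈ D.divisors, (d : ℚ) / x = (d' : ℚ)
        · obtain ⟨d', h10, h11⟩ := h9
          exact ⟨d', fun _ => ⟨h10, h11⟩⟩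
        · exact ⟨0, fun h => absurd h h9⟩
      choose φ hφ using h8
      refine card_le_card_of_injOn φ ?_ ?_
      · intro d hd
        obtain ⟨h9, h10, h11⟩ := mem_filter.1 (mem_coe.1 hd)
        obtain ⟨h12, h13⟩ := hφ d h10
        refine mem_coe.2 (mem_filter.2 ⟨h12, ?_⟩)
        rw [← h13, ← mul_div_assoc]
        exact h11
      · intro d hd d' hd' hdd
        obtain ⟨h9, h10, h11⟩ := mem_filter.1 (mem_coe.1 hd)
        obtain ⟨h9', h10', h11'⟩ := mem_filter.1 (mem_coe.1 hd')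
        obtain ⟨h12, h13⟩ := hφ d h10
        obtain ⟨h12', h13'⟩ := hφ d' h10'
        rw [hdd, ← h13'] at h13
        have h14 : (d : ℚ) = d' := by
          field_simp at h13
          exact h13
        exact_mod_cast h14
    have h4 : (#(Al.filter (fun d : ℕ => Rep e (g * d / x))) : ℝ) ≤
        #(D.divisors.filter (fun d : ℕ => Rep e (g * d))) +
        #(D.divisors.filter (fun d : ℕ => ¬ ∃ d' ∈ D.divisors, (d : ℚ) / x = (d' : ℚ))) := by
      exact_mod_cast h3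
    have h5 := hbox x hx

    linarith
  have hlow2 := sum_le_sum hlow
  rw [sum_const, nsmul_eq_mul] at hlow2
  rw [sum_const, nsmul_eq_mul] at hsum
  have h6 := hlow2.trans hsum
  -- case distinction
  rcases Nat.eq_zero_or_pos (#X) with h0 | h0
  · -- X is empty
    rw [card_eq_zero] at h0
    subst h0
    have := hno 1 one_pos (by simp)
    simp at this
  · have hXp : (0 : ℝ) < #X := by exact_mod_cast h0
    have h7 : (#Al : ℝ) * (1 / 4 - ε / 2) ≤ (1 / 4 - 3 * ε / 4) * T := by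
      have : (#X : ℝ) * ((#Al : ℝ) * (1 / 4 - ε / 2)) ≤ #X * ((1 / 4 - 3 * ε / 4) * T) := by
        calc (#X : ℝ) * ((#Al : ℝ) * (1 / 4 - ε / 2)) = #Al * ((1 / 4 - ε / 2) * #X) := by ring
          _ ≤ _ := h6
      exact le_of_mul_le_mul_left this hXp
    have h8 : (T - #X) * (1 / 4 - ε / 2) ≤ (1 / 4 - 3 * ε / 4) * T :=
      (mul_le_mul_of_nonneg_right hcard (by linarith)).trans h7
    have h9 : ((K + #X + 1 : ℕ) : ℝ) ≤ T := by
      rw [hT]
      exact_mod_cast hKD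
    push_cast at h9
    have h10 : (#X : ℝ) ≤ ε * K := by
      rw [div_le_iff₀ hε] at hK
      linarith
    nlinarith

end PoolRat
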