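import Pool.Agent.Work.MP_1a023c_nt.Quarter

/-!
# A quarter of every multiplicative box : the main theorem
-/

namespace PoolRat

open Finset Classical PoolCL

theorem seq_exists (e : ℤ) (ε : ℝ) (hε : 0 < ε) (hε4 : ε < 1 / 4)
    (hcon : ∀ D : ℕ, 0 < D → ∃ g : ℚ, 0 < g ∧
      (#(D.divisors.filter (fun d : ℕ => Rep e (g * d))) : ℝ) < (1 / 4 - ε) * #D.divisors) (n : ℕ) :
    ∃ f : ℕ → ℚ, (∀ i < n, 0 < f i) ∧ Set.InjOn f (Set.Iio n) ∧
      ∀ k < n, (#((range k).filter (fun j => Rep e (f k / f j))) : ℝ) ≤ (1 / 4 - ε / 2) * k := by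
  induction n with
  | zero => exact ⟨fun _ => 1, by simp, by simp, by simp⟩
  | succ n ih =>
    obtain ⟨f, h1, h2, h3⟩ := ih
    obtain ⟨y, hy0, hyX, hy⟩ := step e ε hε hε4 hcon ((range n).image f) (by
      intro x hx
      obtain ⟨i, hi, rfl⟩ := mem_image.1 hx
      exact h1 i (mem_range.1 hi))
    have hup : ∀ i, i < n → Function.update f n y i = f i := fun i hi =>
      Function.update_of_ne hi.ne _ _
    refine ⟨Function.update f n y, ?_, ?_, ?_⟩
    · intro i hi
      rcases Nat.lt_succ_iff_lt_or_eq.1 hi with h | rfl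
      · rw [hup i h]
        exact h1 i h
      · simpa using hy0
    · intro i hi j hj hij
      rcases Nat.lt_succ_iff_lt_or_eq.1 (Set.mem_Iio.1 hi) with h | rfl
      · rcases Nat.lt_succ_iff_lt_or_eq.1 (Set.mem_Iio.1 hj) with h' | rfl
        · rw [hup i h, hup j h'] at hij
          exact h2 h h' hij
        · rw [hup i h, Function.update_self] at hij
          exact absurd (mem_image.2 ⟨i, mem_range.2 h, hij⟩) hyX
      · rcases Nat.lt_succ_iff_lt_or_eq.1 (Set.mem_Iio.1 hj) with h' | rfl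
        · rw [hup j h', Function.update_self] at hij
          exact absurd (mem_image.2 ⟨j, mem_range.2 h', hij.symm⟩) hyX
        · rfl
    · intro k hk
      rcases Nat.lt_succ_iff_lt_or_eq.1 hk with h | rfl
      · have : (range k).filter (fun j => Rep e (Function.update f n y k / Function.update f n y j)) =
            (range k).filter (fun j => Rep e (f k / f j)) := by
          refine filter_congr (fun j hj => ?_)
          rw [hup k h, hup j ((mem_range.1 hj).trans h)]
        rw [this]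
        exact h3 k h
      · have h4 : #((range k).filter (fun j => Rep e (Function.update f k y k /
            Function.update f k y j))) ≤ #(((range k).image f).filter (fun x => Rep e (y / x))) := by
          refine card_le_card_of_injOn f ?_ ?_
          · intro j hj
            obtain ⟨h5, h6⟩ := mem_filter.1 (mem_coe.1 hj)
            rw [hup j (mem_range.1 h5), Function.update_self] at h6
            exact mem_coe.2 (mem_filter.2 ⟨mem_image_of_mem _ h5, h6⟩)
          · intro i hi j hj hij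
            exact h2 (mem_range.1 (mem_filter.1 (mem_coe.1 hi)).1)
              (mem_range.1 (mem_filter.1 (mem_coe.1 hj)).1) hij
        have h5 : #((range k).image f) ≤ k := by
          simpa using card_image_le (s := range k) (f := f)
        have h6 : ((#((range k).image f) : ℕ) : ℝ) ≤ k := by exact_mod_cast h5
        have h7 : (#((range k).filter (fun j => Rep e (Function.update f k y k /
            Function.update f k y j))) : ℝ) ≤ #(((range k).image f).filter (fun x => Rep e (y / x))) := by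
          exact_mod_cast h4
        refine h7.trans (hy.trans ?_)
        exact mul_le_mul_of_nonneg_left h6 (by linarith)

theorem quarter (HC : ∀ (N : ℕ) (η : ℝ), 1 ≤ N → 0 < η → ClusterM N η) (e : ℤ) (he : e = 1 ∨ e = -1)
    (ε : ℝ) (hε : 0 < ε) : ∃ D : ℕ, 0 < D ∧ ∀ g : ℚ, 0 < g →
      (1 / 4 - ε) * #D.divisors ≤ (#(D.divisors.filter (fun d : ℕ => Rep e (g * d))) : ℝ) := by
  by_cases hε4 : ε < 1 / 4
  swap
  · refine ⟨1, one_pos, fun g _ => ?_⟩
    refine le_trans ?_ (Nat.cast_nonneg _)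
    exact mul_nonpos_of_nonpos_of_nonneg (by linarith) (Nat.cast_nonneg _)
  by_contra hcon
  push Not at hcon
  obtain ⟨n₀, hn₀⟩ := sub_inf HC 2 (by norm_num) (ε / 4) (by positivity)
  set n : ℕ := n₀ + 2 with hn
  obtain ⟨f, hf1, hf2, hf3⟩ := seq_exists e ε hε hε4 hcon n
  set M : ℕ := ∏ i ∈ range n, (f i).den with hM
  have hM0 : 0 < M := prod_pos (fun i _ => (f i).den_pos)
  set h : ℕ → ℕ := fun i => (f i).num.toNat * (M / (f i).den) with hh
  have hhf : ∀ i < n, ((h i : ℕ) : ℚ) = f i * M := by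
    intro i hi
    have h1 : (f i).den ∣ M := dvd_prod_of_mem (fun i => (f i).den) (mem_range.2 hi)
    have h2 : (((f i).num.toNat : ℕ) : ℚ) = (f i).num := by
      have : (((f i).num.toNat : ℕ) : ℤ) = (f i).num :=
        Int.toNat_of_nonneg (Rat.num_pos.2 (hf1 i hi)).le
      exact_mod_cast congrArg (fun t : ℤ => (t : ℚ)) this
    have h3 : ((f i).den : ℚ) ≠ 0 := by exact_mod_cast (f i).den_nz
    simp only [hh]
    push_cast
    rw [h2, Nat.cast_div h1 h3]
    conv_rhs => rw [← Rat.num_div_den (f i)]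
    ring
  have hhp : ∀ i < n, 0 < h i := by
    intro i hi
    have h1 : (0 : ℚ) < (h i : ℕ) := by
      rw [hhf i hi]
      exact mul_pos (hf1 i hi) (by exact_mod_cast hM0)
    exact_mod_cast h1
  have hhi : Set.InjOn h (Set.Iio n) := by
    intro i hi j hj hij
    have h1 : ((h i : ℕ) : ℚ) = (h j : ℕ) := by rw [hij]
    rw [hhf i hi, hhf j hj] at h1
    have h2 : (M : ℚ) ≠ 0 := by exact_mod_cast hM0.ne'
    exact hf2 hi hj (mul_right_cancel₀ h2 h1)
  set H : Finset ℕ := (range n).image h with hH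
  have hHc : #H = n := by
    rw [hH, card_image_of_injOn (fun i hi j hj hij => hhi (mem_range.1 (mem_coe.1 hi))
      (mem_range.1 (mem_coe.1 hj)) hij), card_range]
  have h1 := hn₀ e he H (by
    intro x hx
    obtain ⟨i, hi, rfl⟩ := mem_image.1 hx
    exact hhp i (mem_range.1 hi)) (by omega)
  rw [hHc] at h1
  set F : Finset (Finset ℕ) := {S ∈ H.powersetCard 2 | {n : ℕ |
          ∀ h : ℕ, h ∈ S → ∃ p : ℕ, p.Prime ∧ (p : ℤ) = (h : ℤ) * n - e}.Infinite} with hF
  set P : Finset (ℕ × ℕ) := (range n).biUnion (fun k => ((range k).filter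
    (fun j => Rep e (f k / f j))).image (fun j => (j, k))) with hP
  have h2 : #F ≤ #P := by
    refine card_le_card_of_surjOn (fun t : ℕ × ℕ => ({h t.1, h t.2} : Finset ℕ)) ?_
    intro S hS
    obtain ⟨h3, h4⟩ := mem_filter.1 (mem_coe.1 hS)
    obtain ⟨h5, h6⟩ := mem_powersetCard.1 h3
    obtain ⟨a, b, hab, rfl⟩ := card_eq_two.1 h6
    obtain ⟨i, hi, rfl⟩ := mem_image.1 (h5 (mem_insert_self a {b}))
    obtain ⟨j, hj, rfl⟩ := mem_image.1 (h5 (mem_insert_of_mem (mem_singleton_self b)))
    rw [mem_range] at hi hj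
    have h7 : Rep e ((h i : ℚ) / h j) := by
      refine Rep_of_inf (hhp i hi) (h4.mono (fun n hn => ⟨?_, ?_⟩))
      · exact hn (h i) (mem_insert_self _ _)
      · exact hn (h j) (mem_insert_of_mem (mem_singleton_self _))
    have h8 : (h i : ℚ) / h j = f i / f j := by
      rw [hhf i hi, hhf j hj]
      have : (M : ℚ) ≠ 0 := by exact_mod_cast hM0.ne'
      rw [mul_div_mul_right _ _ this]
    rw [h8] at h7
    have hij : i ≠ j := fun h => hab (by rw [h])
    rcases lt_or_gt_of_ne hij with hlt | hlt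
    · refine ⟨(i, j), mem_coe.2 (mem_biUnion.2 ⟨j, mem_range.2 hj, mem_image.2 ⟨i,
        mem_filter.2 ⟨mem_range.2 hlt, ?_⟩, rfl⟩⟩), rfl⟩
      have := Rep_inv h7
      rwa [inv_div] at this
    · refine ⟨(j, i), mem_coe.2 (mem_biUnion.2 ⟨i, mem_range.2 hi, mem_image.2 ⟨j,
        mem_filter.2 ⟨mem_range.2 hlt, h7⟩, rfl⟩⟩), ?_⟩
      exact pair_comm _ _
  have h3 : (#P : ℝ) ≤ (1 / 4 - ε / 2) * (n.choose 2 : ℝ) := by
    have h4 : #P ≤ ∑ k ∈ range n, #((range k).filter (fun j => Rep e (f k / f j))) :=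
      card_biUnion_le.trans (sum_le_sum (fun k _ => card_image_le))
    have h5 : (#P : ℝ) ≤ ∑ k ∈ range n, (#((range k).filter (fun j => Rep e (f k / f j))) : ℝ) := by
      exact_mod_cast h4
    refine h5.trans ((sum_le_sum (fun k hk => hf3 k (mem_range.1 hk))).trans (le_of_eq ?_))
    rw [← mul_sum]
    congr 1
    have h6 : ∑ k ∈ range n, k = n.choose 2 := by
      rw [sum_range_id, Nat.choose_two_right]
    rw [← h6, Nat.cast_sum]
  have h4 : (#F : ℝ) ≤ #P := by exact_mod_cast h2
  have h5 : (0 : ℝ) < (n.choose 2 : ℝ) := by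
    have : 0 < n.choose 2 := Nat.choose_pos (by omega)
    exact_mod_cast this
  have h6 : ((1 / 4 : ℝ) ^ (2 - 1) - ε / 4) * (n.choose 2 : ℝ) ≤ (1 / 4 - ε / 2) * (n.choose 2 : ℝ) :=
    h1.trans (h4.trans h3)
  have h7 := le_of_mul_le_mul_right h6 h5
  norm_num at h7
  linarith

end PoolRat
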