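import Pool.Agent.Work.MP_70e905_nt.CL.Patt
import Pool.Agent.Work.MP_70e905_nt.CL.BlowR

/-!
# Module Tup : simultaneous shifted primes

`N, L, D₁` from `patt` with `ε/2`; `n₀` from `blowr` with `m = L`, `γ = (1/4)^(r-1) - ε/2` and `ε/2`. Let
`e : Fin n ≃ S` and `G` the set of the injective `s : Fin r → Fin n` for which infinitely many `z` have all
`e (s i) * z - 1` prime. The hypothesis of `blowr` for `A`: apply `patt` with `W = primorial D₁ * ∏ e (A c l)`,
`a (c, l) = e (A c l)`, `b = a - 1` (so `a z + b = a (z + 1) - 1`), `v = W - 1` (`a v + b = a W - 1` is prime to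
`W`), `C = A₀` a bound of the `a`, and `x ≥ X₀` larger than all the `z` of the FINITE ones among the sets
`{z | ∀ i, (e (A (t i) (l i)) * z - 1).Prime}` (`t`, `l` run through finite types): each pattern found by `patt`
then gives a set which is infinite. Final step (from `(γ - ε/2) n ^ r ≤ #G` to subsets): exactly as in
`CL/UnivR.lean`.
-/

namespace PoolSR

open Finset Classical PoolCL

private theorem Tup_primorial_pos (D : ℕ) : 0 < primorial D := by
  unfold primorial
  exact Finset.prod_pos fun p hp => (mem_filter.1 hp).2.pos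

private theorem Tup_bound (P : ℕ → Prop) : ∃ B : ℕ, ∀ z, B < z → P z → {z : ℕ | P z}.Infinite := by
  by_cases h : {z : ℕ | P z}.Infinite
  · exact ⟨0, fun _ _ _ => h⟩
  · rw [Set.not_infinite] at h
    obtain ⟨B, hB⟩ := h.bddAbove
    exact ⟨B, fun z hz hP => absurd (hB hP) (not_le.2 hz)⟩

theorem ratio_tuples (HC : ∀ (N : ℕ) (η : ℝ), 1 ≤ N → 0 < η → ClusterM N η) (r : ℕ) (hr : 1 ≤ r)
    (ε : ℝ) (hε : 0 < ε) : ∃ n₀ : ℕ, ∀ S : Finset ℕ, (∀ s ∈ S, 0 < s) → n₀ ≤ #S →
      ((1 / 4) ^ (r - 1) - ε) * ((#S).choose r : ℝ) ≤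
        (#{T ∈ S.powersetCard r | {z : ℕ | ∀ s ∈ T, (s * z - 1).Prime}.Infinite} : ℝ) := by
  obtain ⟨N, L, D₁, hN, hL, hpat⟩ := patt HC r hr (ε / 2) (half_pos hε)
  obtain ⟨n₀, hn₀⟩ := blowr r N L hN hL ((1 / 4) ^ (r - 1) - ε / 2) (ε / 2) (by
    have : (1 / 4 : ℝ) ^ (r - 1) ≤ 1 := pow_le_one₀ (by norm_num) (by norm_num)
    linarith) (half_pos hε)
  refine ⟨n₀, fun S hS hn => ?_⟩
  set n : ℕ := #S with hndef
  set e : Fin n ↪o ℕ := S.orderEmbOfFin rfl with he
  have heS : ∀ i, e i ∈ S := fun i => S.orderEmbOfFin_mem rfl i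
  have hepos : ∀ i, 0 < e i := fun i => hS _ (heS i)
  set G : Finset (Fin r → Fin n) := univ.filter (fun s => Function.Injective s ∧
    {z : ℕ | ∀ i, (e (s i) * z - 1).Prime}.Infinite) with hG
  have h1 : ((1 / 4) ^ (r - 1) - ε / 2 - ε / 2) * (n : ℝ) ^ r ≤ (#G : ℝ) := by
    refine hn₀ n hn G (fun A hA => ?_)
    set P : ℕ := ∏ s : Fin N × Fin L, e (A s.1 s.2) with hP
    have hPpos : 0 < P := prod_pos fun s _ => hepos _
    set W : ℕ := primorial D₁ * P with hW
    have hWpos : 0 < W := Nat.mul_pos (Tup_primorial_pos D₁) hPpos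
    set A₀ : ℕ := ∑ s : Fin N × Fin L, e (A s.1 s.2) with hA₀
    have hAle : ∀ s : Fin N × Fin L, e (A s.1 s.2) ≤ A₀ := fun s =>
      single_le_sum (f := fun s : Fin N × Fin L => e (A s.1 s.2)) (fun _ _ => Nat.zero_le _)
        (mem_univ s)
    obtain ⟨X₀, hX₀⟩ := hpat W A₀ A₀ hWpos (Dvd.intro _ rfl)
    have hB : ∀ (t : Fin r → Fin N) (l : Fin r → Fin L), ∃ B : ℕ, ∀ z, B < z →
        (∀ i, (e (A (t i) (l i)) * z - 1).Prime) →
          {z : ℕ | ∀ i, (e (A (t i) (l i)) * z - 1).Prime}.Infinite :=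
      fun t l => Tup_bound _
    choose B hB using hB
    set T : ℕ := ∑ t, ∑ l, B t l with hT
    have hBT : ∀ t l, B t l ≤ T := fun t l =>
      (single_le_sum (f := fun l => B t l) (fun _ _ => Nat.zero_le _) (mem_univ l)).trans
        (single_le_sum (f := fun t => ∑ l, B t l) (fun _ _ => Nat.zero_le _) (mem_univ t))
    set x : ℕ := max X₀ T + 1 with hx
    have k1 : X₀ ≤ x := (le_max_left _ _).trans (Nat.le_succ _)
    have k2 : T ≤ x := (le_max_right _ _).trans (Nat.le_succ _)
    have h2 := hX₀ x (W - 1) (fun i => e (A i.1 i.2)) (fun i => e (A i.1 i.2) - 1) k1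
      (fun i => ⟨hepos _, hAle i⟩)
      (fun i p _ hd => (hd.trans (dvd_prod_of_mem (fun s : Fin N × Fin L => e (A s.1 s.2))
        (mem_univ i))).trans (Dvd.intro_left _ rfl))
      (fun i => by
        have h1 := hAle i
        have h2 : A₀ * 1 ≤ A₀ * x := Nat.mul_le_mul_left _ (by omega)
        omega)
      (fun i => by
        have h1 : e (A i.1 i.2) * (W - 1) + (e (A i.1 i.2) - 1) + 1 = e (A i.1 i.2) * W := by
          have := hepos (A i.1 i.2)
          obtain ⟨w, hw⟩ : ∃ w, W = w + 1 := ⟨W - 1, by omega⟩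
          rw [hw]
          have : e (A i.1 i.2) * (w + 1) = e (A i.1 i.2) * w + e (A i.1 i.2) := by ring
          rw [this, Nat.add_sub_cancel]
          omega
        have h2 : (e (A i.1 i.2) * (W - 1) + (e (A i.1 i.2) - 1)).Coprime
            (e (A i.1 i.2) * (W - 1) + (e (A i.1 i.2) - 1) + 1) := by
          simp
        rw [h1] at h2
        exact h2.coprime_dvd_right (Dvd.intro_left _ rfl))
      (fun i j hij heq => by
        have h1 := hepos (A i.1 i.2)
        have h2 := hepos (A j.1 j.2)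
        obtain ⟨u, hu⟩ : ∃ u, e (A i.1 i.2) = u + 1 := ⟨e (A i.1 i.2) - 1, by omega⟩
        obtain ⟨w, hw⟩ : ∃ w, e (A j.1 j.2) = w + 1 := ⟨e (A j.1 j.2) - 1, by omega⟩
        simp only [hu, hw, Nat.add_sub_cancel] at heq
        have h3 : u = w := by nlinarith
        have h4 : e (A i.1 i.2) = e (A j.1 j.2) := by rw [hu, hw, h3]
        exact hij (hA (e.injective h4)))
    refine h2.trans ?_
    refine Nat.cast_le.2 (card_le_card (fun t ht => ?_))
    obtain ⟨ht1, z, hz1, hz2, _, hz3⟩ := (mem_filter.1 ht).2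
    choose l hl using hz3
    refine mem_filter.2 ⟨mem_univ _, ht1, l, mem_filter.2 ⟨mem_univ _, ?_, ?_⟩⟩
    · intro i j hij
      have h4 := @hA (t i, l i) (t j, l j) hij
      exact ht1 (congrArg Prod.fst h4)
    · refine hB t l (z + 1) (by have := hBT t l; omega) (fun i => ?_)
      have h5 : e (A (t i) (l i)) * (z + 1) - 1 =
          e (A (t i) (l i)) * z + (e (A (t i) (l i)) - 1) := by
        have h6 := hepos (A (t i) (l i))
        have h7 : e (A (t i) (l i)) * (z + 1) = e (A (t i) (l i)) * z + e (A (t i) (l i)) := by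
          ring
        omega
      rw [h5]
      exact hl i
  -- from tuples to sets
  set F : Finset (Finset ℕ) := {T ∈ S.powersetCard r |
    {z : ℕ | ∀ s ∈ T, (s * z - 1).Prime}.Infinite} with hF
  have h2 : #G ≤ r.factorial * #F := by
    refine card_le_mul_card_image_of_maps_to (f := fun s : Fin r → Fin n =>
      (univ : Finset (Fin r)).image (fun i => e (s i))) ?_ _ ?_
    · intro s hs
      obtain ⟨hs1, hz⟩ := (mem_filter.1 hs).2
      refine mem_filter.2 ⟨mem_powersetCard.2 ⟨?_, ?_⟩, ?_⟩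
      · intro y hy
        obtain ⟨i, _, rfl⟩ := mem_image.1 hy
        exact heS _
      · have hc := card_image_of_injective (univ : Finset (Fin r)) (e.injective.comp hs1)
        rw [card_univ, Fintype.card_fin] at hc
        exact hc
      · refine hz.mono (fun z hz => ?_)
        intro h hh
        obtain ⟨i, _, rfl⟩ := mem_image.1 hh
        exact hz i
    · intro S' _
      rcases (G.filter (fun s => (univ : Finset (Fin r)).image (fun i => e (s i)) = S')).eq_empty_or_nonempty
        with h0 | ⟨s₀, hs₀⟩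
      · rw [h0]
        simp
      · obtain ⟨hs1, hs2⟩ := mem_filter.1 hs₀
        have h3 : (G.filter (fun s => (univ : Finset (Fin r)).image (fun i => e (s i)) = S')) ⊆
            (univ : Finset (Equiv.Perm (Fin r))).image (fun σ => fun i => s₀ (σ i)) := by
          intro s hs
          obtain ⟨hs3, hs4⟩ := mem_filter.1 hs
          have hsi := (mem_filter.1 hs3).2.1
          have h4 : ∀ i, ∃ j, s₀ j = s i := by
            intro i
            have h5 : e (s i) ∈ S' := by
              rw [← hs4]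
              exact mem_image_of_mem _ (mem_univ i)
            rw [← hs2] at h5
            obtain ⟨j, _, hj⟩ := mem_image.1 h5
            exact ⟨j, e.injective hj⟩
          choose σ hσ using h4
          have hσi : Function.Injective σ := by
            intro i j hij
            apply hsi
            rw [← hσ i, ← hσ j, hij]
          refine mem_image.2 ⟨Equiv.ofBijective σ (Finite.injective_iff_bijective.1 hσi),
            mem_univ _, ?_⟩
          funext i
          simpa using hσ i
        refine (card_le_card h3).trans (card_image_le.trans ?_)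
        rw [card_univ, Fintype.card_perm, Fintype.card_fin]
  rcases lt_or_ge ((1 / 4 : ℝ) ^ (r - 1) - ε) 0 with hneg | hpos
  · exact (mul_nonpos_of_nonpos_of_nonneg hneg.le (Nat.cast_nonneg _)).trans (Nat.cast_nonneg _)
  · have h3 : ((r.factorial : ℕ) : ℝ) * (n.choose r : ℝ) ≤ (n : ℝ) ^ r := by
      have := Nat.descFactorial_le_pow n r
      rw [Nat.descFactorial_eq_factorial_mul_choose] at this
      exact_mod_cast this
    have h4 : (#G : ℝ) ≤ (r.factorial : ℝ) * (#F : ℝ) := by exact_mod_cast h2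
    have h5 : (0 : ℝ) < (r.factorial : ℝ) := by exact_mod_cast Nat.factorial_pos r
    have h6 : (r.factorial : ℝ) * (((1 / 4) ^ (r - 1) - ε) * (n.choose r : ℝ)) ≤
        (r.factorial : ℝ) * (#F : ℝ) := by
      calc (r.factorial : ℝ) * (((1 / 4) ^ (r - 1) - ε) * (n.choose r : ℝ))
          = ((1 / 4) ^ (r - 1) - ε) * ((r.factorial : ℝ) * (n.choose r : ℝ)) := by ring
        _ ≤ ((1 / 4) ^ (r - 1) - ε) * (n : ℝ) ^ r := mul_le_mul_of_nonneg_left h3 hpos
        _ = ((1 / 4) ^ (r - 1) - ε / 2 - ε / 2) * (n : ℝ) ^ r := by ring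
        _ ≤ _ := h1.trans h4
    exact le_of_mul_le_mul_left h6 h5

end PoolSR
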